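import Pool.Agent.helper132_h.H9

/-! Complete exponential sums of degree two and three by differencing. -/

namespace Pool.Agent.helper132_p

open Finset Polynomial Pool.Agent.helper132_sph Pool.Agent.helper132_poly Pool.Agent.helper132_h

lemma cs_diff (q : ℕ) (hq : 1 ≤ q) (f : ℤ[X]) (G : ℕ → ℤ[X])
    (hG : ∀ (h : ℕ) (n : ℤ), (G h).eval n = f.eval (n + h) - f.eval n) :
    ‖cs q f‖ ^ 2 ≤ ∑ h ∈ range q, ‖cs q (G h)‖ := by
  obtain ⟨c, hc⟩ : ∃ c : ℤ → ℂ, c = fun (n : ℤ) => ec (((f.eval n : ℤ) : ℝ) / q) := ⟨_, rfl⟩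
  have hper : ∀ n, c (n + q) = c n := by
    intro n
    rw [hc]
    beta_reduce
    refine ec_div_congr q hq _ _ ?_
    have h1 := Polynomial.sub_dvd_eval_sub (n + q) n f
    have e : n + (q : ℤ) - n = q := by ring
    rwa [e] at h1
  have hS : cs q f = ∑ n ∈ range q, c n := by unfold cs; rw [hc]
  have h1 : cs q f * (starRingEnd ℂ) (cs q f) = ∑ h ∈ range q, cs q (G h) := by
    have h2 : ∀ n ∈ range q, (∑ m ∈ range q, c m) * (starRingEnd ℂ) (c n) =
        ∑ h ∈ range q, ec ((((G h).eval (n : ℤ) : ℤ) : ℝ) / q) := by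
      intro n _
      rw [← period_shift q c hper n, Finset.sum_mul]
      refine Finset.sum_congr rfl fun h _ => ?_
      rw [hc]
      beta_reduce
      rw [hG, conj_ec, ← ec_add]
      congr 1
      push_cast
      ring
    rw [hS, map_sum, Finset.mul_sum, Finset.sum_congr rfl h2, Finset.sum_comm]
    rfl
  have h3 : ‖cs q f‖ ^ 2 = ‖cs q f * (starRingEnd ℂ) (cs q f)‖ := by
    rw [norm_mul, RCLike.norm_conj, sq]
  rw [h3, h1]
  exact norm_sum_le _ _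

lemma card_mul_dvd (q : ℕ) (hq : 1 ≤ q) (a : ℤ) :
    ((range q).filter (fun h => (q : ℤ) ∣ a * ((h : ℕ) : ℤ))).card ≤ Int.gcd a q := by
  classical
  obtain ⟨g, hg⟩ : ∃ g, g = Int.gcd a q := ⟨_, rfl⟩
  have hgpos : 0 < g := by
    rw [hg]
    exact Int.gcd_pos_of_ne_zero_right _ (by omega)
  have hgq : g ∣ q := by
    have : ((Int.gcd a q : ℕ) : ℤ) ∣ (q : ℤ) := Int.gcd_dvd_right _ _
    rw [hg]; exact_mod_cast this
  obtain ⟨w, hw⟩ := hgq
  have hw1 : 0 < w := by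
    rcases Nat.eq_zero_or_pos w with h0 | h0
    · rw [h0] at hw; omega
    · exact h0
  rw [← hg]
  have hdiv : ∀ h ∈ (range q).filter (fun h => (q : ℤ) ∣ a * ((h : ℕ) : ℤ)), w ∣ h := by
    intro h hh
    rw [Finset.mem_filter] at hh
    have h1 : q ∣ Int.natAbs a * h := by
      have := Int.natAbs_dvd_natAbs.2 hh.2
      rwa [Int.natAbs_mul, Int.natAbs_natCast, Int.natAbs_natCast] at this
    have h2 : q ∣ Nat.gcd q (Int.natAbs a) * h := (Nat.dvd_gcd_mul_iff_dvd_mul).2 h1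
    have h3 : Nat.gcd q (Int.natAbs a) = g := by
      rw [hg, Int.gcd_eq_natAbs, Int.natAbs_natCast, Nat.gcd_comm]
    rw [h3, hw] at h2
    exact Nat.dvd_of_mul_dvd_mul_left hgpos h2
  have h4 : ((range q).filter (fun h => (q : ℤ) ∣ a * ((h : ℕ) : ℤ))).card ≤ (range g).card := by
    refine Finset.card_le_card_of_injOn (fun h => h / w) ?_ ?_
    · intro h hh
      have h5 := (Finset.mem_filter.1 hh).1
      rw [Finset.mem_range] at h5
      simp only [Finset.coe_range, Set.mem_Iio]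
      rw [Nat.div_lt_iff_lt_mul hw1]
      rw [← hw]; exact h5
    · intro x hx y hy hxy
      have hx1 := hdiv x hx
      have hy1 := hdiv y hy
      simp only at hxy
      rw [← Nat.div_mul_cancel hx1, ← Nat.div_mul_cancel hy1, hxy]
  rwa [Finset.card_range] at h4

lemma gcd_mul_le (a b : ℤ) (q : ℕ) (hq : 1 ≤ q) : Int.gcd (a * b) q ≤ Int.gcd a q * Int.gcd b q := by
  have h1 : Int.gcd (a * b) q ∣ Int.gcd a q * Int.gcd b q := by
    rw [Int.gcd_eq_natAbs, Int.gcd_eq_natAbs, Int.gcd_eq_natAbs, Int.natAbs_mul, Nat.gcd_comm, Nat.gcd_comm a.natAbs,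
      Nat.gcd_comm b.natAbs]
    exact Nat.gcd_mul_right_dvd_mul_gcd _ _ _
  refine Nat.le_of_dvd ?_ h1
  refine Nat.mul_pos ?_ ?_
  · exact Int.gcd_pos_of_ne_zero_right _ (by omega)
  · exact Int.gcd_pos_of_ne_zero_right _ (by omega)

/-- quadratic complete sums. -/
lemma cs_two (q : ℕ) (hq : 1 ≤ q) (f : ℤ[X]) (hf : f.natDegree ≤ 2) :
    ‖cs q f‖ ^ 2 ≤ 2 * (Int.gcd (f.coeff 2) q : ℝ) * q := by
  classical
  have hqR : (0 : ℝ) < q := by exact_mod_cast hq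
  obtain ⟨G, hG⟩ : ∃ G : ℕ → ℤ[X], G = fun (h : ℕ) => C (2 * f.coeff 2 * h) * X + C (f.coeff 2 * h ^ 2 + f.coeff 1 * h) := ⟨_, rfl⟩
  have h1 := cs_diff q hq f G (by
    intro h n
    rw [hG]
    beta_reduce
    rw [Polynomial.eval_eq_sum_range' (Nat.lt_succ_of_le hf), Polynomial.eval_eq_sum_range' (Nat.lt_succ_of_le hf)]
    simp only [Finset.sum_range_succ, Finset.sum_range_zero, Polynomial.eval_add, Polynomial.eval_mul, Polynomial.eval_C,
      Polynomial.eval_X]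
    ring)
  refine h1.trans ?_
  have h2 : ∀ h ∈ range q, ‖cs q (G h)‖ ≤ if (q : ℤ) ∣ (2 * f.coeff 2) * ((h : ℕ) : ℤ) then (q : ℝ) else 0 := by
    intro h _
    split_ifs with hd
    · exact norm_cs_le _ _
    · have h3 : cs q (G h) = ec (((f.coeff 2 * h ^ 2 + f.coeff 1 * h : ℤ) : ℝ) / q) *
          ∑ n ∈ range q, ec ((n : ℝ) * (((2 * f.coeff 2 * h : ℤ) : ℝ) / q)) := by
        unfold cs
        rw [Finset.mul_sum]
        refine Finset.sum_congr rfl fun n _ => ?_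
        rw [← ec_add, hG]
        beta_reduce
        congr 1
        simp only [Polynomial.eval_add, Polynomial.eval_mul, Polynomial.eval_C, Polynomial.eval_X]
        push_cast
        ring
      rw [h3, geom_ndvd q hq _ hd, mul_zero, norm_zero]
  refine (Finset.sum_le_sum h2).trans ?_
  rw [← Finset.sum_filter, Finset.sum_const, nsmul_eq_mul]
  have h3 := card_mul_dvd q hq (2 * f.coeff 2)
  have h4 : Int.gcd (2 * f.coeff 2) q ≤ 2 * Int.gcd (f.coeff 2) q := by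
    refine (gcd_mul_le 2 (f.coeff 2) q hq).trans ?_
    refine Nat.mul_le_mul_right _ ?_
    exact Nat.le_of_dvd (by norm_num) (by
      have : ((Int.gcd 2 q : ℕ) : ℤ) ∣ 2 := Int.gcd_dvd_left _ _
      exact_mod_cast this)
  have h5 : ((((range q).filter (fun h => (q : ℤ) ∣ (2 * f.coeff 2) * ((h : ℕ) : ℤ))).card : ℕ) : ℝ) ≤
      2 * (Int.gcd (f.coeff 2) q : ℝ) := by exact_mod_cast h3.trans h4
  exact mul_le_mul_of_nonneg_right h5 hqR.le

lemma sum_gcd_le (q : ℕ) (hq : 1 ≤ q) : ∑ h ∈ range q, Int.gcd ((h : ℕ) : ℤ) q ≤ q * q.divisors.card := by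
  classical
  have h1 : ∀ h ∈ range q, Int.gcd ((h : ℕ) : ℤ) q ≤ ∑ g ∈ q.divisors, if g ∣ h then g else 0 := by
    intro h _
    have h2 : Int.gcd ((h : ℕ) : ℤ) q = Nat.gcd h q := by simp [Int.gcd_eq_natAbs]
    rw [h2]
    have h3 : Nat.gcd h q ∈ q.divisors := Nat.mem_divisors.2 ⟨Nat.gcd_dvd_right _ _, by omega⟩
    have h4 := Finset.single_le_sum (f := fun g => if g ∣ h then g else 0) (fun g _ => Nat.zero_le _) h3
    simp only [Nat.gcd_dvd_left, if_true] at h4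
    exact h4
  refine (Finset.sum_le_sum h1).trans ?_
  rw [Finset.sum_comm]
  have h5 : ∀ g ∈ q.divisors, ∑ h ∈ range q, (if g ∣ h then g else 0) ≤ q := by
    intro g hg
    obtain ⟨w, hw⟩ := (Nat.mem_divisors.1 hg).1
    have hgpos : 0 < g := Nat.pos_of_mem_divisors hg
    rw [← Finset.sum_filter, Finset.sum_const, smul_eq_mul]
    have h6 : ((range q).filter (fun h => g ∣ h)).card ≤ w := by
      rw [show w = (range w).card by simp]
      refine Finset.card_le_card_of_injOn (fun h => h / g) ?_ ?_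
      · intro h hh
        have h5 := (Finset.mem_filter.1 hh).1
        rw [Finset.mem_range] at h5
        simp only [Finset.coe_range, Set.mem_Iio]
        rw [Nat.div_lt_iff_lt_mul hgpos, mul_comm]
        rw [← hw]; exact h5
      · intro x hx y hy hxy
        have hx1 := (Finset.mem_filter.1 hx).2
        have hy1 := (Finset.mem_filter.1 hy).2
        simp only at hxy
        rw [← Nat.div_mul_cancel hx1, ← Nat.div_mul_cancel hy1, hxy]
    calc _ ≤ w * g := Nat.mul_le_mul_right _ h6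
      _ = q := by rw [hw]; ring
  refine (Finset.sum_le_sum h5).trans ?_
  rw [Finset.sum_const, smul_eq_mul, mul_comm]

/-- cubic complete sums. -/
lemma cs_three (q : ℕ) (hq : 1 ≤ q) (f : ℤ[X]) (hf : f.natDegree ≤ 3) :
    ‖cs q f‖ ^ 4 ≤ 6 * (Int.gcd (f.coeff 3) q : ℝ) * (q : ℝ) ^ 3 * q.divisors.card := by
  classical
  have hqR : (0 : ℝ) < q := by exact_mod_cast hq
  obtain ⟨G, hG⟩ : ∃ G : ℕ → ℤ[X], G = fun (h : ℕ) => C (3 * f.coeff 3 * h) * X ^ 2 +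
    C (3 * f.coeff 3 * h ^ 2 + 2 * f.coeff 2 * h) * X + C (f.coeff 3 * h ^ 3 + f.coeff 2 * h ^ 2 + f.coeff 1 * h) := ⟨_, rfl⟩
  have h1 := cs_diff q hq f G (by
    intro h n
    rw [hG]
    beta_reduce
    rw [Polynomial.eval_eq_sum_range' (Nat.lt_succ_of_le hf), Polynomial.eval_eq_sum_range' (Nat.lt_succ_of_le hf)]
    simp only [Finset.sum_range_succ, Finset.sum_range_zero, Polynomial.eval_add, Polynomial.eval_mul, Polynomial.eval_C,
      Polynomial.eval_X, Polynomial.eval_pow]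
    ring)
  have h2 : ∀ h ∈ range q, ‖cs q (G h)‖ ^ 2 ≤ 6 * (Int.gcd (f.coeff 3) q : ℝ) * q * (Int.gcd ((h : ℕ) : ℤ) q : ℝ) := by
    intro h _
    have h3 := cs_two q hq (G h) (by
      rw [hG]
      exact Polynomial.natDegree_quadratic_le)
    have h4 : (G h).coeff 2 = 3 * (f.coeff 3 * h) := by
      rw [hG]
      beta_reduce
      rw [Polynomial.coeff_add, Polynomial.coeff_add, Polynomial.coeff_C_mul, Polynomial.coeff_C_mul,
        Polynomial.coeff_X_pow, Polynomial.coeff_X, Polynomial.coeff_C, if_pos rfl, if_neg (by norm_num), if_neg (by norm_num)]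
      ring
    rw [h4] at h3
    have h5 : Int.gcd (3 * (f.coeff 3 * h)) q ≤ 3 * (Int.gcd (f.coeff 3) q * Int.gcd ((h : ℕ) : ℤ) q) := by
      refine (gcd_mul_le 3 (f.coeff 3 * h) q hq).trans ?_
      refine Nat.mul_le_mul ?_ (gcd_mul_le _ _ q hq)
      exact Nat.le_of_dvd (by norm_num) (by
        have : ((Int.gcd 3 q : ℕ) : ℤ) ∣ 3 := Int.gcd_dvd_left _ _
        exact_mod_cast this)
    have h6 : (Int.gcd (3 * (f.coeff 3 * h)) q : ℝ) ≤ 3 * ((Int.gcd (f.coeff 3) q : ℝ) * (Int.gcd ((h : ℕ) : ℤ) q : ℝ)) := by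
      exact_mod_cast h5
    calc ‖cs q (G h)‖ ^ 2 ≤ 2 * (Int.gcd (3 * (f.coeff 3 * h)) q : ℝ) * q := h3
      _ ≤ 2 * (3 * ((Int.gcd (f.coeff 3) q : ℝ) * (Int.gcd ((h : ℕ) : ℤ) q : ℝ))) * q := by gcongr
      _ = _ := by ring
  have h7 : (∑ h ∈ range q, ‖cs q (G h)‖) ^ 2 ≤ q * ∑ h ∈ range q, ‖cs q (G h)‖ ^ 2 := by
    have := sq_sum_le_card_mul_sum_sq (s := range q) (f := fun h => ‖cs q (G h)‖)
    rw [Finset.card_range] at this
    exact this
  have h8 : ∑ h ∈ range q, ‖cs q (G h)‖ ^ 2 ≤ 6 * (Int.gcd (f.coeff 3) q : ℝ) * q * (q * q.divisors.card) := by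
    refine (Finset.sum_le_sum h2).trans ?_
    rw [← Finset.mul_sum]
    refine mul_le_mul_of_nonneg_left ?_ (by positivity)
    exact_mod_cast sum_gcd_le q hq
  calc ‖cs q f‖ ^ 4 = (‖cs q f‖ ^ 2) ^ 2 := by ring
    _ ≤ (∑ h ∈ range q, ‖cs q (G h)‖) ^ 2 := pow_le_pow_left₀ (by positivity) h1 2
    _ ≤ q * ∑ h ∈ range q, ‖cs q (G h)‖ ^ 2 := h7
    _ ≤ q * (6 * (Int.gcd (f.coeff 3) q : ℝ) * q * (q * q.divisors.card)) := mul_le_mul_of_nonneg_left h8 hqR.le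
    _ = _ := by ring

/-- bounds for complete sums with exponent `ν`. -/
def CSB (D ν : ℕ) : Prop := ∀ ε : ℝ, 0 < ε → ∃ K : ℝ, 1 ≤ K ∧ ∀ q : ℕ, 1 ≤ q → ∀ f : ℤ[X], f.natDegree ≤ D →
    (‖cs q f‖ / q) ^ ν * (q : ℝ) ^ (1 - ε) ≤ (Int.gcd (f.coeff D) q : ℝ) * K

lemma CSB_two : CSB 2 2 := by
  intro ε hε
  refine ⟨2, by norm_num, ?_⟩
  intro q hq f hf
  have hqR : (1 : ℝ) ≤ q := by exact_mod_cast hq
  have hq0 : (0 : ℝ) < q := by linarith
  have h1 := cs_two q hq f hf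
  have h2 : (q : ℝ) ^ (1 - ε) ≤ q := by
    calc (q : ℝ) ^ (1 - ε) ≤ (q : ℝ) ^ (1 : ℝ) := Real.rpow_le_rpow_of_exponent_le hqR (by linarith)
      _ = q := Real.rpow_one _
  calc (‖cs q f‖ / q) ^ 2 * (q : ℝ) ^ (1 - ε) ≤ (‖cs q f‖ / q) ^ 2 * q := mul_le_mul_of_nonneg_left h2 (by positivity)
    _ = ‖cs q f‖ ^ 2 / q := by field_simp
    _ ≤ (2 * (Int.gcd (f.coeff 2) q : ℝ) * q) / q := div_le_div_of_nonneg_right h1 hq0.le
    _ = _ := by field_simp

lemma CSB_three : CSB 3 4 := by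
  intro ε hε
  obtain ⟨Kd, hKd1, hKd⟩ := card_div_le ε hε
  refine ⟨6 * Kd, by linarith, ?_⟩
  intro q hq f hf
  have hqR : (1 : ℝ) ≤ q := by exact_mod_cast hq
  have hq0 : (0 : ℝ) < q := by linarith
  have h1 := cs_three q hq f hf
  have h2 : (q : ℝ) ^ (1 - ε) * (q : ℝ) ^ ε = q := by
    rw [← Real.rpow_add hq0]; simp
  have hd := hKd q hq
  calc (‖cs q f‖ / q) ^ 4 * (q : ℝ) ^ (1 - ε) = ‖cs q f‖ ^ 4 * ((q : ℝ) ^ (1 - ε) / (q : ℝ) ^ 4) := by
        rw [div_pow]; ring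
    _ ≤ (6 * (Int.gcd (f.coeff 3) q : ℝ) * (q : ℝ) ^ 3 * (Kd * (q : ℝ) ^ ε)) * ((q : ℝ) ^ (1 - ε) / (q : ℝ) ^ 4) := by
        refine mul_le_mul_of_nonneg_right (h1.trans ?_) (by positivity)
        gcongr
    _ = (6 * (Int.gcd (f.coeff 3) q : ℝ) * (q : ℝ) ^ 3 * Kd) * ((q : ℝ) ^ (1 - ε) * (q : ℝ) ^ ε) / (q : ℝ) ^ 4 := by ring
    _ = _ := by rw [h2]; field_simp

lemma CSB_gen (D : ℕ) (hD : 1 ≤ D) : CSB D (2 * D - 1) := by
  intro ε hε
  obtain ⟨K, hK1, hK⟩ := cs_bound D hD ε hε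
  exact ⟨K, hK1, fun q hq f hf => hK D hD q hq f hf⟩

/-- the exponent used for complete sums of degree `κ`. -/
def nu (κ : ℕ) : ℕ := if κ = 2 then 2 else if κ = 3 then 4 else 2 * κ - 1

lemma CSB_nu (κ : ℕ) (hκ : 2 ≤ κ) : CSB κ (nu κ) := by
  unfold nu
  split_ifs with h1 h2
  · rw [h1]; exact CSB_two
  · rw [h2]; exact CSB_three
  · exact CSB_gen κ (by omega)

lemma le_nu (κ : ℕ) (hκ : 2 ≤ κ) : κ ≤ nu κ := by
  unfold nu
  split_ifs <;> omega

end Pool.Agent.helper132_p
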