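import Pool.Agent.helper132_p.P9

/-! The structure hypothesis with exponent `κ`. -/

namespace Pool.Agent.helper132_p

open Finset Pool.Agent.helper132_sph Pool.Agent.helper132_poly Pool.Agent.helper132_quad Pool.Agent.helper132_h

lemma Vg_power' (κ m n X : ℕ) (hX : 1 ≤ X) (α Q : ℝ) :
    Vg κ m X α Q ^ (n + 1) ≤ 2 ^ (n + 1) * Vg κ (m * (n + 1)) X α Q := by
  classical
  have hX0 : (0 : ℝ) < X := by exact_mod_cast hX
  obtain ⟨f, hf⟩ : ∃ f : ℤ → ℝ, f = fun (h : ℤ) => if Pool.Agent.helper132_poly.Minor κ X (h * α) Q then dl (κ + 1) X α h ^ m else 0 := ⟨_, rfl⟩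
  have hf0 : ∀ h, 0 ≤ f h := by
    intro h
    rw [hf]; beta_reduce
    split_ifs
    · exact pow_nonneg (dl_nonneg _ _ _ _) _
    · exact le_rfl
  have h1 := Pool.Agent.helper132_ec.pow_sum_le (Ioo (-(X : ℤ)) X) f hf0 n
  have hcard : ((Ioo (-(X : ℤ)) X).card : ℝ) ≤ 2 * X := by
    rw [Int.card_Ioo]
    have : ((X : ℤ) - -(X : ℤ) - 1).toNat ≤ 2 * X := by omega
    exact_mod_cast this
  have h2 : Vg κ m X α Q = (∑ h ∈ Ioo (-(X : ℤ)) X, f h) / X := by unfold Vg; rw [hf]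
  have h3 : Vg κ (m * (n + 1)) X α Q = (∑ h ∈ Ioo (-(X : ℤ)) X, f h ^ (n + 1)) / X := by
    unfold Vg; rw [hf]
    congr 1
    refine Finset.sum_congr rfl fun h _ => ?_
    beta_reduce
    split_ifs
    · rw [pow_mul]
    · rw [zero_pow (by omega)]
  rw [h2, h3, div_pow, ← mul_div_assoc, div_le_div_iff₀ (by positivity) hX0]
  have h4 : 0 ≤ ∑ h ∈ Ioo (-(X : ℤ)) X, f h ^ (n + 1) := Finset.sum_nonneg fun h _ => pow_nonneg (hf0 h) _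
  have h5 : ((Ioo (-(X : ℤ)) X).card : ℝ) ^ n ≤ (2 * X) ^ n := pow_le_pow_left₀ (Nat.cast_nonneg _) hcard _
  calc (∑ h ∈ Ioo (-(X : ℤ)) X, f h) ^ (n + 1) * X
      ≤ (((Ioo (-(X : ℤ)) X).card : ℝ) ^ n * ∑ h ∈ Ioo (-(X : ℤ)) X, f h ^ (n + 1)) * X :=
        mul_le_mul_of_nonneg_right h1 hX0.le
    _ ≤ ((2 * X) ^ n * ∑ h ∈ Ioo (-(X : ℤ)) X, f h ^ (n + 1)) * X := by gcongr
    _ = (1 / 2) * (2 ^ (n + 1) * (∑ h ∈ Ioo (-(X : ℤ)) X, f h ^ (n + 1)) * (X : ℝ) ^ (n + 1)) := by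
        rw [mul_pow, pow_succ, pow_succ]; ring
    _ ≤ 1 * (2 ^ (n + 1) * (∑ h ∈ Ioo (-(X : ℤ)) X, f h ^ (n + 1)) * (X : ℝ) ^ (n + 1)) :=
        mul_le_mul_of_nonneg_right (by norm_num) (by positivity)
    _ = _ := one_mul _

lemma Vg_zero (κ m X : ℕ) (α Q : ℝ) (h : ¬ Pool.Agent.helper132_poly.Minor (κ + 1) X α Q) : Vg κ m X α Q = 0 := by
  classical
  unfold Pool.Agent.helper132_poly.Minor at h
  push Not at h
  obtain ⟨q, c, hq, hqQ, hc⟩ := h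
  unfold Vg
  have h1 : ∀ z ∈ Ioo (-(X : ℤ)) X, (if Pool.Agent.helper132_poly.Minor κ X (z * α) Q then dl (κ + 1) X α z ^ m else 0) = 0 := by
    intro z hz
    rw [if_neg]
    intro hm
    have h2 := hm q (z * c) hq hqQ
    have h3 : |(q : ℝ) * (z * α) - ((z * c : ℤ) : ℝ)| * (X : ℝ) ^ κ ≤ Q := by
      have e : (q : ℝ) * (z * α) - ((z * c : ℤ) : ℝ) = z * (q * α - c) := by push_cast; ring
      rw [e, abs_mul]
      rw [Finset.mem_Ioo] at hz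
      have hzX : |(z : ℝ)| ≤ X := by
        have : |z| ≤ X := by rw [abs_le]; constructor <;> linarith [hz.1, hz.2]
        exact_mod_cast this
      calc |(z : ℝ)| * |q * α - c| * (X : ℝ) ^ κ ≤ X * |q * α - c| * (X : ℝ) ^ κ := by gcongr
        _ = |q * α - c| * (X : ℝ) ^ (κ + 1) := by rw [pow_succ]; ring
        _ ≤ Q := hc
    linarith
  rw [Finset.sum_congr rfl h1, Finset.sum_const_zero, zero_div]

/-- the good part, at least quartic case. -/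
lemma good_big (κ s : ℕ) (hκ : 3 ≤ κ) (hs : 1 ≤ s) (hs2 : 2 * s = κ * (κ + 1)) (CJ : ℝ) (hCJ : 1 ≤ CJ)
    (hJ : MVT κ s (1 / 24) CJ) : ∃ C : ℝ, 1 ≤ C ∧ ∀ (X : ℕ) (α R : ℝ), 1 ≤ X → 1 ≤ R → R ^ 10 ≤ (X : ℝ) ^ 5 →
      Vg κ κ X α ((X : ℝ) ^ c2 (κ + 1)) ^ (2 * (κ + 1)) * R ^ 5 ≤ C := by
  obtain ⟨C1, hC1, hpt⟩ := Vg_pt κ s (by omega) hs (1 / 24) CJ (by norm_num) (by norm_num) hCJ hJ
  refine ⟨4 ^ (κ + 1) * C1 ^ 2, one_le_mul_of_one_le_of_one_le (one_le_pow₀ (by norm_num)) (one_le_pow₀ hC1), ?_⟩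
  intro X α R hX hR1 hRX
  have hXR : (1 : ℝ) ≤ X := by exact_mod_cast hX
  have hX0 : (0 : ℝ) < X := by linarith
  have hR0 : 0 < R := by linarith
  have hc : c2 (κ + 1) = 2 / 3 := by unfold c2; rw [if_neg (by omega)]
  rw [hc]
  obtain ⟨Q, hQ⟩ : ∃ Q : ℝ, Q = (X : ℝ) ^ ((2 : ℝ) / 3) := ⟨_, rfl⟩
  rw [← hQ]
  have hQ1 : 1 ≤ Q := by rw [hQ]; exact Real.one_le_rpow hXR (by norm_num)
  have hQ0 : 0 < Q := by linarith
  have hQX : Q ≤ X := by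
    rw [hQ]
    calc (X : ℝ) ^ ((2 : ℝ) / 3) ≤ (X : ℝ) ^ (1 : ℝ) := Real.rpow_le_rpow_of_exponent_le hXR (by norm_num)
      _ = X := Real.rpow_one _
  by_cases hm : Pool.Agent.helper132_poly.Minor (κ + 1) X α Q
  · have h1 := hpt X hX α Q Q hQ1 hQX hQ1 hQX hm
    have h2 := Vg_power' κ κ κ X hX α Q
    rw [← hs2] at h2
    have hG0 := Vg_nonneg κ κ X α Q
    have hV0 := Vg_nonneg κ (2 * s) X α Q
    obtain ⟨G, hG⟩ : ∃ G, G = Vg κ κ X α Q := ⟨_, rfl⟩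
    obtain ⟨V, hV⟩ : ∃ V, V = Vg κ (2 * s) X α Q := ⟨_, rfl⟩
    rw [← hG] at h2 hG0 ⊢
    rw [← hV] at h1 h2 hV0
    have h3 : G ^ (2 * (κ + 1)) ≤ 4 ^ (κ + 1) * V ^ 2 := by
      calc G ^ (2 * (κ + 1)) = (G ^ (κ + 1)) ^ 2 := by rw [← pow_mul, mul_comm]
        _ ≤ (2 ^ (κ + 1) * V) ^ 2 := pow_le_pow_left₀ (by positivity) h2 2
        _ = 4 ^ (κ + 1) * V ^ 2 := by
            rw [mul_pow, ← pow_mul, mul_comm (κ + 1) 2, pow_mul]; norm_num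
    have h4 : (V * (Q * Q)) ^ 2 ≤ (C1 * (X : ℝ) ^ (2 * ((1 : ℝ) / 24))) ^ 2 := pow_le_pow_left₀ (by positivity) h1 2
    have h5 : R ^ 5 ≤ (X : ℝ) ^ ((5 : ℝ) / 2) := by
      have h6 : (R ^ 5) ^ 2 ≤ ((X : ℝ) ^ ((5 : ℝ) / 2)) ^ 2 := by
        rw [← pow_mul, ← Real.rpow_natCast ((X : ℝ) ^ ((5 : ℝ) / 2)) 2, ← Real.rpow_mul hX0.le]
        have e : (5 : ℝ) / 2 * ((2 : ℕ) : ℝ) = ((5 : ℕ) : ℝ) := by norm_num
        rw [e, Real.rpow_natCast]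
        exact hRX
      exact le_of_pow_le_pow_left₀ (by norm_num) (by positivity) h6
    have h6 : V ^ 2 * R ^ 5 ≤ C1 ^ 2 := by
      have hQ4 : (Q * Q) ^ 2 = (X : ℝ) ^ ((8 : ℝ) / 3) := by
        rw [hQ, ← Real.rpow_add hX0, ← Real.rpow_natCast _ 2, ← Real.rpow_mul hX0.le]
        norm_num
      have hXX : ((X : ℝ) ^ (2 * ((1 : ℝ) / 24))) ^ 2 = (X : ℝ) ^ ((1 : ℝ) / 6) := by
        rw [← Real.rpow_natCast _ 2, ← Real.rpow_mul hX0.le]; norm_num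
      rw [mul_pow, mul_pow C1, hQ4, hXX] at h4
      have h7 : V ^ 2 * R ^ 5 * (X : ℝ) ^ ((8 : ℝ) / 3) ≤ C1 ^ 2 * (X : ℝ) ^ ((8 : ℝ) / 3) := by
        calc V ^ 2 * R ^ 5 * (X : ℝ) ^ ((8 : ℝ) / 3) = (V ^ 2 * (X : ℝ) ^ ((8 : ℝ) / 3)) * R ^ 5 := by ring
          _ ≤ (C1 ^ 2 * (X : ℝ) ^ ((1 : ℝ) / 6)) * (X : ℝ) ^ ((5 : ℝ) / 2) := mul_le_mul h4 h5 (by positivity) (by positivity)
          _ = C1 ^ 2 * (X : ℝ) ^ ((8 : ℝ) / 3) := by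
              rw [mul_assoc, ← Real.rpow_add hX0]; norm_num
      exact le_of_mul_le_mul_right h7 (by positivity)
    calc G ^ (2 * (κ + 1)) * R ^ 5 ≤ (4 ^ (κ + 1) * V ^ 2) * R ^ 5 := mul_le_mul_of_nonneg_right h3 (by positivity)
      _ = 4 ^ (κ + 1) * (V ^ 2 * R ^ 5) := by ring
      _ ≤ _ := mul_le_mul_of_nonneg_left h6 (by positivity)
  · rw [Vg_zero κ κ X α Q hm, zero_pow (by omega), zero_mul]
    positivity

/-- the good part, cubic case. -/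
lemma good_three : ∃ C : ℝ, 1 ≤ C ∧ ∀ (X : ℕ) (α R : ℝ), 1 ≤ X → 1 ≤ R → R ^ 10 ≤ (X : ℝ) ^ 5 →
      Pool.Agent.helper132_poly.Minor 3 X α R →
      Vg 2 2 X α ((X : ℝ) ^ c2 3) ^ 6 * R ^ 5 ≤ C := by
  obtain ⟨C1, hC1, hw⟩ := weyl_three (2 / 81) (by norm_num)
  refine ⟨C1 ^ 6, one_le_pow₀ hC1, ?_⟩
  intro X α R hX hR1 hRX hmin
  have hXR : (1 : ℝ) ≤ X := by exact_mod_cast hX
  have hX0 : (0 : ℝ) < X := by linarith
  have hR0 : 0 < R := by linarith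
  have hR2X : R ^ 2 ≤ X := by
    refine le_of_pow_le_pow_left₀ (n := 5) (by norm_num) hX0.le ?_
    rw [← pow_mul]; exact hRX
  have hRleX : R ≤ X := (le_self_pow₀ hR1 (by norm_num)).trans hR2X
  have hc : c2 3 = 4 / 9 := by unfold c2; rw [if_pos rfl]
  rw [hc]
  obtain ⟨Q, hQ⟩ : ∃ Q : ℝ, Q = (X : ℝ) ^ ((4 : ℝ) / 9) := ⟨_, rfl⟩
  rw [← hQ]
  have hQ1 : 1 ≤ Q := by rw [hQ]; exact Real.one_le_rpow hXR (by norm_num)
  have hQX : Q ≤ X := by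
    rw [hQ]
    calc (X : ℝ) ^ ((4 : ℝ) / 9) ≤ (X : ℝ) ^ (1 : ℝ) := Real.rpow_le_rpow_of_exponent_le hXR (by norm_num)
      _ = X := Real.rpow_one _
  by_cases hm : Pool.Agent.helper132_poly.Minor 3 X α Q
  · obtain ⟨T, hT⟩ : ∃ T : ℝ, T = max R Q := ⟨_, rfl⟩
    have hTm : Pool.Agent.helper132_poly.Minor 3 X α T := by
      rw [hT]
      rcases max_choice R Q with h | h
      · rw [h]; exact hmin
      · rw [h]; exact hm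
    have hTR : R ≤ T := by rw [hT]; exact le_max_left _ _
    have hTQ : Q ≤ T := by rw [hT]; exact le_max_right _ _
    have hT1 : 1 ≤ T := hR1.trans hTR
    have hT0 : 0 < T := by linarith
    have hTX : T ≤ X := by rw [hT]; exact max_le hRleX hQX
    have h1 := hw X hX α T hT1 hTX hTm
    have h2 := Dl_split 2 2 X α Q
    have h3 := Vb_nonneg 2 2 X α Q
    have hG0 := Vg_nonneg 2 2 X α Q
    have h4 : Vg 2 2 X α Q ≤ C1 * ((X : ℝ) ^ (3 * ((2 : ℝ) / 81)) / T) := by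
      have e : Dl 3 2 X α = Dl (2 + 1) 2 X α := rfl
      rw [e] at h1
      linarith
    calc Vg 2 2 X α Q ^ 6 * R ^ 5 ≤ (C1 * ((X : ℝ) ^ (3 * ((2 : ℝ) / 81)) / T)) ^ 6 * T ^ 5 := by
          refine mul_le_mul (pow_le_pow_left₀ hG0 h4 6) (pow_le_pow_left₀ hR0.le hTR 5) (by positivity) (by positivity)
      _ = C1 ^ 6 * (((X : ℝ) ^ (3 * ((2 : ℝ) / 81))) ^ 6 / T) := by
          rw [mul_pow, div_pow]; field_simp
      _ = C1 ^ 6 * (Q / T) := by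
          congr 2
          rw [hQ, ← Real.rpow_natCast _ 6, ← Real.rpow_mul hX0.le]; norm_num
      _ ≤ C1 ^ 6 * 1 := by
          refine mul_le_mul_of_nonneg_left ?_ (by positivity)
          rw [div_le_one hT0]; exact hTQ
      _ = _ := mul_one _
  · rw [Vg_zero 2 2 X α Q hm, zero_pow (by norm_num), zero_mul]
    positivity

/-- the good part. -/
lemma good_part (κ s : ℕ) (hκ : 2 ≤ κ) (hs : 1 ≤ s) (hs2 : 2 * s = κ * (κ + 1)) (CJ : ℝ) (hCJ : 1 ≤ CJ)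
    (hJ : MVT κ s (1 / 24) CJ) : ∃ C : ℝ, 1 ≤ C ∧ ∀ (X : ℕ) (α R : ℝ), 1 ≤ X → 1 ≤ R → R ^ 10 ≤ (X : ℝ) ^ 5 →
      Pool.Agent.helper132_poly.Minor (κ + 1) X α R →
      Vg κ κ X α ((X : ℝ) ^ c2 (κ + 1)) ^ (2 * (κ + 1)) * R ^ 5 ≤ C := by
  rcases Nat.eq_or_lt_of_le hκ with h | h
  · obtain ⟨C, hC, hg⟩ := good_three
    refine ⟨C, hC, ?_⟩
    intro X α R h1 h2 h3 h4
    rw [← h] at h4 ⊢
    exact hg X α R h1 h2 h3 h4
  · obtain ⟨C, hC, hg⟩ := good_big κ s h hs hs2 CJ hCJ hJ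
    exact ⟨C, hC, fun X α R h1 h2 h3 _ => hg X α R h1 h2 h3⟩

/-- the structure hypothesis with exponent `κ`. -/
theorem Hs_p (κ s : ℕ) (hκ : 2 ≤ κ) (hs : 1 ≤ s) (hs2 : 2 * s = κ * (κ + 1)) (CJ : ℝ) (hCJ : 1 ≤ CJ)
    (hJ : MVT κ s (1 / 24) CJ) : ∃ C : ℝ, 1 ≤ C ∧ Hs (κ + 1) κ 5 C := by
  obtain ⟨k, hk⟩ : ∃ k : ℕ, k = κ + 1 := ⟨_, rfl⟩
  have hk3 : 3 ≤ k := by omega
  have hkR : (3 : ℝ) ≤ k := by exact_mod_cast hk3
  obtain ⟨C1, hC1, hgood⟩ := good_part κ s hκ hs hs2 CJ hCJ hJ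
  obtain ⟨C2, hC2, hVb⟩ := Vb_bound_nu κ κ hκ le_rfl
  rw [← hk] at hVb hgood ⊢
  refine ⟨2 ^ (2 * k) * (C1 + (2 * C2) ^ (2 * k)), ?_, ?_⟩
  · have h1 : (1 : ℝ) ≤ 2 ^ (2 * k) := one_le_pow₀ (by norm_num)
    have h4 : 0 ≤ (2 * C2) ^ (2 * k) := by positivity
    exact one_le_mul_of_one_le_of_one_le h1 (by linarith)
  intro X α R hX hR1 hRX hmin
  have hXR : (1 : ℝ) ≤ X := by exact_mod_cast hX
  have hX0 : (0 : ℝ) < X := by linarith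
  have hR0 : 0 < R := by linarith
  have hR2X : R ^ 2 ≤ X := by
    refine le_of_pow_le_pow_left₀ (n := 5) (by norm_num) hX0.le ?_
    rw [← pow_mul]; exact hRX
  obtain ⟨Q, hQ⟩ : ∃ Q : ℝ, Q = (X : ℝ) ^ (c2 k) := ⟨_, rfl⟩
  have hb := hVb X hX α R hR1 hmin
  have hGfin := hgood X α R hX hR1 hRX hmin
  rw [← hQ] at hb hGfin
  obtain ⟨G, hG⟩ : ∃ G, G = Vg κ κ X α Q := ⟨_, rfl⟩
  obtain ⟨B, hB⟩ : ∃ B, B = Vb κ κ X α Q := ⟨_, rfl⟩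
  have hG0 : 0 ≤ G := by rw [hG]; exact Vg_nonneg _ _ _ _ _
  have hB0 : 0 ≤ B := by rw [hB]; exact Vb_nonneg _ _ _ _ _
  rw [← hB] at hb
  rw [← hG] at hGfin
  have hD := Dl_split κ κ X α Q
  rw [← hG, ← hB, ← hk] at hD
  rw [hD]
  -- bad part
  have hBfin : B ^ (2 * k) * R ^ 5 ≤ (2 * C2) ^ (2 * k) := by
    have h1 : 1 / (X : ℝ) ≤ R ^ (-(5 / (2 * (k : ℝ)))) := by
      calc 1 / (X : ℝ) ≤ 1 / R ^ 2 := one_div_le_one_div_of_le (by positivity) hR2X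
        _ = R ^ (-2 : ℝ) := by
            rw [Real.rpow_neg hR0.le, one_div]
            congr 1
            exact_mod_cast (Real.rpow_natCast R 2).symm
        _ ≤ R ^ (-(5 / (2 * (k : ℝ)))) := by
            refine Real.rpow_le_rpow_of_exponent_le hR1 ?_
            rw [neg_le_neg_iff, div_le_iff₀ (by positivity)]
            linarith
    have h2 : B ≤ (2 * C2) * R ^ (-(5 / (2 * (k : ℝ)))) := by
      refine hb.trans ?_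
      have h3 : C2 * (R ^ (-(5 / (2 * (k : ℝ)))) + 1 / X) ≤ C2 * (R ^ (-(5 / (2 * (k : ℝ)))) + R ^ (-(5 / (2 * (k : ℝ))))) :=
        mul_le_mul_of_nonneg_left (by linarith) (by linarith)
      linarith
    have h3 : (R ^ (-(5 / (2 * (k : ℝ))))) ^ (2 * k) * R ^ 5 = 1 := by
      rw [← Real.rpow_natCast (R ^ (-(5 / (2 * (k : ℝ))))) (2 * k), ← Real.rpow_mul hR0.le]
      have e1 : -(5 / (2 * (k : ℝ))) * ((2 * k : ℕ) : ℝ) = -5 := by push_cast; field_simp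
      have e2 : R ^ (5 : ℝ) = R ^ 5 := by exact_mod_cast Real.rpow_natCast R 5
      rw [e1, Real.rpow_neg hR0.le, e2]
      field_simp
    calc B ^ (2 * k) * R ^ 5 ≤ ((2 * C2) * R ^ (-(5 / (2 * (k : ℝ))))) ^ (2 * k) * R ^ 5 :=
          mul_le_mul_of_nonneg_right (pow_le_pow_left₀ hB0 h2 _) (by positivity)
      _ = (2 * C2) ^ (2 * k) * ((R ^ (-(5 / (2 * (k : ℝ))))) ^ (2 * k) * R ^ 5) := by rw [mul_pow]; ring
      _ = _ := by rw [h3, mul_one]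
  calc (G + B) ^ (2 * k) * R ^ 5 ≤ (2 ^ (2 * k) * (G ^ (2 * k) + B ^ (2 * k))) * R ^ 5 :=
        mul_le_mul_of_nonneg_right (add_pow_le_two G B hG0 hB0 _) (by positivity)
    _ = 2 ^ (2 * k) * (G ^ (2 * k) * R ^ 5 + B ^ (2 * k) * R ^ 5) := by ring
    _ ≤ _ := mul_le_mul_of_nonneg_left (add_le_add hGfin hBfin) (by positivity)

end Pool.Agent.helper132_p
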