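import Pool.Agent.helper132_p.P10
import Pool.Agent.helper132_h.H20

/-! Real exponent versions of the single scale bounds. -/

namespace Pool.Agent.helper132_p

open Finset Pool.Agent.helper132_sph Pool.Agent.helper132_poly Pool.Agent.helper132_quad Pool.Agent.helper132_h

/-- Hoelder's inequality for one row. -/
lemma row_bound_t {d : ℕ} (k X : ℕ) (t : ℝ) (ht0 : 0 < t) (r : ℝ) (hX : 1 ≤ X) (α : ℝ) (E : Finset (Fin d → ℤ))
    (e : Fin d → ℤ) (Bd : ℝ)
    (hB : (((E.filter (fun e' => ∀ j, |e j - e' j| < X)).card : ℕ) : ℝ) ≤ Bd)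
    (hr1 : 0 < r) (hr : r < d) (hm : t * r ≤ d) :
    ∑ e' ∈ E, ∏ j, dl k X α (e j - e' j) ≤
      Bd ^ (1 - r / d) * (X * Dr k X α t) ^ r := by
  classical
  have hXR : (0 : ℝ) < X := by exact_mod_cast hX
  have hdR : (0 : ℝ) < d := by linarith
  have hrR : (0 : ℝ) < r := hr1
  have hrd : (r : ℝ) < d := hr
  set s : ℝ := r / d with hs
  have hs0 : 0 < s := by positivity
  have hs1 : s < 1 := by rw [hs, div_lt_one hdR]; exact hrd
  set Nn := E.filter (fun e' => ∀ j, |e j - e' j| < X) with hNn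
  set F : (Fin d → ℤ) → ℝ := fun e' => ∏ j, dl k X α (e j - e' j) with hF
  have hF0 : ∀ e', 0 ≤ F e' := fun e' => Finset.prod_nonneg fun j _ => dl_nonneg _ _ _ _
  have hF1 : ∀ e', F e' ≤ 1 := fun e' =>
    Finset.prod_le_one (fun j _ => dl_nonneg _ _ _ _) fun j _ => dl_le_one _ _ _ _ hX
  have h1 : ∑ e' ∈ E, F e' = ∑ e' ∈ Nn, F e' := by
    symm
    refine Finset.sum_subset (Finset.filter_subset _ _) ?_
    intro e' he' hne
    rw [hNn, Finset.mem_filter] at hne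
    have : ¬ ∀ j, |e j - e' j| < X := fun h => hne ⟨he', h⟩
    push Not at this
    obtain ⟨j, hj⟩ := this
    exact Finset.prod_eq_zero (Finset.mem_univ j) (dl_eq_zero _ _ _ _ (not_lt.2 hj))
  rw [h1]
  have hconj : (1 / (1 - s)).HolderConjugate (1 / s) := by
    rw [Real.holderConjugate_iff]
    constructor
    · rw [lt_div_iff₀ (by linarith)]; linarith
    · rw [one_div, one_div, inv_inv, inv_inv]; ring
  have h2 := Real.inner_le_Lp_mul_Lq_of_nonneg Nn hconj (f := fun _ => (1 : ℝ)) (g := F)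
    (fun _ _ => zero_le_one) (fun i _ => hF0 i)
  simp only [one_mul, Real.one_rpow, Finset.sum_const, nsmul_eq_mul, mul_one, one_div_one_div] at h2
  refine h2.trans ?_
  have hcard0 : (0 : ℝ) ≤ (Nn.card : ℝ) := Nat.cast_nonneg _
  have hBd0 : 0 ≤ Bd := hcard0.trans hB
  refine mul_le_mul (Real.rpow_le_rpow hcard0 hB (by linarith)) ?_
    (Real.rpow_nonneg (Finset.sum_nonneg fun e' _ => Real.rpow_nonneg (hF0 e') _) _)
    (Real.rpow_nonneg hBd0 _)
  -- the sum of powers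
  have h3 : ∑ e' ∈ Nn, F e' ^ (1 / s) ≤ (X * Dr k X α t) ^ d := by
    have hm' : t ≤ 1 / s := by
      rw [hs, one_div_div, le_div_iff₀ hrR]
      exact hm
    calc ∑ e' ∈ Nn, F e' ^ (1 / s) ≤ ∑ e' ∈ Nn, F e' ^ t := by
          refine Finset.sum_le_sum fun e' _ => ?_
          rcases (hF0 e').eq_or_lt with h | h
          · rw [← h, Real.zero_rpow (by positivity), Real.zero_rpow (by positivity)]
          · exact Real.rpow_le_rpow_of_exponent_ge h (hF1 e') hm'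
      _ ≤ ∑ h ∈ Fintype.piFinset (fun _ : Fin d => Ioo (-(X : ℤ)) X), ∏ j, dl k X α (h j) ^ t := by
          have e1 : ∀ e' ∈ Nn, F e' ^ t = (fun h : Fin d → ℤ => ∏ j, dl k X α (h j) ^ t)
              ((fun e' : Fin d → ℤ => (fun j => e j - e' j)) e') := by
            intro e' _
            simp only [hF]
            rw [← Real.finset_prod_rpow _ _ (fun j _ => dl_nonneg _ _ _ _)]
          rw [Finset.sum_congr rfl e1]
          have hinj : Set.InjOn (fun e' : Fin d → ℤ => (fun j => e j - e' j)) (Nn : Set (Fin d → ℤ)) := by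
            intro a _ b _ hab
            funext j
            have := congrFun hab j
            simp only at this
            linarith
          have e2 := Finset.sum_image (f := fun h : Fin d → ℤ => ∏ j, dl k X α (h j) ^ t) hinj
          refine e2.symm.le.trans ?_
          refine Finset.sum_le_sum_of_subset_of_nonneg ?_ ?_
          · intro h hh
            rw [Finset.mem_image] at hh
            obtain ⟨e', he', rfl⟩ := hh
            rw [Fintype.mem_piFinset]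
            intro j
            rw [hNn, Finset.mem_filter] at he'
            rw [Finset.mem_Ioo, ← abs_lt]
            exact he'.2 j
          · intro h _ _
            exact Finset.prod_nonneg fun j _ => Real.rpow_nonneg (dl_nonneg _ _ _ _) _
      _ = ∏ _j : Fin d, ∑ h ∈ Ioo (-(X : ℤ)) X, dl k X α h ^ t := by
          rw [Finset.prod_univ_sum]
      _ = (X * Dr k X α t) ^ d := by
          rw [Finset.prod_const, Finset.card_univ, Fintype.card_fin]
          unfold Dr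
          congr 1
          field_simp
  have hbase : 0 ≤ X * Dr k X α t := mul_nonneg hXR.le (Dr_nonneg _ _ _ _)
  calc (∑ e' ∈ Nn, F e' ^ (1 / s)) ^ s ≤ ((X * Dr k X α t) ^ d) ^ s := by
        refine Real.rpow_le_rpow ?_ h3 hs0.le
        exact Finset.sum_nonneg fun e' _ => Real.rpow_nonneg (hF0 e') _
    _ = (X * Dr k X α t) ^ r := by
        rw [← Real.rpow_natCast, ← Real.rpow_mul hbase]
        congr 1
        rw [hs]; field_simp

/-- the restricted second moment bound. -/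
lemma restricted_second_moment_t {d : ℕ} (k X : ℕ) (t : ℝ) (ht0 : 0 < t) (r : ℝ) (hX : 1 ≤ X) (α : ℝ)
    (E B : Finset (Fin d → ℤ)) (σ : ℝ) (hσ : 0 ≤ σ)
    (hB : ∀ e ∈ E, (((E.filter (fun e' => ∀ j, |e j - e' j| < X)).card : ℕ) : ℝ) ≤ σ * (X : ℝ) ^ d)
    (hr1 : 0 < r) (hr : r < d) (hm : t * r ≤ d) :
    (∑ x ∈ B, ‖∑ e ∈ E, ∏ j, kap k X α (x j - e j)‖ ^ 2) / (X : ℝ) ^ (2 * d) ≤
      E.card * σ ^ (1 - r / d) * Dr k X α t ^ r := by
  have hXR : (0 : ℝ) < X := by exact_mod_cast hX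
  have hdR : (0 : ℝ) < d := by linarith
  refine (second_moment k X hX α E B).trans ?_
  rw [div_le_iff₀ (by positivity)]
  calc ∑ e ∈ E, ∑ e' ∈ E, ∏ j, dl k X α (e j - e' j)
      ≤ ∑ e ∈ E, (σ * (X : ℝ) ^ d) ^ (1 - r / d) * (X * Dr k X α t) ^ r :=
        Finset.sum_le_sum fun e he => row_bound_t k X t ht0 r hX α E e _ (hB e he) hr1 hr hm
    _ = E.card * ((σ * (X : ℝ) ^ d) ^ (1 - r / d) * (X * Dr k X α t) ^ r) := by
        rw [Finset.sum_const, nsmul_eq_mul]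
    _ = E.card * σ ^ (1 - r / d) * Dr k X α t ^ r *
          (((X : ℝ) ^ d) ^ (1 - r / d) * (X : ℝ) ^ r) := by
        rw [Real.mul_rpow hσ (by positivity), Real.mul_rpow hXR.le (Dr_nonneg _ _ _ _)]
        ring
    _ = _ := by
        congr 1
        rw [← Real.rpow_natCast (X : ℝ) d, ← Real.rpow_mul hXR.le,
          ← Real.rpow_add hXR]
        congr 1
        field_simp
        ring

/-- Cauchy-Schwarz and the restricted second moment. -/
lemma l1_bound_t {d : ℕ} (k X : ℕ) (t : ℝ) (ht0 : 0 < t) (r : ℝ) (hX : 1 ≤ X) (α : ℝ)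
    (E B : Finset (Fin d → ℤ)) (σ : ℝ) (hσ : 0 ≤ σ)
    (hB : ∀ e ∈ E, (((E.filter (fun e' => nd e e' < X)).card : ℕ) : ℝ) ≤ σ * (X : ℝ) ^ d)
    (hr1 : 0 < r) (hr : r < d) (hm : t * r ≤ d) :
    ∑ x ∈ B, ‖Ts k X α E x‖ / (X : ℝ) ^ d ≤
      √(B.card) * √(E.card * σ ^ (1 - r / d) * Dr k X α t ^ r) := by
  have hXR : (0 : ℝ) < X := by exact_mod_cast hX
  have h1 := Real.sum_mul_le_sqrt_mul_sqrt B (fun _ => (1 : ℝ)) (fun x => ‖Ts k X α E x‖ / (X : ℝ) ^ d)
  simp only [one_mul, one_pow, Finset.sum_const, nsmul_eq_mul, mul_one] at h1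
  refine h1.trans (mul_le_mul_of_nonneg_left (Real.sqrt_le_sqrt ?_) (Real.sqrt_nonneg _))
  have h2 := restricted_second_moment_t k X t ht0 r hX α E B σ hσ (by
    intro e he
    have := hB e he
    simp only [nd_lt_iff _ _ _ hX] at this
    exact this) hr1 hr hm
  refine le_trans (le_of_eq ?_) h2
  rw [Finset.sum_div]
  refine Finset.sum_congr rfl fun x _ => ?_
  unfold Ts
  rw [div_pow, ← pow_mul, mul_comm d 2]

/-- single scale bound. -/
lemma single_scale_t {d : ℕ} (k J : ℕ) (t : ℝ) (ht0 : 0 < t) (r α : ℝ) (E F F' : Finset (Fin d → ℤ)) (ρ : ℝ) (hρ : 0 ≤ ρ)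
    (hD : Dens E F ρ) (hF : F' ⊆ F) (hr1 : 0 < r) (hr : r < d) (hm : t * r ≤ d) :
    ∑ x ∈ F', ‖Ts k (2 ^ J) α E x‖ / (((2 ^ J : ℕ) : ℝ)) ^ d ≤
      √(F'.card) * √(E.card * ((2 : ℝ) ^ d * ρ) ^ (1 - r / d) * Dr k (2 ^ J) α t ^ r) := by
  classical
  rcases F'.eq_empty_or_nonempty with h0 | hne
  · rw [h0]; simp
  have hFne : F.Nonempty := hne.mono hF
  have hX : 1 ≤ 2 ^ J := Nat.one_le_two_pow
  have h1 : ∀ x ∈ F', ‖Ts k (2 ^ J) α E x‖ / (((2 ^ J : ℕ) : ℝ)) ^ d =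
      ‖Ts k (2 ^ J) α (E.filter (fun e => dF F e < 2 ^ J)) x‖ / (((2 ^ J : ℕ) : ℝ)) ^ d := by
    intro x hx
    rw [Ts_filter k (2 ^ J) hX α E x (fun e => dF F e < 2 ^ J)]
    intro e _ he
    exact lt_of_le_of_lt (dF_le (hF hx) e) he
  rw [Finset.sum_congr rfl h1]
  refine (l1_bound_t k (2 ^ J) t ht0 r hX α _ F' ((2 : ℝ) ^ d * ρ) (by positivity) ?_ hr1 hr hm).trans ?_
  · intro e he
    rw [Finset.mem_filter] at he
    have h2 := dens_near hD hFne e J he.2
    have h3 : ((((E.filter (fun e => dF F e < 2 ^ J)).filter (fun e' => nd e e' < 2 ^ J)).card : ℕ) : ℝ) ≤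
        (((E.filter (fun e' => nd e e' < 2 ^ J)).card : ℕ) : ℝ) := by
      have : ((E.filter (fun e => dF F e < 2 ^ J)).filter (fun e' => nd e e' < 2 ^ J)).card ≤
          (E.filter (fun e' => nd e e' < 2 ^ J)).card := by
        refine Finset.card_le_card (Finset.filter_subset_filter _ (Finset.filter_subset _ _))
      exact_mod_cast this
    refine h3.trans (h2.trans (le_of_eq ?_))
    push_cast
    rw [pow_succ, mul_pow]
    ring
  · refine mul_le_mul_of_nonneg_left (Real.sqrt_le_sqrt ?_) (Real.sqrt_nonneg _)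
    have h3 : (((E.filter (fun e => dF F e < 2 ^ J)).card : ℕ) : ℝ) ≤ E.card := by
      exact_mod_cast Finset.card_filter_le _ _
    have h4 : 0 ≤ ((2 : ℝ) ^ d * ρ) ^ (1 - r / d) := Real.rpow_nonneg (by positivity) _
    have h5 := Dr_nonneg k (2 ^ J) α t
    gcongr


/-- the contribution of the very minor frequencies. -/
lemma minor_part_t {d : ℕ} (k : ℕ) (t : ℝ) (ht0 : 0 < t) (e : ℝ) (he0 : 0 < e) (C : ℝ) (hC : 1 ≤ C) (hk : 1 ≤ k)
    (E F : Finset (Fin d → ℤ)) (ρ : ℝ) (hρ : 0 < ρ) (hD : Dens E F ρ) (J : (Fin d → ℤ) → ℕ)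
    (M : ℕ → Finset ℕ) (hM : ∀ n, ∑ a ∈ M n, Dr k (2 ^ n) ((a : ℝ) / (((2 ^ n : ℕ) : ℝ)) ^ k) t ^ ((k : ℝ) + e) ≤
      C * (((2 ^ n : ℕ) : ℝ)) ^ (-e))
    (hkd : 2 * (k : ℝ) + 2 * e < d) (hmd : t * (2 * (k : ℝ) + 2 * e) ≤ d) :
    ∑ x ∈ F, ∑ a ∈ M (J x),
      ‖Ts k (2 ^ J x) ((a : ℝ) / (((2 ^ J x : ℕ) : ℝ)) ^ k) E x‖ / (((2 ^ J x : ℕ) : ℝ)) ^ d ≤
      (1 / (1 - 2 ^ (-e))) * (2 ^ d * C) * √((F.card : ℝ) * E.card * ρ ^ (1 - ((2 * k : ℕ) : ℝ) / d)) := by
  classical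
  have hkR : (1 : ℝ) ≤ k := by exact_mod_cast hk
  have hdR : (0 : ℝ) < d := by linarith
  have hd0 : 0 < d := by exact_mod_cast hdR
  have hC0 : 0 < C := by linarith
  obtain ⟨z, hz⟩ : ∃ z : ℝ, z = 2 ^ (-e) := ⟨_, rfl⟩
  have hz0 : 0 < z := by rw [hz]; positivity
  have hz1 : z < 1 := by
    rw [hz]; exact Real.rpow_lt_one_of_one_lt_of_neg (by norm_num) (by linarith)
  rw [← hz]
  obtain ⟨u, hu⟩ : ∃ u : ℝ, u = ρ ^ ((1 : ℝ) / d) := ⟨_, rfl⟩
  have hu0 : 0 < u := by rw [hu]; exact Real.rpow_pos_of_pos hρ _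
  have hud : u ^ d = ρ := by
    rw [hu, one_div]
    exact Real.rpow_inv_natCast_pow hρ.le (by omega)
  obtain ⟨w, hw⟩ : ∃ w : ℝ, w = u ^ (-e) := ⟨_, rfl⟩
  have hw0 : 0 < w := by rw [hw]; positivity
  obtain ⟨V, hV⟩ : ∃ V, V = √((F.card : ℝ) * E.card * ρ ^ (1 - ((2 * k : ℕ) : ℝ) / d)) := ⟨_, rfl⟩
  have hV0 : 0 ≤ V := by rw [hV]; exact Real.sqrt_nonneg _
  rw [← hV, sum_group F J]
  -- only scales with `u 2^n ≥ 1` contribute
  have hzero : ∀ n, u * 2 ^ n < 1 → ∀ x ∈ F, J x = n → ∀ α : ℝ, Ts k (2 ^ n) α E x = 0 := by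
    intro n hn x hx _ α
    have h1 := hD x hx n
    have h2 : ρ * ((2 : ℝ) ^ n) ^ d < 1 := by
      rw [← hud, ← mul_pow]
      exact pow_lt_one₀ (by positivity) hn (by omega)
    have h3 : (E.filter (fun e => nd x e < 2 ^ n)).card = 0 := by
      have : (((E.filter (fun e => nd x e < 2 ^ n)).card : ℕ) : ℝ) < 1 := lt_of_le_of_lt h1 h2
      have h4 : (E.filter (fun e => nd x e < 2 ^ n)).card < 1 := by exact_mod_cast this
      omega
    rw [Finset.card_eq_zero] at h3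
    rw [Ts_filter k (2 ^ n) Nat.one_le_two_pow α E x (fun e => nd x e < 2 ^ n) (fun e _ h => h), h3]
    simp [Ts]
  have hstep : ∀ n ∈ F.image J, ∑ x ∈ F.filter (fun x => J x = n), ∑ a ∈ M (J x),
      ‖Ts k (2 ^ J x) ((a : ℝ) / (((2 ^ J x : ℕ) : ℝ)) ^ k) E x‖ / (((2 ^ J x : ℕ) : ℝ)) ^ d ≤
      if 1 ≤ u * 2 ^ n then (2 ^ d * C) * V * w * z ^ n else 0 := by
    intro n _
    have h1 : ∀ x ∈ F.filter (fun x => J x = n), ∑ a ∈ M (J x),
        ‖Ts k (2 ^ J x) ((a : ℝ) / (((2 ^ J x : ℕ) : ℝ)) ^ k) E x‖ / (((2 ^ J x : ℕ) : ℝ)) ^ d =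
        ∑ a ∈ M n, ‖Ts k (2 ^ n) ((a : ℝ) / (((2 ^ n : ℕ) : ℝ)) ^ k) E x‖ / (((2 ^ n : ℕ) : ℝ)) ^ d := by
      intro x hx
      rw [(Finset.mem_filter.1 hx).2]
    rw [Finset.sum_congr rfl h1]
    split_ifs with hn
    · rw [Finset.sum_comm]
      obtain ⟨X, hX⟩ : ∃ X : ℝ, X = 2 ^ n := ⟨_, rfl⟩
      have hXc : ((2 ^ n : ℕ) : ℝ) = X := by rw [hX]; push_cast; ring
      have hX0 : 0 < X := by rw [hX]; positivity
      have hone : ∀ a ∈ M n, ∑ x ∈ F.filter (fun x => J x = n),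
          ‖Ts k (2 ^ n) ((a : ℝ) / (((2 ^ n : ℕ) : ℝ)) ^ k) E x‖ / (((2 ^ n : ℕ) : ℝ)) ^ d ≤
          2 ^ d * V * w *
            Dr k (2 ^ n) ((a : ℝ) / (((2 ^ n : ℕ) : ℝ)) ^ k) t ^ ((k : ℝ) + e) := by
        intro a ha
        have hs := single_scale_t k n t ht0 (2 * (k : ℝ) + 2 * e) ((a : ℝ) / (((2 ^ n : ℕ) : ℝ)) ^ k) E F
          (F.filter (fun x => J x = n)) ρ hρ.le hD (Finset.filter_subset _ _) (by positivity) hkd hmd
        refine hs.trans ?_
        obtain ⟨δ, hδ⟩ : ∃ δ, δ = Dr k (2 ^ n) ((a : ℝ) / (((2 ^ n : ℕ) : ℝ)) ^ k) t := ⟨_, rfl⟩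
        rw [← hδ]
        have hδ0 : 0 ≤ δ := by rw [hδ]; exact Dr_nonneg _ _ _ _
        have h4 := rpow_const_le_r 2 ρ d (2 * (k : ℝ) + 2 * e) (by norm_num) hρ.le (by positivity) hkd
        have h5 : ρ ^ (1 - (2 * (k : ℝ) + 2 * e) / d) = ρ ^ (1 - ((2 * k : ℕ) : ℝ) / d) * w ^ 2 := by
          rw [hw, hu, ← Real.rpow_mul hρ.le, ← Real.rpow_natCast, ← Real.rpow_mul hρ.le,
            ← Real.rpow_add hρ]
          congr 1
          push_cast
          field_simp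
          ring
        have h6 : (((F.filter (fun x => J x = n)).card : ℕ) : ℝ) ≤ F.card := by
          exact_mod_cast Finset.card_filter_le _ _
        have hδr : δ ^ (2 * (k : ℝ) + 2 * e) = (δ ^ ((k : ℝ) + e)) ^ 2 := by
          rw [← Real.rpow_natCast, ← Real.rpow_mul hδ0]
          congr 1
          push_cast
          ring
        have h7 : √(((F.filter (fun x => J x = n)).card : ℕ) : ℝ) *
            √(E.card * ((2 : ℝ) ^ d * ρ) ^ (1 - (2 * (k : ℝ) + 2 * e) / d) * δ ^ (2 * (k : ℝ) + 2 * e)) ≤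
            √((F.card : ℝ) * E.card * ρ ^ (1 - ((2 * k : ℕ) : ℝ) / d) *
              (2 ^ d * w * δ ^ ((k : ℝ) + e)) ^ 2) := by
          rw [← Real.sqrt_mul (Nat.cast_nonneg _)]
          refine Real.sqrt_le_sqrt ?_
          have h8 : (2 : ℝ) ^ d ≤ (2 ^ d) ^ 2 := le_self_pow₀ (one_le_pow₀ (by norm_num)) (by norm_num)
          have hR0 : 0 ≤ ρ ^ (1 - ((2 * k : ℕ) : ℝ) / d) := Real.rpow_nonneg hρ.le _
          rw [hδr]
          calc (((F.filter (fun x => J x = n)).card : ℕ) : ℝ) *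
              (E.card * ((2 : ℝ) ^ d * ρ) ^ (1 - (2 * (k : ℝ) + 2 * e) / d) * (δ ^ ((k : ℝ) + e)) ^ 2)
              ≤ (F.card : ℝ) * (E.card * (2 ^ d * ρ ^ (1 - (2 * (k : ℝ) + 2 * e) / d)) *
                (δ ^ ((k : ℝ) + e)) ^ 2) := by gcongr
            _ = (F.card : ℝ) * E.card * ρ ^ (1 - ((2 * k : ℕ) : ℝ) / d) *
                (2 ^ d * (w ^ 2 * (δ ^ ((k : ℝ) + e)) ^ 2)) := by rw [h5]; ring
            _ ≤ (F.card : ℝ) * E.card * ρ ^ (1 - ((2 * k : ℕ) : ℝ) / d) *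
                ((2 ^ d) ^ 2 * (w ^ 2 * (δ ^ ((k : ℝ) + e)) ^ 2)) := by gcongr
            _ = _ := by ring
        refine h7.trans (le_of_eq ?_)
        rw [Real.sqrt_mul (by positivity), ← hV, Real.sqrt_sq (by positivity)]
        ring
      refine (Finset.sum_le_sum hone).trans ?_
      rw [← Finset.mul_sum]
      have h12 := hM n
      rw [hXc] at h12 ⊢
      have h13 : X ^ (-e) = z ^ n := by
        rw [hX, hz, ← Real.rpow_natCast, ← Real.rpow_natCast, ← Real.rpow_mul (by norm_num),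
          ← Real.rpow_mul (by norm_num)]
        congr 1
        ring
      rw [h13] at h12
      calc _ ≤ 2 ^ d * V * w * (C * z ^ n) := mul_le_mul_of_nonneg_left h12 (by positivity)
        _ = _ := by ring
    · push Not at hn
      refine le_of_eq (Finset.sum_eq_zero fun x hx => Finset.sum_eq_zero fun a _ => ?_)
      rw [Finset.mem_filter] at hx
      rw [hzero n hn x hx.1 hx.2]
      simp
  refine (Finset.sum_le_sum hstep).trans ?_
  rw [← Finset.sum_filter]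
  have h1z : 0 < 1 - z := by linarith
  rcases ((F.image J).filter (fun n => 1 ≤ u * 2 ^ n)).eq_empty_or_nonempty with h0 | hne
  · rw [h0]
    simp only [Finset.sum_empty]
    positivity
  · obtain ⟨N0, hN0⟩ : ∃ N0, N0 = ((F.image J).filter (fun n => 1 ≤ u * 2 ^ n)).min' hne := ⟨_, rfl⟩
    have hN0m : 1 ≤ u * 2 ^ N0 := by
      have := Finset.min'_mem _ hne
      rw [← hN0] at this
      exact (Finset.mem_filter.1 this).2
    have hwz : w * z ^ N0 ≤ 1 := by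
      have e1 : w * z ^ N0 = (u * 2 ^ N0) ^ (-e) := by
        rw [hw, hz, Real.mul_rpow hu0.le (by positivity), ← Real.rpow_natCast, ← Real.rpow_natCast,
          ← Real.rpow_mul (by norm_num), ← Real.rpow_mul (by norm_num)]
        congr 2
        ring
      rw [e1]
      exact Real.rpow_le_one_of_one_le_of_nonpos hN0m (by linarith)
    rw [← Finset.mul_sum]
    have h1 := sum_geo_le z hz0 hz1 ((F.image J).filter (fun n => 1 ≤ u * 2 ^ n)) N0 (fun n hn => by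
      rw [hN0]; exact Finset.min'_le _ _ hn)
    calc _ ≤ 2 ^ d * C * V * w * (z ^ N0 / (1 - z)) :=
          mul_le_mul_of_nonneg_left h1 (by positivity)
      _ = (1 / (1 - z)) * (2 ^ d * C) * V * (w * z ^ N0) := by
          field_simp
      _ ≤ (1 / (1 - z)) * (2 ^ d * C) * V * 1 := by
          refine mul_le_mul_of_nonneg_left hwz (by positivity)
      _ = _ := by ring


end Pool.Agent.helper132_p
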