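import Pool.Agent.helper132_p.P13
import Pool.Agent.helper132_h.H24

/-! Bounds for the dual constant and the sum over the triples. -/

namespace Pool.Agent.helper132_p

open Finset Pool.Agent.helper132_sph Pool.Agent.helper132_poly Pool.Agent.helper132_quad Pool.Agent.helper132_h

/-- both bounds together, uniformly. -/
lemma theta_bound4 (κ m g : ℕ) (hκ : 2 ≤ κ) (hg10 : 5 ≤ g) (C : ℝ) (hC : 1 ≤ C)
    (hst : Hs (κ + 1) m g C) :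
    ∃ K : ℝ, 1 ≤ K ∧ ∀ τ : ℕ × ℤ × ℤ, 1 ≤ τ.1 →
      ∃ U : ℝ, 0 ≤ U ∧ (∀ d, 4 * (κ + 1) ≤ d → U ^ d * ((1 + τ.2.2.natAbs : ℕ) : ℝ) ^ 4 ≤ K) ∧
      (∀ J, τ.1 * (1 + τ.2.2.natAbs) ^ 2 ≤ 2 ^ J →
        Dl (κ + 1) m (Nq τ.1 (2 ^ J)) (bet (κ + 1) τ J * (τ.1 : ℝ) ^ (κ + 1)) ^ (2 * (κ + 1)) *
          ((1 + τ.2.2.natAbs : ℕ) : ℝ) ^ 5 ≤ K) ∧
      (∀ J J', τ.1 * (1 + τ.2.2.natAbs) ^ 2 ≤ 2 ^ J → τ.1 * (1 + τ.2.2.natAbs) ^ 2 ≤ 2 ^ J' →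
        J ≠ J' → ∀ h : ℤ,
        ‖gsum (κ + 1) (Nq τ.1 (2 ^ J)) (Nq τ.1 (2 ^ J')) (bet (κ + 1) τ J * (τ.1 : ℝ) ^ (κ + 1))
          (bet (κ + 1) τ J' * (τ.1 : ℝ) ^ (κ + 1)) h‖ ≤
          U * min (Nq τ.1 (2 ^ J) : ℝ) (Nq τ.1 (2 ^ J'))) := by
  obtain ⟨C1, hC1, hg⟩ := gsum_crossV (κ + 1) (by omega)
  obtain ⟨A, hAe⟩ : ∃ A, A = κ + 1 := ⟨_, rfl⟩
  have hA : 1 ≤ A := by omega
  refine ⟨(2 * C1) ^ 5 + 4 * (33 * C) + 1024 * 4 ^ (κ + 1), ?_, ?_⟩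
  · have h1 : (1 : ℝ) ≤ 4 ^ (κ + 1) := one_le_pow₀ (by norm_num)
    have h2 : (0 : ℝ) ≤ (2 * C1) ^ 5 := by positivity
    linarith
  intro τ hq
  obtain ⟨q, c, i⟩ := τ
  simp only at hq ⊢
  have hC10 : 0 < C1 := by linarith
  have hK1 : (0 : ℝ) ≤ (2 * C1) ^ 5 := by positivity
  have hK2 : (0 : ℝ) ≤ 4 * (33 * C) := by linarith
  have hK3 : (0 : ℝ) ≤ 1024 * 4 ^ (κ + 1) := by positivity
  have hqR1 : (1 : ℝ) ≤ q := by exact_mod_cast hq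
  have hi1 : ((1 + i.natAbs : ℕ) : ℝ) = 1 + |(i : ℝ)| := by
    push_cast
    rw [Nat.cast_natAbs]; simp
  rcases lt_or_ge i.natAbs 4 with h4 | h4
  · have hle : ((1 + i.natAbs : ℕ) : ℝ) ^ 5 ≤ 1024 := by
      have : ((1 + i.natAbs : ℕ) : ℝ) ≤ 4 := by exact_mod_cast (by omega : 1 + i.natAbs ≤ 4)
      calc ((1 + i.natAbs : ℕ) : ℝ) ^ 5 ≤ 4 ^ 5 := pow_le_pow_left₀ (Nat.cast_nonneg _) this 5
        _ = 1024 := by norm_num
    have h41 : (1 : ℝ) ≤ 4 ^ (κ + 1) := one_le_pow₀ (by norm_num)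
    refine ⟨1, zero_le_one, ?_, ?_, ?_⟩
    · intro d _
      rw [one_pow, one_mul]
      have : (1024 : ℝ) * 1 ≤ 1024 * 4 ^ (κ + 1) := mul_le_mul_of_nonneg_left h41 (by norm_num)
      have h45 : ((1 + i.natAbs : ℕ) : ℝ) ^ 4 ≤ ((1 + i.natAbs : ℕ) : ℝ) ^ 5 :=
        pow_le_pow_right₀ (by exact_mod_cast (by omega : 1 ≤ 1 + i.natAbs)) (by norm_num)
      linarith
    · intro J _
      have hN := Nq_pos q (2 ^ J) hq Nat.one_le_two_pow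
      have h1 : Dl (κ + 1) m (Nq q (2 ^ J)) (bet (κ + 1) (q, c, i) J * (q : ℝ) ^ (κ + 1)) ^ (2 * (κ + 1)) ≤
          4 ^ (κ + 1) := by
        calc _ ≤ (2 : ℝ) ^ (2 * (κ + 1)) :=
              pow_le_pow_left₀ (Dl_nonneg _ _ _ _) (Dl_le_two _ _ _ _ hN) _
          _ = 4 ^ (κ + 1) := by rw [pow_mul]; norm_num
      calc _ ≤ (4 : ℝ) ^ (κ + 1) * 1024 := mul_le_mul h1 hle (by positivity) (by positivity)
        _ ≤ _ := by linarith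
    · intro J J' _ _ _ h
      rw [one_mul]
      exact norm_gsum_le _ _ _ _ _ _
  · obtain ⟨a, ha⟩ : ∃ a : ℝ, a = |(i : ℝ)| := ⟨_, rfl⟩
    have hnat : ((i.natAbs : ℕ) : ℝ) = a := by rw [ha, Nat.cast_natAbs]; simp
    have ha4 : 4 ≤ a := by rw [← hnat]; exact_mod_cast h4
    have ha0 : 0 < a := by linarith
    rw [← ha] at hi1
    have hscale : ∀ J, q * (1 + i.natAbs) ^ 2 ≤ 2 ^ J → (q : ℝ) * a ^ 2 ≤ ((2 ^ J : ℕ) : ℝ) := by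
      intro J hJ
      have h1 : ((q * (1 + i.natAbs) ^ 2 : ℕ) : ℝ) ≤ ((2 ^ J : ℕ) : ℝ) := by exact_mod_cast hJ
      refine le_trans ?_ h1
      rw [Nat.cast_mul, Nat.cast_pow, hi1]
      refine mul_le_mul_of_nonneg_left ?_ (by linarith)
      exact pow_le_pow_left₀ ha0.le (by linarith) 2
    have htb : ∀ J, |tt (κ + 1) (2 ^ J) (q, c, i)| ≤ a + 1 ∧ a - 1 ≤ |tt (κ + 1) (2 ^ J) (q, c, i)| := by
      intro J
      have h1 := abs_tt_sub (κ + 1) (2 ^ J) Nat.one_le_two_pow (q, c, i) hq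
      simp only at h1
      constructor
      · have h2 := abs_add_le (tt (κ + 1) (2 ^ J) (q, c, i) - i) i
        rw [sub_add_cancel, ← ha] at h2
        linarith
      · have h2 := abs_add_le ((i : ℝ) - tt (κ + 1) (2 ^ J) (q, c, i)) (tt (κ + 1) (2 ^ J) (q, c, i))
        rw [sub_add_cancel, ← ha, abs_sub_comm] at h2
        linarith
    have h1a : (1 + a) ≤ 5 / 4 * a := by linarith
    have h1a5 : (1 + a) ^ 5 ≤ 4 * a ^ 5 := by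
      calc (1 + a) ^ 5 ≤ (5 / 4 * a) ^ 5 := pow_le_pow_left₀ (by linarith) h1a 5
        _ = (5 / 4) ^ 5 * a ^ 5 := by rw [mul_pow]
        _ ≤ 4 * a ^ 5 := mul_le_mul_of_nonneg_right (by norm_num) (by positivity)
    obtain ⟨U0, hU00, hU0A⟩ : ∃ U0 : ℝ, 0 ≤ U0 ∧ U0 ^ A = C1 / a :=
      ⟨(C1 / a) ^ ((A : ℝ)⁻¹), by positivity, Real.rpow_inv_natCast_pow (by positivity) (by omega)⟩
    have hcr : ∀ J J', q * (1 + i.natAbs) ^ 2 ≤ 2 ^ J' → J' < J → ∀ h : ℤ,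
        ‖gsum (κ + 1) (Nq q (2 ^ J)) (Nq q (2 ^ J')) (bet (κ + 1) (q, c, i) J * (q : ℝ) ^ (κ + 1))
          (bet (κ + 1) (q, c, i) J' * (q : ℝ) ^ (κ + 1)) h‖ ≤ min 1 U0 * Nq q (2 ^ J') := by
      intro J J' hJ' hlt h
      have hN' := Nq_pos q (2 ^ J') hq Nat.one_le_two_pow
      have hN'R : (0 : ℝ) < Nq q (2 ^ J') := by exact_mod_cast hN'
      have h1 := hg q hq a ha4 (2 ^ J) (2 ^ J') (tt (κ + 1) (2 ^ J) (q, c, i))
        (tt (κ + 1) (2 ^ J') (q, c, i)) (htb J).1 (htb J').1 (htb J').2 (hscale J' hJ') (by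
          calc 2 * 2 ^ J' = 2 ^ (J' + 1) := by rw [pow_succ]; ring
            _ ≤ 2 ^ J := Nat.pow_le_pow_right (by norm_num) hlt) h
      have h2 := norm_gsum_le (κ + 1) (Nq q (2 ^ J)) (Nq q (2 ^ J'))
        (bet (κ + 1) (q, c, i) J * (q : ℝ) ^ (κ + 1)) (bet (κ + 1) (q, c, i) J' * (q : ℝ) ^ (κ + 1)) h
      have h1' : (‖gsum (κ + 1) (Nq q (2 ^ J)) (Nq q (2 ^ J')) (bet (κ + 1) (q, c, i) J * (q : ℝ) ^ (κ + 1))
          (bet (κ + 1) (q, c, i) J' * (q : ℝ) ^ (κ + 1)) h‖ / Nq q (2 ^ J')) ^ A * a ≤ C1 := by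
        rw [hAe]; exact h1
      obtain ⟨g, hgg⟩ : ∃ g, g = ‖gsum (κ + 1) (Nq q (2 ^ J)) (Nq q (2 ^ J')) (bet (κ + 1) (q, c, i) J * (q : ℝ) ^ (κ + 1))
          (bet (κ + 1) (q, c, i) J' * (q : ℝ) ^ (κ + 1)) h‖ := ⟨_, rfl⟩
      rw [← hgg] at h1' h2 ⊢
      have hg0 : 0 ≤ g := by rw [hgg]; exact norm_nonneg _
      rw [← div_le_iff₀ hN'R]
      refine le_min ?_ ?_
      · rw [div_le_one hN'R]
        exact h2.trans (min_le_right _ _)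
      · have h3 : (g / Nq q (2 ^ J')) ^ A ≤ U0 ^ A := by
          rw [hU0A, le_div_iff₀ ha0]
          exact h1'
        exact le_of_pow_le_pow_left₀ (by omega) hU00 h3
    refine ⟨min 1 U0, le_min zero_le_one hU00, ?_, ?_, ?_⟩
    · intro d hd
      rw [hi1]
      have hm0 : 0 ≤ min 1 U0 := le_min zero_le_one hU00
      rw [← hAe] at hd
      calc (min 1 U0) ^ d * (1 + a) ^ 4 ≤ (min 1 U0) ^ (4 * A) * (1 + a) ^ 4 := by
            refine mul_le_mul_of_nonneg_right ?_ (by positivity)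
            exact pow_le_pow_of_le_one hm0 (min_le_left _ _) hd
        _ = ((min 1 U0) ^ A * (1 + a)) ^ 4 := by
            rw [mul_pow, ← pow_mul, mul_comm A 4]
        _ ≤ (C1 / a * (5 / 4 * a)) ^ 4 := by
            refine pow_le_pow_left₀ (by positivity) ?_ 4
            refine mul_le_mul ?_ h1a (by linarith) (by positivity)
            rw [← hU0A]
            exact pow_le_pow_left₀ hm0 (min_le_right _ _) A
        _ = (5 / 4 * C1) ^ 4 := by congr 1; field_simp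
        _ ≤ (2 * C1) ^ 4 := pow_le_pow_left₀ (by positivity) (by linarith) 4
        _ ≤ (2 * C1) ^ 5 := pow_le_pow_right₀ (by linarith) (by norm_num)
        _ ≤ _ := by linarith
    · intro J hJ
      rw [hi1]
      have h1 := dl_same5 κ m g hκ hg10 C hC hst q hq a ha4 (2 ^ J) (tt (κ + 1) (2 ^ J) (q, c, i))
        (htb J).1 (htb J).2 (hscale J hJ)
      have h1' : Dl (κ + 1) m (Nq q (2 ^ J)) (bet (κ + 1) (q, c, i) J * (q : ℝ) ^ (κ + 1)) ^ (2 * (κ + 1)) *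
          a ^ 5 ≤ 33 * C := h1
      have h0 : 0 ≤ Dl (κ + 1) m (Nq q (2 ^ J)) (bet (κ + 1) (q, c, i) J * (q : ℝ) ^ (κ + 1)) ^ (2 * (κ + 1)) :=
        pow_nonneg (Dl_nonneg _ _ _ _) _
      have h2 := mul_le_mul_of_nonneg_left h1a5 h0
      linarith
    · intro J J' hJ hJ' hne h
      rcases lt_or_gt_of_ne hne with hlt | hlt
      · rw [gsum_symm]
        refine (hcr J' J hJ hlt (-h)).trans ?_
        refine mul_le_mul_of_nonneg_left ?_ (le_min zero_le_one hU00)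
        refine le_min le_rfl ?_
        have : Nq q (2 ^ J) ≤ Nq q (2 ^ J') := by
          unfold Nq
          refine Nat.div_le_div_right ?_
          have : 2 ^ J ≤ 2 ^ J' := Nat.pow_le_pow_right (by norm_num) hlt.le
          omega
        exact_mod_cast this
      · refine (hcr J J' hJ' hlt h).trans ?_
        refine mul_le_mul_of_nonneg_left ?_ (le_min zero_le_one hU00)
        refine le_min ?_ le_rfl
        have : Nq q (2 ^ J') ≤ Nq q (2 ^ J) := by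
          unfold Nq
          refine Nat.div_le_div_right ?_
          have : 2 ^ J' ≤ 2 ^ J := Nat.pow_le_pow_right (by norm_num) hlt.le
          omega
        exact_mod_cast this


/-- the final weight of a triple. -/
noncomputable def wq (τ : ℕ × ℤ × ℤ) : ℝ :=
  (τ.1 : ℝ) ^ (-(9 / 4) : ℝ) * ((1 + τ.2.2.natAbs : ℕ) : ℝ) ^ (-(7 / 4) : ℝ)

lemma wq_nonneg (τ : ℕ × ℤ × ℤ) : 0 ≤ wq τ := by
  unfold wq; positivity

lemma sum_wt4 : ∃ K : ℝ, 1 ≤ K ∧ ∀ T : Finset (ℕ × ℤ × ℤ),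
    (∀ τ ∈ T, 1 ≤ τ.1 ∧ -1 ≤ τ.2.1 ∧ τ.2.1 ≤ τ.1 + 1) →
    ∑ τ ∈ T, wq τ ≤ K := by
  classical
  have hs1 : Summable (fun n : ℕ => (n : ℝ) ^ (-(5 / 4) : ℝ)) :=
    Real.summable_nat_rpow.2 (by norm_num)
  have hs2 : Summable (fun n : ℕ => (n : ℝ) ^ (-(7 / 4) : ℝ)) :=
    Real.summable_nat_rpow.2 (by norm_num)
  obtain ⟨S1, hS1⟩ : ∃ S1, S1 = ∑' n : ℕ, (n : ℝ) ^ (-(5 / 4) : ℝ) := ⟨_, rfl⟩
  obtain ⟨S2, hS2⟩ : ∃ S2, S2 = ∑' n : ℕ, (n : ℝ) ^ (-(7 / 4) : ℝ) := ⟨_, rfl⟩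
  have hS10 : 0 ≤ S1 := by rw [hS1]; exact tsum_nonneg fun n => by positivity
  have hS20 : 0 ≤ S2 := by rw [hS2]; exact tsum_nonneg fun n => by positivity
  refine ⟨1 + 4 * S1 * (2 * S2), by have : 0 ≤ 4 * S1 * (2 * S2) := by positivity
                                    linarith, ?_⟩
  intro T hT
  obtain ⟨Q, hQ⟩ : ∃ Q : ℕ, ∀ τ ∈ T, τ.1 ≤ Q :=
    ⟨T.sup (fun τ => τ.1), fun τ hτ => Finset.le_sup (f := fun τ : ℕ × ℤ × ℤ => τ.1) hτ⟩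
  obtain ⟨I, hI⟩ : ∃ I : ℕ, ∀ τ ∈ T, τ.2.2.natAbs < I :=
    ⟨T.sup (fun τ => τ.2.2.natAbs) + 1, fun τ hτ =>
      Nat.lt_succ_of_le (Finset.le_sup (f := fun τ : ℕ × ℤ × ℤ => τ.2.2.natAbs) hτ)⟩
  obtain ⟨g, hg⟩ : ∃ g : ℕ × ℤ × ℤ → ℝ, g = fun τ : ℕ × ℤ × ℤ =>
    if -1 ≤ τ.2.1 ∧ τ.2.1 ≤ (τ.1 : ℤ) + 1 then wq τ else 0 := ⟨_, rfl⟩
  have hg0 : ∀ τ, 0 ≤ g τ := by
    intro τ; rw [hg]; simp only; split_ifs
    · exact wq_nonneg τ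
    · exact le_rfl
  have h1 : ∑ τ ∈ T, wq τ = ∑ τ ∈ T, g τ := by
    refine Finset.sum_congr rfl fun τ hτ => ?_
    rw [hg]; simp only
    rw [if_pos (hT τ hτ).2]
  have h2 : T ⊆ (Icc 1 Q) ×ˢ ((Icc (-1) ((Q : ℤ) + 1)) ×ˢ (Ioo (-(I : ℤ)) I)) := by
    intro τ hτ
    obtain ⟨a1, a2, a3⟩ := hT τ hτ
    have a4 := hQ τ hτ
    have a5 := hI τ hτ
    rw [Finset.mem_product, Finset.mem_product, Finset.mem_Icc, Finset.mem_Icc, Finset.mem_Ioo]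
    have a4' : (τ.1 : ℤ) ≤ Q := by exact_mod_cast a4
    refine ⟨⟨a1, a4⟩, ⟨a2, by linarith⟩, ?_, ?_⟩
    · omega
    · omega
  rw [h1]
  refine (Finset.sum_le_sum_of_subset_of_nonneg h2 fun τ _ _ => hg0 τ).trans ?_
  rw [Finset.sum_product]
  have h3 : ∀ q ∈ Icc 1 Q, ∑ ci ∈ (Icc (-1) ((Q : ℤ) + 1)) ×ˢ (Ioo (-(I : ℤ)) I), g (q, ci) ≤
      4 * (q : ℝ) ^ (-(5 / 4) : ℝ) * (2 * S2) := by
    intro q hq
    rw [Finset.mem_Icc] at hq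
    have hqR : (1 : ℝ) ≤ q := by exact_mod_cast hq.1
    have hq0 : (0 : ℝ) < q := by linarith
    rw [Finset.sum_product, Finset.sum_comm]
    have h4 : ∀ i ∈ Ioo (-(I : ℤ)) I, ∑ c ∈ Icc (-1) ((Q : ℤ) + 1), g (q, c, i) ≤
        4 * (q : ℝ) ^ (-(5 / 4) : ℝ) * ((1 + i.natAbs : ℕ) : ℝ) ^ (-(7 / 4) : ℝ) := by
      intro i _
      have h5 : ∀ c ∈ Icc (-1) ((Q : ℤ) + 1), g (q, c, i) =
          if c ∈ Icc (-1) ((q : ℤ) + 1) then (q : ℝ) ^ (-(9 / 4) : ℝ) * ((1 + i.natAbs : ℕ) : ℝ) ^ (-(7 / 4) : ℝ) else 0 := by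
        intro c _
        rw [hg]
        simp only [Finset.mem_Icc]
        rfl
      rw [Finset.sum_congr rfl h5, ← Finset.sum_filter, Finset.sum_const, nsmul_eq_mul]
      have h6 : ((((Icc (-1) ((Q : ℤ) + 1)).filter (fun c => c ∈ Icc (-1) ((q : ℤ) + 1))).card : ℕ) : ℝ) ≤ 4 * q := by
        have h7 : ((Icc (-1) ((Q : ℤ) + 1)).filter (fun c => c ∈ Icc (-1) ((q : ℤ) + 1))).card ≤
            (Icc (-1) ((q : ℤ) + 1)).card := by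
          refine Finset.card_le_card ?_
          intro c hc
          exact (Finset.mem_filter.1 hc).2
        rw [Int.card_Icc] at h7
        have h8 : ((Icc (-1) ((Q : ℤ) + 1)).filter (fun c => c ∈ Icc (-1) ((q : ℤ) + 1))).card ≤ 4 * q := by
          omega
        exact_mod_cast h8
      have h10 : (q : ℝ) * (q : ℝ) ^ (-(9 / 4) : ℝ) = (q : ℝ) ^ (-(5 / 4) : ℝ) := by
        nth_rewrite 1 [← Real.rpow_one (q : ℝ)]
        rw [← Real.rpow_add hq0]; norm_num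
      calc _ ≤ (4 * q) * ((q : ℝ) ^ (-(9 / 4) : ℝ) * ((1 + i.natAbs : ℕ) : ℝ) ^ (-(7 / 4) : ℝ)) :=
            mul_le_mul_of_nonneg_right h6 (by positivity)
        _ = 4 * ((q : ℝ) * (q : ℝ) ^ (-(9 / 4) : ℝ)) * ((1 + i.natAbs : ℕ) : ℝ) ^ (-(7 / 4) : ℝ) := by ring
        _ = _ := by rw [h10]
    refine (Finset.sum_le_sum h4).trans ?_
    rw [← Finset.mul_sum]
    refine mul_le_mul_of_nonneg_left ?_ (by positivity)
    rcases Nat.eq_zero_or_pos I with hI0 | hI0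
    · subst hI0
      simp only [CharP.cast_eq_zero, neg_zero, Finset.Ioo_self, Finset.sum_empty]
      positivity
    rw [Pool.Agent.helper132_sph.sum_Ioo_symm I _ hI0]
    have h11 : ∑ n ∈ range I, (((n + 1 : ℕ)) : ℝ) ^ (-(7 / 4) : ℝ) ≤ S2 := by
      have h12 : ∑ n ∈ range (I + 1), ((n : ℕ) : ℝ) ^ (-(7 / 4) : ℝ) ≤ S2 := by
        rw [hS2]
        exact hs2.sum_le_tsum _ fun n _ => by positivity
      rw [Finset.sum_range_succ'] at h12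
      have : (0 : ℝ) ≤ ((0 : ℕ) : ℝ) ^ (-(7 / 4) : ℝ) := by positivity
      linarith
    have h13 : ∑ n ∈ range I, (((n + 1 : ℕ)) : ℝ) ^ (-(7 / 4) : ℝ) =
        1 + ∑ n ∈ Ico 1 I, (((n + 1 : ℕ)) : ℝ) ^ (-(7 / 4) : ℝ) := by
      rw [Finset.range_eq_Ico, Finset.sum_eq_sum_Ico_succ_bot hI0]
      simp
    have h14 : ∀ n ∈ Ico 1 I, ((1 + (-(n : ℤ)).natAbs : ℕ) : ℝ) ^ (-(7 / 4) : ℝ) +
        ((1 + ((n : ℤ)).natAbs : ℕ) : ℝ) ^ (-(7 / 4) : ℝ) =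
        2 * (((n + 1 : ℕ)) : ℝ) ^ (-(7 / 4) : ℝ) := by
      intro n _
      rw [Int.natAbs_neg, Int.natAbs_natCast, add_comm 1 n]
      ring
    have h15 : ∀ n ∈ Ico 1 I, ((1 + ((n : ℤ)).natAbs : ℕ) : ℝ) ^ (-(7 / 4) : ℝ) +
        ((1 + (-(n : ℤ)).natAbs : ℕ) : ℝ) ^ (-(7 / 4) : ℝ) =
        2 * (((n + 1 : ℕ)) : ℝ) ^ (-(7 / 4) : ℝ) := by
      intro n hn
      rw [add_comm, h14 n hn]
    rw [Finset.sum_congr rfl h15, ← Finset.mul_sum]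
    simp only [Int.natAbs_zero, add_zero, Nat.cast_one, Real.one_rpow]
    rw [h13] at h11
    linarith
  refine (Finset.sum_le_sum h3).trans ?_
  rw [← Finset.sum_mul, ← Finset.mul_sum]
  have h16 : ∑ q ∈ Icc 1 Q, (q : ℝ) ^ (-(5 / 4) : ℝ) ≤ S1 := by
    rw [hS1]
    exact hs1.sum_le_tsum _ fun n _ => by positivity
  have h17 : 4 * ∑ q ∈ Icc 1 Q, (q : ℝ) ^ (-(5 / 4) : ℝ) ≤ 4 * S1 := by linarith
  have h18 := mul_le_mul_of_nonneg_right h17 (show 0 ≤ 2 * S2 by positivity)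
  linarith


end Pool.Agent.helper132_p
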