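import Pool.Agent.helper132_p.P14

/-! The triple proposition with the weight `q ^ (-9/4) * (1 + |i|) ^ (-7/4)`. -/

namespace Pool.Agent.helper132_p

open Finset Pool.Agent.helper132_sph Pool.Agent.helper132_poly Pool.Agent.helper132_quad Pool.Agent.helper132_h

/-- the triple proposition. -/
theorem triple_prop4 (κ m g : ℕ) (hκ : 2 ≤ κ) (hg : 5 ≤ g) (hm : 1 ≤ m) (C : ℝ) (hC : 1 ≤ C)
    (hst : Hs (κ + 1) m g C)
    (d : ℕ) (hd : 2 * (κ + 1) * m + 1 ≤ d) (hdA : 4 * (κ + 1) ≤ d) : ∃ K : ℝ, 1 ≤ K ∧ ∀ (τ : ℕ × ℤ × ℤ) (E F : Finset (Fin d → ℤ)) (ρ : ℝ)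
      (_ : 0 ≤ ρ) (_ : Dens E F ρ) (J : (Fin d → ℤ) → ℕ)
      (_ : ∀ x ∈ F, GoodT (κ + 1) m C (2 ^ J x) τ),
      ∑ x ∈ F, ‖Ts (κ + 1) (2 ^ J x) (frq (κ + 1) (2 ^ J x) τ) E x‖ / (((2 ^ J x : ℕ) : ℝ)) ^ d ≤
        K * (wq τ *
          (√((F.card : ℝ) * E.card * ρ ^ (1 - ((2 * (κ + 1) : ℕ) : ℝ) / d)) + E.card)) := by
  classical
  obtain ⟨Kt, hKt, hth⟩ := theta_bound4 κ m g hκ hg C hC hst
  have hkm : 2 * (κ + 1) ≤ 2 * (κ + 1) * m := Nat.le_mul_of_pos_right _ hm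
  have hkd : 2 * (κ + 1) < d := by omega
  have hmd : m * (2 * (κ + 1)) ≤ d := by rw [mul_comm]; omega
  have hpi := Real.pi_pos
  obtain ⟨C', hC'⟩ : ∃ C' : ℝ, C' = C + (33 * C + 4 ^ (κ + 1)) + (8 ^ d + 2 * 6 ^ d) * Kt := ⟨_, rfl⟩
  have h4p : (0 : ℝ) ≤ 4 ^ (κ + 1) := by positivity
  have h8p : (0 : ℝ) ≤ (8 ^ d + 2 * 6 ^ d) * Kt := by positivity
  have hCC' : C ≤ C' := by rw [hC']; linarith
  have hC'1 : 1 ≤ C' := hC.trans hCC'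
  have hrat' : 33 * C + 4 ^ (κ + 1) ≤ C' := by rw [hC']; linarith
  have hth' : (8 ^ d + 2 * 6 ^ d) * Kt ≤ C' := by rw [hC']; linarith
  refine ⟨6 * (8 * (2 ^ d * C) + 4 * (6 * 32 ^ d * C' ^ 2)) +
    d * 4 ^ (d - 1) * (2 * Real.pi * ((κ + 1 : ℕ) : ℝ) + 4) * 2, ?_, ?_⟩
  · have h1 : (1 : ℝ) ≤ 2 ^ d := one_le_pow₀ (by norm_num)
    have h2 : (1 : ℝ) * 1 ≤ 2 ^ d * C := mul_le_mul h1 hC zero_le_one (by positivity)
    have h3 : (0 : ℝ) ≤ 4 * (6 * 32 ^ d * C' ^ 2) := by positivity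
    have h4 : (0 : ℝ) ≤ d * 4 ^ (d - 1) * (2 * Real.pi * ((κ + 1 : ℕ) : ℝ) + 4) * 2 := by positivity
    linarith
  intro τ E F ρ hρ hD J hG
  rcases F.eq_empty_or_nonempty with h0 | hne
  · rw [h0]
    simp only [Finset.sum_empty, Finset.card_empty, Nat.cast_zero, zero_mul, Real.sqrt_zero, zero_add]
    have := wq_nonneg τ
    positivity
  obtain ⟨x1, hx1⟩ := hne
  have hq := (hG x1 hx1).q_pos
  have hcop := (hG x1 hx1).cop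
  have hW := wt_pos τ hq
  obtain ⟨W, hWe⟩ : ∃ W, W = wt τ := ⟨_, rfl⟩
  rw [← hWe] at hW
  have hwR : (1 : ℝ) ≤ (W : ℝ) := by exact_mod_cast hW
  have hw0 : (0 : ℝ) < (W : ℝ) := by linarith
  obtain ⟨L, hL⟩ : ∃ L, L = Nat.log 2 W := ⟨_, rfl⟩
  obtain ⟨l, hl⟩ : ∃ l, l = 4 * (L + 1) := ⟨_, rfl⟩
  obtain ⟨j0, hj0⟩ : ∃ j0, j0 = 2 * Nat.log 2 τ.1 + 2 := ⟨_, rfl⟩
  obtain ⟨J1, hJ1⟩ : ∃ J1, J1 = l + j0 + 2 := ⟨_, rfl⟩
  have hqW : τ.1 ≤ W := by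
    rw [hWe]; unfold wt
    exact Nat.le_mul_of_pos_right _ (by omega)
  have hiW : 1 + τ.2.2.natAbs ≤ W := by
    rw [hWe]; unfold wt
    exact Nat.le_mul_of_pos_left _ hq
  have hlogq : Nat.log 2 τ.1 ≤ L := by rw [hL]; exact Nat.log_mono_right hqW
  have hJ1L : J1 ≤ 8 * (L + 1) := by omega
  have h2l : W ^ 4 ≤ 2 ^ l := by
    have h1 : W ≤ 2 ^ (L + 1) := by rw [hL]; exact (Nat.lt_pow_succ_log_self (by norm_num) _).le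
    calc W ^ 4 ≤ (2 ^ (L + 1)) ^ 4 := Nat.pow_le_pow_left h1 4
      _ = 2 ^ l := by rw [← pow_mul, hl]; congr 1; ring
  have hscale : ∀ J', J1 ≤ J' → τ.1 * (1 + τ.2.2.natAbs) ^ 2 ≤ 2 ^ J' := by
    intro J' hJ'
    calc τ.1 * (1 + τ.2.2.natAbs) ^ 2 ≤ W * W ^ 2 :=
          Nat.mul_le_mul hqW (Nat.pow_le_pow_left hiW 2)
      _ = W ^ 3 := by ring
      _ ≤ W ^ 4 := Nat.pow_le_pow_right hW (by norm_num)
      _ ≤ 2 ^ l := h2l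
      _ ≤ 2 ^ J' := Nat.pow_le_pow_right (by norm_num) (by omega)
  have hscale2 : ∀ J', J1 ≤ J' → τ.1 ≤ 2 ^ J' := by
    intro J' hJ'
    refine le_trans ?_ (hscale J' hJ')
    exact Nat.le_mul_of_pos_right _ (by positivity)
  -- split
  rw [← Finset.sum_filter_add_sum_filter_not F (fun x => J x < J1)]
  obtain ⟨Fs, hFs⟩ : ∃ Fs, Fs = F.filter (fun x => J x < J1) := ⟨_, rfl⟩
  obtain ⟨Fl, hFl⟩ : ∃ Fl, Fl = F.filter (fun x => ¬ J x < J1) := ⟨_, rfl⟩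
  rw [← hFs, ← hFl]
  have hFsF : Fs ⊆ F := by rw [hFs]; exact Finset.filter_subset _ _
  have hFlF : Fl ⊆ F := by rw [hFl]; exact Finset.filter_subset _ _
  have hFsc : (Fs.card : ℝ) ≤ F.card := by exact_mod_cast Finset.card_le_card hFsF
  have hFlc : (Fl.card : ℝ) ≤ F.card := by exact_mod_cast Finset.card_le_card hFlF
  have hR0 : 0 ≤ ρ ^ (1 - ((2 * (κ + 1) : ℕ) : ℝ) / d) := Real.rpow_nonneg hρ _
  obtain ⟨R, hR⟩ : ∃ R, R = ρ ^ (1 - ((2 * (κ + 1) : ℕ) : ℝ) / d) := ⟨_, rfl⟩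
  have ps := small_scales (κ + 1) m C hC τ hq E Fs ρ hρ (hD.mono hFsF) J (fun x hx => hG x (hFsF hx))
    J1 (fun x hx => by rw [hFs] at hx; exact (Finset.mem_filter.1 hx).2) (by omega) hkd hmd
  -- dual hypotheses
  obtain ⟨U, hU0, hU1, hU2, hU3⟩ := hth τ hq
  have hi0 : (0 : ℝ) < ((1 + τ.2.2.natAbs : ℕ) : ℝ) := by positivity
  have hFlJ : ∀ x ∈ Fl, J1 ≤ J x := by
    intro x hx
    rw [hFl] at hx
    have := (Finset.mem_filter.1 hx).2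
    omega
  have H : DualHyp4 (κ + 1) m C' τ Fl J (8 ^ d * (Kt / ((1 + τ.2.2.natAbs : ℕ) : ℝ) ^ 5) + 2 * (6 * U) ^ d) j0 := by
    have hi1 : (1 : ℝ) ≤ ((1 + τ.2.2.natAbs : ℕ) : ℝ) := by
      exact_mod_cast (by omega : 1 ≤ 1 + τ.2.2.natAbs)
    refine ⟨hq, ?_, by positivity, ?_, ?_⟩
    · intro j hj
      have hsj := sj_ge τ.1 j hq (by omega)
      have hs2 : (τ.1 : ℝ) ^ 2 ≤ 4 * ((sj τ.1 j : ℕ) : ℝ) := by
        have f1 : τ.1 < 2 ^ (Nat.log 2 τ.1 + 1) := Nat.lt_pow_succ_log_self (by norm_num) _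
        have f2 : (2 ^ (Nat.log 2 τ.1 + 1)) ^ 2 ≤ 2 ^ j := by
          rw [← pow_mul]
          exact Nat.pow_le_pow_right (by norm_num) (by omega)
        have f3 : τ.1 ^ 2 ≤ (2 ^ (Nat.log 2 τ.1 + 1)) ^ 2 := Nat.pow_le_pow_left f1.le 2
        have f4 : τ.1 ^ 2 ≤ 4 * sj τ.1 j := by omega
        exact_mod_cast f4
      exact (Dl_rat5 κ m g hκ hg C hC hst τ.1 (sj τ.1 j) τ.2.1 hq hcop hsj.2 hs2).trans hrat'
    · refine le_trans ?_ hth'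
      have h1 := hU1 d hdA
      have h5 : Kt / ((1 + τ.2.2.natAbs : ℕ) : ℝ) ^ 5 ≤ Kt / ((1 + τ.2.2.natAbs : ℕ) : ℝ) ^ 4 := by
        refine div_le_div_of_nonneg_left (by linarith) (by positivity) ?_
        exact pow_le_pow_right₀ hi1 (by norm_num)
      calc (8 ^ d * (Kt / ((1 + τ.2.2.natAbs : ℕ) : ℝ) ^ 5) + 2 * (6 * U) ^ d) *
            ((1 + τ.2.2.natAbs : ℕ) : ℝ) ^ 4
          ≤ (8 ^ d * (Kt / ((1 + τ.2.2.natAbs : ℕ) : ℝ) ^ 4) + 2 * (6 * U) ^ d) *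
            ((1 + τ.2.2.natAbs : ℕ) : ℝ) ^ 4 := by gcongr
        _ = 8 ^ d * Kt + 2 * 6 ^ d * (U ^ d * ((1 + τ.2.2.natAbs : ℕ) : ℝ) ^ 4) := by
            rw [mul_pow]; field_simp
        _ ≤ 8 ^ d * Kt + 2 * 6 ^ d * Kt := by
            have := mul_le_mul_of_nonneg_left h1 (show (0 : ℝ) ≤ 2 * 6 ^ d by positivity)
            linarith
        _ = (8 ^ d + 2 * 6 ^ d) * Kt := by ring
    · intro F' hF' B G
      refine lam_dual (κ + 1) m τ.1 hq hm (by omega) F' B J (fun x hx => hscale2 _ (hFlJ x (hF' hx)))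
        (bet (κ + 1) τ) U _ hU0 ?_ ?_ G
      · intro x hx
        rw [le_div_iff₀ (by positivity)]
        exact hU2 (J x) (hscale _ (hFlJ x (hF' hx)))
      · intro x hx x' hx' hne h
        exact hU3 (J x) (J x') (hscale _ (hFlJ x (hF' hx))) (hscale _ (hFlJ x' (hF' hx'))) hne h
  have pl := large_scales4 hC'1 H (fun x hx => (hG x (hFlF hx)).mono hCC') E ρ hρ (hD.mono hFlF) l
    (by omega) (by omega) (fun x hx => by have := hFlJ x hx; omega) (by omega) hkd hmd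
  have hw5 := w5_pos τ hq
  have hw5' := w5_le τ
  rw [← hWe] at hw5'
  rw [← hWe, ← hR] at ps
  rw [← hR] at pl
  rw [← hR]
  rw [← hR] at hR0
  obtain ⟨Z, hZ⟩ : ∃ Z, Z = √((F.card : ℝ) * E.card * (R / w5 τ)) := ⟨_, rfl⟩
  have hZ0 : 0 ≤ Z := by rw [hZ]; exact Real.sqrt_nonneg _
  have hZs : √((Fs.card : ℝ) * E.card * (R / (W : ℝ) ^ 5)) ≤ Z := by
    rw [hZ]; refine Real.sqrt_le_sqrt ?_; gcongr
  have hZl : √((Fl.card : ℝ) * E.card * (R / w5 τ)) ≤ Z := by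
    rw [hZ]; refine Real.sqrt_le_sqrt ?_; gcongr
  have hlog := log_le_rpow W hW
  rw [← hL] at hlog
  -- Z (L+1) bound
  obtain ⟨V, hV⟩ : ∃ V, V = √((F.card : ℝ) * E.card * R) := ⟨_, rfl⟩
  have hV0 : 0 ≤ V := by rw [hV]; exact Real.sqrt_nonneg _
  obtain ⟨q, hqe⟩ : ∃ q : ℝ, q = (τ.1 : ℝ) := ⟨_, rfl⟩
  obtain ⟨b, hbe⟩ : ∃ b : ℝ, b = ((1 + τ.2.2.natAbs : ℕ) : ℝ) := ⟨_, rfl⟩
  have hq1 : 1 ≤ q := by rw [hqe]; exact_mod_cast hq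
  have hb1 : 1 ≤ b := by rw [hbe]; exact_mod_cast (by omega : 1 ≤ 1 + τ.2.2.natAbs)
  have hq0 : 0 < q := by linarith
  have hb0 : 0 < b := by linarith
  have hWqb : (W : ℝ) = q * b := by
    rw [hWe, hqe, hbe]; unfold wt; push_cast; ring
  have hZV : Z = V * (q ^ (-(5 / 2) : ℝ) * b ^ (-2 : ℝ)) := by
    rw [hZ, hV, ← mul_div_assoc, Real.sqrt_div (by positivity)]
    rw [div_eq_mul_inv]
    congr 1
    unfold w5
    rw [← hqe, ← hbe, Real.sqrt_mul (by positivity), mul_inv]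
    congr 1
    · rw [Real.sqrt_eq_rpow, ← Real.rpow_natCast, ← Real.rpow_mul hq0.le, ← Real.rpow_neg hq0.le]
      congr 1
      norm_num
    · rw [Real.sqrt_eq_rpow, ← Real.rpow_natCast, ← Real.rpow_mul hb0.le, ← Real.rpow_neg hb0.le]
      congr 1
      norm_num
  have hLZ : ((L + 1 : ℕ) : ℝ) * Z ≤ 6 * (wq τ * V) := by
    rw [hZV]
    have h1 : (W : ℝ) ^ ((1 : ℝ) / 4) * (q ^ (-(5 / 2) : ℝ) * b ^ (-2 : ℝ)) = wq τ := by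
      unfold wq
      rw [← hqe, ← hbe, hWqb, Real.mul_rpow hq0.le hb0.le]
      have e1 : q ^ ((1 : ℝ) / 4) * q ^ (-(5 / 2) : ℝ) = q ^ (-(9 / 4) : ℝ) := by
        rw [← Real.rpow_add hq0]; norm_num
      have e2 : b ^ ((1 : ℝ) / 4) * b ^ (-2 : ℝ) = b ^ (-(7 / 4) : ℝ) := by
        rw [← Real.rpow_add hb0]; norm_num
      rw [← e1, ← e2]; ring
    calc ((L + 1 : ℕ) : ℝ) * (V * (q ^ (-(5 / 2) : ℝ) * b ^ (-2 : ℝ)))
        ≤ (6 * (W : ℝ) ^ ((1 : ℝ) / 4)) * (V * (q ^ (-(5 / 2) : ℝ) * b ^ (-2 : ℝ))) :=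
          mul_le_mul_of_nonneg_right hlog (by positivity)
      _ = 6 * (((W : ℝ) ^ ((1 : ℝ) / 4) * (q ^ (-(5 / 2) : ℝ) * b ^ (-2 : ℝ))) * V) := by ring
      _ = _ := by rw [h1]
  obtain ⟨w', hw'⟩ : ∃ w' : ℝ, w' = wq τ := ⟨_, rfl⟩
  have hw'0 : 0 ≤ w' := by rw [hw']; exact wq_nonneg τ
  rw [← hV, ← hw']
  rw [← hw'] at hLZ
  -- error term
  have herr : (E.card : ℝ) * (d * 4 ^ (d - 1) * (2 * Real.pi * ((κ + 1 : ℕ) : ℝ) * (τ.2.2.natAbs + 1) + 4) *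
      (2 / 2 ^ l)) ≤ (d * 4 ^ (d - 1) * (2 * Real.pi * ((κ + 1 : ℕ) : ℝ) + 4) * 2) * (w' * E.card) := by
    have h1 : ((τ.2.2.natAbs : ℕ) : ℝ) + 1 ≤ W := by
      have : ((1 + τ.2.2.natAbs : ℕ) : ℝ) ≤ W := by exact_mod_cast hiW
      push_cast at this
      linarith
    have h2 : 2 * Real.pi * ((κ + 1 : ℕ) : ℝ) * ((τ.2.2.natAbs : ℕ) + 1) + 4 ≤
        (2 * Real.pi * ((κ + 1 : ℕ) : ℝ) + 4) * W := by
      have h3 : 2 * Real.pi * ((κ + 1 : ℕ) : ℝ) * (((τ.2.2.natAbs : ℕ) : ℝ) + 1) ≤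
          2 * Real.pi * ((κ + 1 : ℕ) : ℝ) * W := mul_le_mul_of_nonneg_left h1 (by positivity)
      linarith
    have h4 : (2 : ℝ) / 2 ^ l ≤ 2 / (W : ℝ) ^ 4 := by
      refine div_le_div_of_nonneg_left (by norm_num) (by positivity) ?_
      exact_mod_cast h2l
    have h5 : (W : ℝ) * (2 / (W : ℝ) ^ 4) ≤ 2 * w' := by
      have h6 : (W : ℝ) * (2 / (W : ℝ) ^ 4) = 2 * (W : ℝ) ^ (-3 : ℝ) := by
        rw [Real.rpow_neg hw0.le]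
        have : (W : ℝ) ^ (3 : ℝ) = (W : ℝ) ^ 3 := by exact_mod_cast Real.rpow_natCast (W : ℝ) 3
        rw [this]
        field_simp
      rw [h6]
      refine mul_le_mul_of_nonneg_left ?_ (by norm_num)
      rw [hw', hWqb, Real.mul_rpow hq0.le hb0.le]
      unfold wq
      rw [← hqe, ← hbe]
      refine mul_le_mul (Real.rpow_le_rpow_of_exponent_le hq1 (by norm_num))
        (Real.rpow_le_rpow_of_exponent_le hb1 (by norm_num)) (by positivity) (by positivity)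
    calc (E.card : ℝ) * (d * 4 ^ (d - 1) * (2 * Real.pi * ((κ + 1 : ℕ) : ℝ) * (τ.2.2.natAbs + 1) + 4) *
          (2 / 2 ^ l))
        ≤ (E.card : ℝ) * (d * 4 ^ (d - 1) * ((2 * Real.pi * ((κ + 1 : ℕ) : ℝ) + 4) * W) *
          (2 / (W : ℝ) ^ 4)) := by gcongr
      _ = (d * 4 ^ (d - 1) * (2 * Real.pi * ((κ + 1 : ℕ) : ℝ) + 4)) * ((W : ℝ) * (2 / (W : ℝ) ^ 4)) *
          E.card := by ring
      _ ≤ (d * 4 ^ (d - 1) * (2 * Real.pi * ((κ + 1 : ℕ) : ℝ) + 4)) * (2 * w') * E.card := by gcongr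
      _ = _ := by ring
  have hs2 : (J1 : ℝ) * (2 ^ d * C) * √((Fs.card : ℝ) * E.card * (R / (W : ℝ) ^ 5)) ≤
      8 * (2 ^ d * C) * (6 * (w' * V)) := by
    have h1 : (J1 : ℝ) ≤ 8 * ((L + 1 : ℕ) : ℝ) := by exact_mod_cast hJ1L
    calc (J1 : ℝ) * (2 ^ d * C) * √((Fs.card : ℝ) * E.card * (R / (W : ℝ) ^ 5))
        ≤ (8 * ((L + 1 : ℕ) : ℝ)) * (2 ^ d * C) * Z := by gcongr
      _ = 8 * (2 ^ d * C) * (((L + 1 : ℕ) : ℝ) * Z) := by ring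
      _ ≤ _ := mul_le_mul_of_nonneg_left hLZ (by positivity)
  have hl2 : (l : ℝ) * (6 * 32 ^ d * C' ^ 2) * √((Fl.card : ℝ) * E.card * (R / w5 τ)) ≤
      4 * (6 * 32 ^ d * C' ^ 2) * (6 * (w' * V)) := by
    have h1 : (l : ℝ) = 4 * ((L + 1 : ℕ) : ℝ) := by exact_mod_cast hl
    calc (l : ℝ) * (6 * 32 ^ d * C' ^ 2) * √((Fl.card : ℝ) * E.card * (R / w5 τ))
        ≤ (4 * ((L + 1 : ℕ) : ℝ)) * (6 * 32 ^ d * C' ^ 2) * Z := by rw [h1]; gcongr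
      _ = 4 * (6 * 32 ^ d * C' ^ 2) * (((L + 1 : ℕ) : ℝ) * Z) := by ring
      _ ≤ _ := mul_le_mul_of_nonneg_left hLZ (by positivity)
  have hfin := add_le_add ps pl
  refine hfin.trans ?_
  have e1 : 0 ≤ (6 * (8 * (2 ^ d * C) + 4 * (6 * 32 ^ d * C' ^ 2))) * (w' * (E.card : ℝ)) := by positivity
  have e2 : 0 ≤ (d * 4 ^ (d - 1) * (2 * Real.pi * ((κ + 1 : ℕ) : ℝ) + 4) * 2) * (w' * V) := by positivity
  have e3 : (6 * (8 * (2 ^ d * C) + 4 * (6 * 32 ^ d * C' ^ 2)) +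
      d * 4 ^ (d - 1) * (2 * Real.pi * ((κ + 1 : ℕ) : ℝ) + 4) * 2) * (w' * (V + E.card)) =
      8 * (2 ^ d * C) * (6 * (w' * V)) + 4 * (6 * 32 ^ d * C' ^ 2) * (6 * (w' * V)) +
      (6 * (8 * (2 ^ d * C) + 4 * (6 * 32 ^ d * C' ^ 2))) * (w' * (E.card : ℝ)) +
      (d * 4 ^ (d - 1) * (2 * Real.pi * ((κ + 1 : ℕ) : ℝ) + 4) * 2) * (w' * V) +
      (d * 4 ^ (d - 1) * (2 * Real.pi * ((κ + 1 : ℕ) : ℝ) + 4) * 2) * (w' * E.card) := by ring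
  rw [e3]
  linarith


end Pool.Agent.helper132_p
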