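import Pool.Agent.helper132_p.P15
import Pool.Agent.helper132_n.A8

/-! The main proposition and the endpoint bound in dimension `d > 2 k (k - 1)`. -/

namespace Pool.Agent.helper132_p

open Finset Pool.Agent.helper132_sph Pool.Agent.helper132_poly Pool.Agent.helper132_quad Pool.Agent.helper132_h Pool.Agent.helper132_n
open scoped ENNReal NNReal

/-- The main proposition. -/
theorem main_prop_t (κ m : ℕ) (hκ : 2 ≤ κ) (hm : 1 ≤ m) (t : ℝ) (ht0 : 0 < t) (C0 : ℝ)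
    (hC0' : 1 ≤ C0) (hst0 : Hs (κ + 1) m 5 C0) (Cs : ℝ) (hCs : 1 ≤ Cs) (e : ℝ) (he0 : 0 < e)
    (hms : ∀ (X : ℕ) (M : Finset ℕ), 1 ≤ X → Mset (κ + 1) X M →
      ∑ a ∈ M, Dr (κ + 1) X ((a : ℝ) / (X : ℝ) ^ (κ + 1)) t ^ (((κ + 1 : ℕ) : ℝ) + e) ≤ Cs * (X : ℝ) ^ (-e))
    (d : ℕ) (hd1 : 2 * (κ + 1) * m + 1 ≤ d) (hde : 2 * ((κ + 1 : ℕ) : ℝ) + 2 * e < d)
    (hdm : t * (2 * ((κ + 1 : ℕ) : ℝ) + 2 * e) ≤ d) (hdA : 4 * (κ + 1) ≤ d) : MainP (κ + 1) d := by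
  classical
  obtain ⟨C, hCC0, hcl⟩ := classify'' κ m 5 hκ (by norm_num) C0 hC0' hst0
  have hC : 1 ≤ C := hC0'.trans hCC0
  have hst : Hs (κ + 1) m 5 C := hst0.mono hCC0
  obtain ⟨Ks, hKs1, hKs⟩ := sum_wt4
  obtain ⟨K, hK1, hK⟩ := triple_prop4 κ m 5 hκ le_rfl hm C hC hst d hd1 hdA
  have hK0 : 0 ≤ K := by linarith
  have hC0 : 0 ≤ C := by linarith
  obtain ⟨z2, hz2⟩ : ∃ z2 : ℝ, z2 = 1 / (1 - 2 ^ (-e)) := ⟨_, rfl⟩
  have hz20 : 0 ≤ z2 := by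
    rw [hz2]
    have : (2 : ℝ) ^ (-e) < 1 := Real.rpow_lt_one_of_one_lt_of_neg (by norm_num) (by linarith)
    exact div_nonneg zero_le_one (by linarith)
  refine ⟨z2 * (2 ^ d * Cs) + K * Ks, ?_, ?_⟩
  · have h1 : (0 : ℝ) ≤ z2 * (2 ^ d * Cs) := by positivity
    have h2 : (1 : ℝ) * 1 ≤ K * Ks := mul_le_mul hK1 hKs1 zero_le_one hK0
    linarith
  intro E F ρ hρ hD J n
  obtain ⟨Mi, hMi⟩ : ∃ Mi : ℕ → ℕ → Prop, Mi = fun (n a : ℕ) => ∃ R : ℝ, 0 ≤ R ∧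
       Pool.Agent.helper132_poly.Minor (κ + 1) (2 ^ n) ((a : ℝ) / ((2 ^ n : ℕ) : ℝ) ^ (κ + 1)) R ∧
       ((2 ^ n : ℕ) : ℝ) ^ 5 ≤ 1024 * R ^ 10 := ⟨_, rfl⟩
  obtain ⟨M, hM⟩ : ∃ M : ℕ → Finset ℕ, M = fun n =>
    (range ((2 ^ n) ^ (κ + 1))).filter (fun a => Mi n a) := ⟨_, rfl⟩
  obtain ⟨N, hN⟩ : ∃ N : ℕ → Finset ℕ, N = fun n =>
    (range ((2 ^ n) ^ (κ + 1))).filter (fun a => ¬ Mi n a) := ⟨_, rfl⟩
  have hch : ∀ n a, ∃ τ : ℕ × ℤ × ℤ, a ∈ N n → GoodT (κ + 1) m C (2 ^ n) τ ∧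
      (a : ℤ) = τ.2.2 + (((2 ^ n : ℕ) : ℤ) ^ (κ + 1) * τ.2.1) / (τ.1 : ℤ) := by
    intro n a
    by_cases ha : a ∈ N n
    · rw [hN, Finset.mem_filter, Finset.mem_range] at ha
      rcases hcl (2 ^ n) Nat.one_le_two_pow a ha.1 with h | ⟨τ, h1, h2⟩
      · exact absurd (by rw [hMi]; exact h) ha.2
      · exact ⟨τ, fun _ => ⟨h1, h2⟩⟩
    · exact ⟨(0, 0, 0), fun h => absurd h ha⟩
  choose tau htau using hch
  obtain ⟨V, hV⟩ : ∃ V, V = √((F.card : ℝ) * E.card * ρ ^ (1 - ((2 * (κ + 1) : ℕ) : ℝ) / d)) := ⟨_, rfl⟩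
  have hV0 : 0 ≤ V := by rw [hV]; exact Real.sqrt_nonneg _
  have hR0 : 0 ≤ ρ ^ (1 - ((2 * (κ + 1) : ℕ) : ℝ) / d) := Real.rpow_nonneg hρ.le _
  -- frequency at triples
  have hfr : ∀ n, ∀ a ∈ N n, frq (κ + 1) (2 ^ n) (tau n a) = (a : ℝ) / (((2 ^ n : ℕ) : ℝ)) ^ (κ + 1) := by
    intro n a ha
    unfold frq
    rw [← (htau n a ha).2]
    simp
  have hinj : ∀ n, Set.InjOn (tau n) (N n : Set ℕ) := by
    intro n a ha b hb hab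
    have h1 := (htau n a ha).2
    have h2 := (htau n b hb).2
    rw [hab] at h1
    have : (a : ℤ) = b := h1.trans h2.symm
    exact_mod_cast this
  -- pointwise bound
  have hpt : ∀ x ∈ F, ((((2 ^ J x) ^ (κ + 1) : ℕ) : ℝ) * cnt (κ + 1) (2 ^ J x) E x (n x)) /
        (((2 ^ J x : ℕ) : ℝ)) ^ d ≤
      ∑ a ∈ M (J x), ‖Ts (κ + 1) (2 ^ J x) ((a : ℝ) / (((2 ^ J x : ℕ) : ℝ)) ^ (κ + 1)) E x‖ /
        (((2 ^ J x : ℕ) : ℝ)) ^ d +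
      ∑ τ ∈ (N (J x)).image (tau (J x)),
        ‖Ts (κ + 1) (2 ^ J x) (frq (κ + 1) (2 ^ J x) τ) E x‖ / (((2 ^ J x : ℕ) : ℝ)) ^ d := by
    intro x _
    have h1 := cnt_le (κ + 1) (2 ^ J x) Nat.one_le_two_pow E x (n x)
    rw [Finset.sum_image (hinj (J x))]
    have h2 : ∑ a ∈ N (J x), ‖Ts (κ + 1) (2 ^ J x) (frq (κ + 1) (2 ^ J x) (tau (J x) a)) E x‖ /
        (((2 ^ J x : ℕ) : ℝ)) ^ d =
        ∑ a ∈ N (J x), ‖Ts (κ + 1) (2 ^ J x) ((a : ℝ) / (((2 ^ J x : ℕ) : ℝ)) ^ (κ + 1)) E x‖ /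
        (((2 ^ J x : ℕ) : ℝ)) ^ d := by
      refine Finset.sum_congr rfl fun a ha => ?_
      rw [hfr _ a ha]
    rw [h2, ← Finset.sum_div, ← Finset.sum_div, ← add_div]
    refine div_le_div_of_nonneg_right ?_ (by positivity)
    refine h1.trans (le_of_eq ?_)
    rw [hM, hN]
    simp only
    rw [Finset.sum_filter_add_sum_filter_not]
  refine (Finset.sum_le_sum hpt).trans ?_
  rw [Finset.sum_add_distrib]
  have hminor := minor_part_t (κ + 1) t ht0 e he0 Cs hCs (by omega) E F ρ hρ hD J M (by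
    intro n
    refine hms (2 ^ n) (M n) Nat.one_le_two_pow ?_
    intro a ha
    rw [hM, Finset.mem_filter, Finset.mem_range] at ha
    refine ⟨ha.1, ?_⟩
    have h := ha.2
    rw [hMi] at h
    exact h) hde hdm
  rw [← hV, ← hz2] at hminor
  -- the triples
  obtain ⟨T, hT⟩ : ∃ T : Finset (ℕ × ℤ × ℤ), T = (F.image J).biUnion (fun n => (N n).image (tau n)) :=
    ⟨_, rfl⟩
  have hTgood : ∀ n, ∀ τ ∈ (N n).image (tau n), GoodT (κ + 1) m C (2 ^ n) τ := by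
    intro n τ hτ
    rw [Finset.mem_image] at hτ
    obtain ⟨a, ha, rfl⟩ := hτ
    exact (htau n a ha).1
  have hmajor : ∑ x ∈ F, ∑ τ ∈ (N (J x)).image (tau (J x)),
        ‖Ts (κ + 1) (2 ^ J x) (frq (κ + 1) (2 ^ J x) τ) E x‖ / (((2 ^ J x : ℕ) : ℝ)) ^ d ≤
      K * Ks * (V + E.card) := by
    have hsw : ∑ x ∈ F, ∑ τ ∈ (N (J x)).image (tau (J x)),
        ‖Ts (κ + 1) (2 ^ J x) (frq (κ + 1) (2 ^ J x) τ) E x‖ / (((2 ^ J x : ℕ) : ℝ)) ^ d =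
        ∑ τ ∈ T, ∑ x ∈ F.filter (fun x => τ ∈ (N (J x)).image (tau (J x))),
        ‖Ts (κ + 1) (2 ^ J x) (frq (κ + 1) (2 ^ J x) τ) E x‖ / (((2 ^ J x : ℕ) : ℝ)) ^ d := by
      refine Finset.sum_comm' ?_
      intro x τ
      rw [Finset.mem_filter, hT, Finset.mem_biUnion]
      constructor
      · rintro ⟨h1, h2⟩
        exact ⟨⟨h1, h2⟩, J x, Finset.mem_image_of_mem J h1, h2⟩
      · rintro ⟨⟨h1, h2⟩, _⟩
        exact ⟨h1, h2⟩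
    rw [hsw]
    have hone : ∀ τ ∈ T, ∑ x ∈ F.filter (fun x => τ ∈ (N (J x)).image (tau (J x))),
        ‖Ts (κ + 1) (2 ^ J x) (frq (κ + 1) (2 ^ J x) τ) E x‖ / (((2 ^ J x : ℕ) : ℝ)) ^ d ≤
        wq τ * (K * (V + E.card)) := by
      intro τ _
      have h1 := hK τ E (F.filter (fun x => τ ∈ (N (J x)).image (tau (J x)))) ρ hρ.le
        (hD.mono (Finset.filter_subset _ _)) J (by
          intro x hx
          exact hTgood _ _ (Finset.mem_filter.1 hx).2)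
      refine h1.trans ?_
      have h2 : √(((F.filter (fun x => τ ∈ (N (J x)).image (tau (J x)))).card : ℝ) * E.card *
          ρ ^ (1 - ((2 * (κ + 1) : ℕ) : ℝ) / d)) ≤ V := by
        rw [hV]
        refine Real.sqrt_le_sqrt ?_
        have h3 : ((F.filter (fun x => τ ∈ (N (J x)).image (tau (J x)))).card : ℝ) ≤ F.card := by
          exact_mod_cast Finset.card_filter_le _ _
        gcongr
      have h4 : 0 ≤ wq τ := wq_nonneg τ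
      calc _ ≤ K * (wq τ * (V + E.card)) := by gcongr
        _ = _ := by ring
    refine (Finset.sum_le_sum hone).trans ?_
    rw [← Finset.sum_mul]
    have h5 := hKs T (by
      intro τ hτ
      rw [hT, Finset.mem_biUnion] at hτ
      obtain ⟨n, _, hn⟩ := hτ
      have := hTgood n τ hn
      exact ⟨this.q_pos, this.c_ge, this.c_le⟩)
    calc _ ≤ Ks * (K * (V + E.card)) := mul_le_mul_of_nonneg_right h5 (by positivity)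
      _ = _ := by ring
  rw [← hV]
  have h6 : z2 * (2 ^ d * Cs) * V ≤ z2 * (2 ^ d * Cs) * (V + E.card) := by
    refine mul_le_mul_of_nonneg_left ?_ (by positivity)
    have : (0 : ℝ) ≤ E.card := Nat.cast_nonneg _
    linarith
  linarith



/-- The endpoint bound in all dimensions `d ≥ 2 k (k - 1) + 1`. -/
theorem endpoint_p (k : ℕ) (hk : 3 ≤ k) (d : ℕ) (hd : 2 * k * (k - 1) + 1 ≤ d) :
    ∃ C : ℝ≥0, ∀ f : (Fin d → ℤ) → ℂ,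
      weakNorm ((d : ℝ) / (d - k)) (sphMax k f) ≤
        C * lorentzNorm ((d : ℝ) / (d - k)) (fun x => ENNReal.ofReal ‖f x‖) := by
  obtain ⟨κ, rfl⟩ : ∃ κ, k = κ + 1 := ⟨k - 1, by omega⟩
  have hκ : 2 ≤ κ := by omega
  rw [Nat.add_sub_cancel] at hd
  have e2 : 2 * (κ + 1) * κ = 2 * κ * κ + 2 * κ := by ring
  have e3 : 2 * κ ≤ κ * κ := Nat.mul_le_mul_right _ hκ
  have e4 : 2 * κ * κ = 2 * (κ * κ) := by ring
  have e5 : (κ + 1) ^ 2 = κ * κ + 2 * κ + 1 := by ring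
  have e6 : 2 * (κ + 1) * κ = 2 * (κ * κ) + 2 * κ := by ring
  refine endpoint_abs κ hκ d (by omega) ?_ (sphL_all (κ + 1) hk d (by omega))
  have hκR : (2 : ℝ) ≤ κ := by exact_mod_cast hκ
  have hκ0 : (0 : ℝ) < κ := by linarith
  have hk0 : (0 : ℝ) < ((κ + 1 : ℕ) : ℝ) := by exact_mod_cast Nat.succ_pos κ
  have hk3 : (3 : ℝ) ≤ ((κ + 1 : ℕ) : ℝ) := by push_cast; linarith
  obtain ⟨w, hw⟩ : ∃ w : ℝ, w = 1 / (2 * ((κ : ℝ) * ((κ + 1 : ℕ) : ℝ))) := ⟨_, rfl⟩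
  have hw0 : 0 < w := by rw [hw]; positivity
  obtain ⟨t, ht⟩ : ∃ t : ℝ, t = (2 * ((κ : ℝ) * ((κ + 1 : ℕ) : ℝ)) + 1) / (2 * (((κ + 1 : ℕ) : ℝ) + w / 4)) := ⟨_, rfl⟩
  have ht0 : 0 < t := by rw [ht]; positivity
  have htk : t * (2 * ((κ + 1 : ℕ) : ℝ) + 2 * (w / 4)) = 2 * ((κ : ℝ) * ((κ + 1 : ℕ) : ℝ)) + 1 := by
    have e : 2 * ((κ + 1 : ℕ) : ℝ) + 2 * (w / 4) = 2 * (((κ + 1 : ℕ) : ℝ) + w / 4) := by ring
    rw [e, ht]
    have : 2 * (((κ + 1 : ℕ) : ℝ) + w / 4) ≠ 0 := by positivity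
    field_simp
  have hs := Pool.Agent.helper132_dc.sk_pos κ (by omega)
  have hs2 := Pool.Agent.helper132_dc.two_sk κ
  obtain ⟨CJ1, hCJ1, hJ1⟩ := Pool.Agent.helper132_dc.vmvt κ (by omega) (1 / 24) (by norm_num)
  obtain ⟨CJ2, hCJ2, hJ2⟩ := Pool.Agent.helper132_dc.vmvt κ (by omega) (w / 32) (by positivity)
  obtain ⟨C0, hC0, hst⟩ := Hs_p κ _ hκ hs hs2 CJ1 hCJ1 hJ1
  obtain ⟨Cs, hCs, hmin⟩ := minor_t κ _ hκ hs hs2 w hw CJ2 hCJ2 hJ2 t ht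
  have hdR : 2 * ((κ : ℝ) * ((κ + 1 : ℕ) : ℝ)) + 1 ≤ d := by
    have : 2 * (κ * (κ + 1)) + 1 ≤ d := by
      have e : 2 * (κ * (κ + 1)) = 2 * (κ + 1) * κ := by ring
      rw [e]; exact hd
    exact_mod_cast this
  refine main_prop_t κ κ hκ (by omega) t ht0 C0 hC0 hst Cs hCs (w / 4) (by positivity) hmin d hd ?_ ?_ (by omega)
  · have hw1 : w ≤ 1 := by
      rw [hw, div_le_one (by positivity)]
      nlinarith
    have h1 : 2 * ((2 : ℝ) * ((κ + 1 : ℕ) : ℝ)) ≤ 2 * ((κ : ℝ) * ((κ + 1 : ℕ) : ℝ)) := by gcongr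
    linarith
  · rw [htk]; exact hdR

end Pool.Agent.helper132_p
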