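import Pool.Agent.helper132_p.P1

/-! Major arc bounds with the improved exponents. -/

namespace Pool.Agent.helper132_p

open Finset Polynomial Pool.Agent.helper132_sph Pool.Agent.helper132_poly Pool.Agent.helper132_h

/-- the general major arc bound. -/
theorem major_gen_nu (D ν : ℕ) (hD : 1 ≤ D) (hν : D ≤ ν) (hcsb : CSB D ν) (ε : ℝ) (hε : 0 < ε) (hε1 : ε ≤ 1) (L : ℕ) (hL : 1 ≤ L) (V : ℝ) (hV1 : 1 ≤ V) (hLV : (L : ℝ) ≤ V) :
    ∃ K : ℝ, 1 ≤ K ∧ ∀ (X : ℕ) (_ : 1 ≤ X) (f : ℤ[X]) (_ : f.natDegree ≤ D) (_ : f.coeff D = L) (a b : ℤ)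
      (_ : b - a ≤ X) (_ : ∀ n ∈ Ico a b, |((f.eval (n + 1) : ℤ) : ℝ) - ((f.eval n : ℤ) : ℝ)| ≤ V * (X : ℝ) ^ (D - 1))
      (q : ℕ) (_ : 1 ≤ q) (β : ℤ) (_ : IsCoprime β (q : ℤ)) (θ : ℝ)
      (_ : 2 * V * (q * (1 + |θ| * (X : ℝ) ^ D)) ≤ X),
      ∃ w : ℝ, 0 ≤ w ∧ w ≤ 1 ∧ ‖∑ n ∈ Ico a b, ec (((β : ℝ) / q + θ) * ((f.eval n : ℤ) : ℝ))‖ / X ≤
        w + K * (q * (1 + |θ| * (X : ℝ) ^ D)) / X ∧
        w ^ ν * (q * (1 + |θ| * (X : ℝ) ^ D)) ^ (1 - ε) ≤ K := by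
  obtain ⟨Kc, hKc1, hKc⟩ := hcsb ε hε
  have hpi := Real.pi_pos
  obtain ⟨D', rfl⟩ : ∃ D', D = D' + 1 := ⟨D - 1, by omega⟩
  obtain ⟨Kv, hKv⟩ : ∃ Kv : ℝ, Kv = (10 * (D' : ℝ) + 4) ^ (D' + 1) := ⟨_, rfl⟩
  have hKv0 : 0 ≤ Kv := by rw [hKv]; positivity
  refine ⟨(L * Kc) * (1 + Kv) + 2 * (1 + 2 * Real.pi * V), ?_, ?_⟩
  · have h1 : (0 : ℝ) ≤ (L * Kc) * (1 + Kv) := by positivity
    have h2 : (0 : ℝ) ≤ 2 * Real.pi * V := by positivity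
    linarith
  intro X hX f hdeg hcoef a b hab hinc q hq β hβ θ hR
  have hXR : (1 : ℝ) ≤ X := by exact_mod_cast hX
  have hX0 : (0 : ℝ) < X := by linarith
  have hqR : (1 : ℝ) ≤ q := by exact_mod_cast hq
  have hq0 : (0 : ℝ) < q := by linarith
  have hLR : (1 : ℝ) ≤ L := by exact_mod_cast hL
  obtain ⟨t, ht⟩ : ∃ t : ℝ, t = |θ| * (X : ℝ) ^ (D' + 1) := ⟨_, rfl⟩
  have ht0 : 0 ≤ t := by rw [ht]; positivity
  rw [← ht] at hR ⊢
  obtain ⟨R, hRd⟩ : ∃ R : ℝ, R = q * (1 + t) := ⟨_, rfl⟩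
  rw [← hRd] at hR ⊢
  have hR1 : 1 ≤ R := by
    rw [hRd]
    calc (1 : ℝ) = 1 * 1 := by ring
      _ ≤ q * (1 + t) := mul_le_mul hqR (by linarith) zero_le_one (by linarith)
  have htR : t ≤ R := by
    rw [hRd]
    calc t ≤ 1 * (1 + t) := by linarith
      _ ≤ q * (1 + t) := mul_le_mul_of_nonneg_right hqR (by linarith)
  have hap := ap_sum q hq β θ f a b X hab (V * (X : ℝ) ^ (D' + 1 - 1)) (by positivity) hinc
  rw [Nat.add_sub_cancel] at hap hinc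
  obtain ⟨u, hu⟩ : ∃ u : ℝ, u = ‖cs q (C β * f)‖ / q := ⟨_, rfl⟩
  obtain ⟨v, hv⟩ : ∃ v : ℝ, v = ‖∑ n ∈ Ico a b, ec (θ * ((f.eval n : ℤ) : ℝ))‖ / X := ⟨_, rfl⟩
  have hu0 : 0 ≤ u := by rw [hu]; positivity
  have hu1 : u ≤ 1 := by rw [hu, div_le_one hq0]; exact norm_cs_le _ _
  have hv0 : 0 ≤ v := by rw [hv]; positivity
  have hv1 : v ≤ 1 := by
    rw [hv, div_le_one hX0]
    exact norm_sum_ec_le a b (fun n => θ * ((f.eval n : ℤ) : ℝ)) X hab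
  have hvX : ‖∑ n ∈ Ico a b, ec (θ * ((f.eval n : ℤ) : ℝ))‖ = v * X := by rw [hv]; field_simp
  rw [← hu, hvX] at hap
  refine ⟨u * v, by positivity, mul_le_one₀ hu1 hv0 hv1, ?_, ?_⟩
  · rw [div_le_iff₀ hX0]
    refine hap.trans ?_
    have e1 : (u * v + ((L * Kc) * (1 + Kv) + 2 * (1 + 2 * Real.pi * V)) * R / X) * X =
        u * (v * X) + ((L * Kc) * (1 + Kv) + 2 * (1 + 2 * Real.pi * V)) * R := by field_simp
    rw [e1]
    have e2 : (X : ℝ) * (2 * Real.pi * (|θ| * (V * (X : ℝ) ^ D'))) = 2 * Real.pi * V * t := by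
      rw [ht, pow_succ]; ring
    rw [e2]
    have h1 : 2 * (q : ℝ) * (1 + 2 * Real.pi * V * t) ≤ 2 * (1 + 2 * Real.pi * V) * R := by
      rw [hRd]
      have h2 : (1 : ℝ) + 2 * Real.pi * V * t ≤ (1 + 2 * Real.pi * V) * (1 + t) := by
        have : 0 ≤ 2 * Real.pi * V := by positivity
        have e3 : (1 + 2 * Real.pi * V) * (1 + t) = 1 + 2 * Real.pi * V * t + (t + 2 * Real.pi * V) := by ring
        rw [e3]; linarith
      calc 2 * (q : ℝ) * (1 + 2 * Real.pi * V * t) ≤ 2 * q * ((1 + 2 * Real.pi * V) * (1 + t)) :=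
            mul_le_mul_of_nonneg_left h2 (by positivity)
        _ = _ := by ring
    have h3 : 0 ≤ (L * Kc) * (1 + Kv) * R := by positivity
    have e4 : ((L * Kc) * (1 + Kv) + 2 * (1 + 2 * Real.pi * V)) * R = (L * Kc) * (1 + Kv) * R + 2 * (1 + 2 * Real.pi * V) * R := by
      ring
    rw [e4]
    linarith
  · have hcs := hKc q hq (C β * f) ((Polynomial.natDegree_C_mul_le _ _).trans hdeg)
    rw [← hu, Polynomial.coeff_C_mul, hcoef] at hcs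
    have hgcd : ((Int.gcd (β * (L : ℤ)) (q : ℤ) : ℕ) : ℝ) ≤ L := by
      have h1 : Int.gcd (β * (L : ℤ)) (q : ℤ) ∣ L := by
        have h2 : ((Int.gcd (β * (L : ℤ)) (q : ℤ) : ℕ) : ℤ) ∣ β * (L : ℤ) := Int.gcd_dvd_left _ _
        have h3 : ((Int.gcd (β * (L : ℤ)) (q : ℤ) : ℕ) : ℤ) ∣ (q : ℤ) := Int.gcd_dvd_right _ _
        have h4 : IsCoprime ((Int.gcd (β * (L : ℤ)) (q : ℤ) : ℕ) : ℤ) β := (IsCoprime.of_isCoprime_of_dvd_right hβ h3).symm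
        exact_mod_cast h4.dvd_of_dvd_mul_left h2
      exact_mod_cast Nat.le_of_dvd (by omega) h1
    have hcs2 : u ^ ν * (q : ℝ) ^ (1 - ε) ≤ L * Kc :=
      hcs.trans (mul_le_mul_of_nonneg_right hgcd (by linarith))
    -- van der Corput
    have hPP : PP (D' + 1) (θ * L) (fun n : ℤ => θ * ((f.eval n : ℤ) : ℝ)) := by
      refine ⟨fun j => θ * ((f.coeff j : ℤ) : ℝ), fun n => ?_⟩
      beta_reduce
      rw [Polynomial.eval_eq_sum_range' (Nat.lt_succ_of_le hdeg) n, Finset.sum_range_succ, hcoef]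
      push_cast
      rw [mul_add, Finset.mul_sum]
      have : ∑ i ∈ range (D' + 1), θ * ((f.coeff i : ℝ) * (n : ℝ) ^ i) = ∑ i ∈ range (D' + 1), θ * (f.coeff i : ℝ) * (n : ℝ) ^ i :=
        Finset.sum_congr rfl fun i _ => by ring
      rw [this]
      ring
    have hRV : V * R / X ≤ 1 / 2 := by
      rw [div_le_iff₀ hX0]; linarith
    have hinc2 : ∀ n ∈ Ico a b, |(fun n : ℤ => θ * ((f.eval n : ℤ) : ℝ)) (n + 1) - (fun n : ℤ => θ * ((f.eval n : ℤ) : ℝ)) n| ≤ 1 / 2 := by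
      intro n hn
      beta_reduce
      rw [← mul_sub, abs_mul]
      calc |θ| * |((f.eval (n + 1) : ℤ) : ℝ) - ((f.eval n : ℤ) : ℝ)| ≤ |θ| * (V * (X : ℝ) ^ D') :=
            mul_le_mul_of_nonneg_left (hinc n hn) (abs_nonneg _)
        _ = V * t / X := by rw [ht, pow_succ]; field_simp
        _ ≤ V * R / X := by gcongr
        _ ≤ 1 / 2 := hRV
    have hXD : (1 : ℝ) ≤ (X : ℝ) ^ D' := one_le_pow₀ hXR
    have hA1 : |θ * L| ≤ 1 := by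
      rw [abs_mul, abs_of_nonneg (show (0 : ℝ) ≤ L by linarith)]
      have h1 : |θ| * X ≤ t := by
        rw [ht, pow_succ]
        calc |θ| * X = |θ| * (1 * X) := by ring
          _ ≤ |θ| * ((X : ℝ) ^ D' * X) := by gcongr
      have h2 : |θ| * L * X ≤ 1 * X := by
        calc |θ| * L * X = L * (|θ| * X) := by ring
          _ ≤ V * R := mul_le_mul hLV (h1.trans htR) (by positivity) (by linarith)
          _ ≤ 1 * X := by linarith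
      exact le_of_mul_le_mul_right h2 hX0
    have hvdc := vdc D' (θ * L) (fun n : ℤ => θ * ((f.eval n : ℤ) : ℝ)) a b hPP hinc2 hA1
    rw [hvX, ← hKv, abs_mul, abs_of_nonneg (show (0 : ℝ) ≤ L by linarith), mul_pow] at hvdc
    have hvt : v ^ (D' + 1) * t ≤ Kv := by
      calc v ^ (D' + 1) * t ≤ (v ^ (D' + 1) * t) * L := le_mul_of_one_le_right (by positivity) hLR
        _ = v ^ (D' + 1) * (X : ℝ) ^ (D' + 1) * (|θ| * L) := by rw [ht]; ring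
        _ ≤ Kv := hvdc
    have hvt2 : v ^ ν * (1 + t) ^ (1 - ε) ≤ 1 + Kv := by
      calc v ^ ν * (1 + t) ^ (1 - ε) ≤ v ^ (D' + 1) * (1 + t) := by
            refine mul_le_mul (pow_le_pow_of_le_one hv0 hv1 (by omega)) ?_ (by positivity) (by positivity)
            calc (1 + t) ^ (1 - ε) ≤ (1 + t) ^ (1 : ℝ) := Real.rpow_le_rpow_of_exponent_le (by linarith) (by linarith)
              _ = 1 + t := Real.rpow_one _
        _ = v ^ (D' + 1) + v ^ (D' + 1) * t := by ring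
        _ ≤ 1 + Kv := add_le_add (pow_le_one₀ hv0 hv1) hvt
    have hRpow : R ^ (1 - ε) = (q : ℝ) ^ (1 - ε) * (1 + t) ^ (1 - ε) := by
      rw [hRd, Real.mul_rpow hq0.le (by linarith)]
    calc (u * v) ^ ν * R ^ (1 - ε)
        = (u ^ ν * (q : ℝ) ^ (1 - ε)) * (v ^ ν * (1 + t) ^ (1 - ε)) := by
          rw [hRpow, mul_pow]; ring
      _ ≤ (L * Kc) * (1 + Kv) := mul_le_mul hcs2 hvt2 (by positivity) (by positivity)
      _ ≤ _ := by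
          have : 0 ≤ 2 * (1 + 2 * Real.pi * V) := by positivity
          linarith


/-- power form of the major arc bound. -/
theorem major_pow_nu (D ν : ℕ) (hD : 1 ≤ D) (hν : D ≤ ν) (hcsb : CSB D ν) (L : ℕ) (hL : 1 ≤ L) (V : ℝ) (hV1 : 1 ≤ V) (hLV : (L : ℝ) ≤ V) (M : ℝ) (hM : 1 ≤ M) :
    ∃ K : ℝ, 1 ≤ K ∧ ∀ (X : ℕ) (_ : 1 ≤ X) (f : ℤ[X]) (_ : f.natDegree ≤ D) (_ : f.coeff D = L) (a b : ℤ)
      (_ : b - a ≤ X) (_ : ∀ n ∈ Ico a b, |((f.eval (n + 1) : ℤ) : ℝ) - ((f.eval n : ℤ) : ℝ)| ≤ V * (X : ℝ) ^ (D - 1))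
      (q : ℕ) (_ : 1 ≤ q) (β : ℤ) (_ : IsCoprime β (q : ℤ)) (θ : ℝ)
      (_ : (q * (1 + |θ| * (X : ℝ) ^ D)) ^ (12 * ν + 11) ≤ M * (X : ℝ) ^ (12 * ν)),
      (‖∑ n ∈ Ico a b, ec (((β : ℝ) / q + θ) * ((f.eval n : ℤ) : ℝ))‖ / X) ^ (12 * ν) *
        (q * (1 + |θ| * (X : ℝ) ^ D)) ^ 11 ≤ K := by
  obtain ⟨K0, hK0, hK⟩ := major_gen_nu D ν hD hν hcsb (1 / 12) (by norm_num) (by norm_num) L hL V hV1 hLV
  obtain ⟨N, hN⟩ : ∃ N, N = 12 * ν := ⟨_, rfl⟩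
  refine ⟨2 ^ N * (K0 ^ 12 + K0 ^ N * M) + M * (2 * V) ^ N, ?_, ?_⟩
  · have h1 : 1 ≤ M * (2 * V) ^ N := one_le_mul_of_one_le_of_one_le hM (one_le_pow₀ (by linarith))
    have h2 : 0 ≤ 2 ^ N * (K0 ^ 12 + K0 ^ N * M) := by positivity
    linarith
  intro X hX f hdeg hcoef a b hab hinc q hq β hβ θ hR
  have hXR : (1 : ℝ) ≤ X := by exact_mod_cast hX
  have hX0 : (0 : ℝ) < X := by linarith
  have hqR : (1 : ℝ) ≤ q := by exact_mod_cast hq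
  have hpos : (0 : ℝ) ≤ |θ| * (X : ℝ) ^ D := by positivity
  obtain ⟨R, hRd⟩ : ∃ R : ℝ, R = q * (1 + |θ| * (X : ℝ) ^ D) := ⟨_, rfl⟩
  have hR1 : 1 ≤ R := by
    rw [hRd]; exact one_le_mul_of_one_le_of_one_le hqR (by linarith)
  obtain ⟨z, hz⟩ : ∃ z : ℝ, z = ‖∑ n ∈ Ico a b, ec (((β : ℝ) / q + θ) * ((f.eval n : ℤ) : ℝ))‖ / X := ⟨_, rfl⟩
  have hz0 : 0 ≤ z := by rw [hz]; positivity
  have hz1 : z ≤ 1 := by
    rw [hz, div_le_one hX0]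
    exact norm_sum_ec_le a b (fun n => ((β : ℝ) / q + θ) * ((f.eval n : ℤ) : ℝ)) X hab
  rw [← hRd, ← hz]
  rw [← hRd] at hR
  rw [← hN] at hR ⊢
  rcases le_or_gt (2 * V * R) X with h | h
  · obtain ⟨w, hw0, hw1, hw2, hw3⟩ := hK X hX f hdeg hcoef a b hab hinc q hq β hβ θ (by rw [← hRd]; exact h)
    rw [← hz, ← hRd] at hw2
    rw [← hRd] at hw3
    have h1 : w ^ N * R ^ 11 ≤ K0 ^ 12 := by
      have h2 : (w ^ ν * R ^ ((1 : ℝ) - 1 / 12)) ^ 12 ≤ K0 ^ 12 := pow_le_pow_left₀ (by positivity) hw3 12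
      rw [mul_pow, ← pow_mul, mul_comm ν 12, ← hN, ← Real.rpow_natCast (R ^ ((1 : ℝ) - 1 / 12)) 12,
        ← Real.rpow_mul (by linarith)] at h2
      have e : ((1 : ℝ) - 1 / 12) * ((12 : ℕ) : ℝ) = ((11 : ℕ) : ℝ) := by norm_num
      rw [e, Real.rpow_natCast] at h2
      exact h2
    have h3 : z ^ N ≤ 2 ^ N * (w ^ N + (K0 * R / X) ^ N) := by
      calc z ^ N ≤ (w + K0 * R / X) ^ N := pow_le_pow_left₀ hz0 hw2 N
        _ ≤ 2 ^ N * (w ^ N + (K0 * R / X) ^ N) := add_pow_le_two w (K0 * R / X) hw0 (by positivity) N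
    calc z ^ N * R ^ 11 ≤ (2 ^ N * (w ^ N + (K0 * R / X) ^ N)) * R ^ 11 := mul_le_mul_of_nonneg_right h3 (by positivity)
      _ = 2 ^ N * (w ^ N * R ^ 11 + K0 ^ N * (R ^ (N + 11) / (X : ℝ) ^ N)) := by
          rw [div_pow, mul_pow, pow_add]; ring
      _ ≤ 2 ^ N * (K0 ^ 12 + K0 ^ N * M) := by
          have h4 : R ^ (N + 11) / (X : ℝ) ^ N ≤ M := by
            rw [div_le_iff₀ (by positivity)]; exact hR
          gcongr
      _ ≤ _ := by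
          have : 0 ≤ M * (2 * V) ^ N := by positivity
          linarith
  · have h1 : R ^ 11 ≤ M * (2 * V) ^ N := by
      have h2 : (X : ℝ) ^ N ≤ (2 * V * R) ^ N := pow_le_pow_left₀ hX0.le h.le N
      have h3 : R ^ N * R ^ 11 ≤ R ^ N * (M * (2 * V) ^ N) := by
        calc R ^ N * R ^ 11 = R ^ (N + 11) := by rw [pow_add]
          _ ≤ M * (X : ℝ) ^ N := hR
          _ ≤ M * (2 * V * R) ^ N := mul_le_mul_of_nonneg_left h2 (by linarith)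
          _ = _ := by rw [mul_pow]; ring
      exact le_of_mul_le_mul_left h3 (by positivity)
    calc z ^ N * R ^ 11 ≤ 1 * R ^ 11 := mul_le_mul_of_nonneg_right (pow_le_one₀ hz0 hz1) (by positivity)
      _ ≤ M * (2 * V) ^ N := by rw [one_mul]; exact h1
      _ ≤ _ := by
          have : 0 ≤ 2 ^ N * (K0 ^ 12 + K0 ^ N * M) := by positivity
          linarith

/-- correlations on major arcs. -/
theorem dl_major_nu (κ ν : ℕ) (hκ : 1 ≤ κ) (hν : κ ≤ ν) (hcsb : CSB κ ν) (M : ℝ) (hM : 1 ≤ M) :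
    ∃ K : ℝ, 1 ≤ K ∧ ∀ (X : ℕ) (_ : 1 ≤ X) (α : ℝ) (h : ℤ) (q : ℕ) (_ : 1 ≤ q) (β : ℤ) (_ : IsCoprime β (q : ℤ))
      (_ : (q * (1 + |h * α - β / q| * (X : ℝ) ^ κ)) ^ (12 * ν + 11) ≤ M * (X : ℝ) ^ (12 * ν)),
      dl (κ + 1) X α h ^ (12 * ν) * (q * (1 + |h * α - β / q| * (X : ℝ) ^ κ)) ^ 11 ≤ K := by
  have hV : (((κ + 1 : ℕ)) : ℝ) ≤ (((κ + 1 : ℕ)) : ℝ) ^ 2 := by
    have : (1 : ℝ) ≤ (((κ + 1 : ℕ)) : ℝ) := by exact_mod_cast (by omega : 1 ≤ κ + 1)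
    exact le_self_pow₀ this (by norm_num)
  have hV1 : (1 : ℝ) ≤ (((κ + 1 : ℕ)) : ℝ) ^ 2 := one_le_pow₀ (by exact_mod_cast (by omega : 1 ≤ κ + 1))
  obtain ⟨K, hK1, hK⟩ := major_pow_nu κ ν hκ hν hcsb (κ + 1) (by omega) ((((κ + 1 : ℕ)) : ℝ) ^ 2) hV1 hV M hM
  refine ⟨K, hK1, ?_⟩
  intro X hX α h q hq β hβ hR
  have h1 := hK X hX (Qh (κ + 1) h) (Qh_deg (κ + 1) h) (Qh_coeff (κ + 1) h) (max (0 : ℤ) (0 - h)) (min (X : ℤ) (X - h)) (by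
      have := min_le_left (X : ℤ) (X - h)
      have := le_max_left (0 : ℤ) (0 - h)
      linarith) (by
      intro n hn
      rw [Finset.mem_Ico] at hn
      have a1 := le_max_left (0 : ℤ) (0 - h)
      have a2 := le_max_right (0 : ℤ) (0 - h)
      have a3 := min_le_left (X : ℤ) (X - h)
      have a4 := min_le_right (X : ℤ) (X - h)
      exact Qh_inc (κ + 1) X (by omega) h n (by omega) (by omega) (by omega) (by omega))
    q hq β hβ (h * α - β / q) hR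
  have h2 : ‖∑ n ∈ Ico (max (0 : ℤ) (0 - h)) (min (X : ℤ) (X - h)),
      ec (((β : ℝ) / q + (h * α - β / q)) * (((Qh (κ + 1) h).eval n : ℤ) : ℝ))‖ / X = dl (κ + 1) X α h := by
    unfold dl Dk
    congr 2
    refine Finset.sum_congr rfl fun n _ => ?_
    congr 1
    have h3 := Qh_eval (κ + 1) h n
    have h4 : (((Qh (κ + 1) h).eval n : ℤ) : ℝ) * h = ((n : ℝ) + h) ^ (κ + 1) - (n : ℝ) ^ (κ + 1) := by exact_mod_cast h3
    push_cast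
    linear_combination α * h4
  rw [h2] at h1
  exact h1

end Pool.Agent.helper132_p
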