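import Pool.Agent.helper132_p.P4

/-! Counting the shifts of a given level. -/

namespace Pool.Agent.helper132_p

open Finset Pool.Agent.helper132_sph Pool.Agent.helper132_poly Pool.Agent.helper132_quad Pool.Agent.helper132_h

lemma KX_lower (L : ℕ) (hL : 1 ≤ L) (θ : ℝ) (h : |θ| * (2 * L) ≤ 1 / 8) : (L : ℝ) ≤ KX L θ := by
  have hLR : (1 : ℝ) ≤ L := by exact_mod_cast hL
  have hL0 : (0 : ℝ) < L := by linarith
  have hpi := Real.pi_lt_d2
  have hpi0 := Real.pi_pos
  have h1 : ∀ a ∈ range (2 * L), (1 / 2 : ℝ) ≤ (ec (a * θ)).re := by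
    intro a ha
    rw [Finset.mem_range] at ha
    have haR : (a : ℝ) ≤ 2 * L := by exact_mod_cast ha.le
    have h2 : |(a : ℝ) * θ| ≤ 1 / 8 := by
      rw [abs_mul, abs_of_nonneg (show (0 : ℝ) ≤ a by positivity), mul_comm]
      exact (mul_le_mul_of_nonneg_left haR (abs_nonneg _)).trans h
    have h3 : (ec (a * θ)).re = Real.cos (2 * Real.pi * (a * θ)) := by
      unfold ec
      exact Complex.exp_ofReal_mul_I_re _
    rw [h3]
    have h4 := Real.one_sub_sq_div_two_le_cos (x := 2 * Real.pi * (a * θ))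
    have h5 : (2 * Real.pi * (a * θ)) ^ 2 ≤ 1 := by
      rw [← sq_abs, abs_mul, abs_of_pos (show (0 : ℝ) < 2 * Real.pi by positivity)]
      have h6 : 2 * Real.pi * |(a : ℝ) * θ| ≤ 1 := by
        calc 2 * Real.pi * |(a : ℝ) * θ| ≤ 2 * 3.15 * (1 / 8) := by
              refine mul_le_mul (by linarith) h2 (abs_nonneg _) (by norm_num)
          _ ≤ 1 := by norm_num
      exact pow_le_one₀ (by positivity) h6
    linarith
  have h7 : (L : ℝ) ≤ ‖∑ a ∈ range (2 * L), ec (a * θ)‖ := by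
    calc (L : ℝ) = ∑ _a ∈ range (2 * L), (1 / 2 : ℝ) := by
          rw [Finset.sum_const, Finset.card_range, nsmul_eq_mul]; push_cast; ring
      _ ≤ ∑ a ∈ range (2 * L), (ec (a * θ)).re := Finset.sum_le_sum h1
      _ = (∑ a ∈ range (2 * L), ec (a * θ)).re := by rw [Complex.re_sum]
      _ ≤ _ := Complex.re_le_norm _
  unfold KX
  rw [le_div_iff₀ hL0]
  calc (L : ℝ) * L = (L : ℝ) ^ 2 := by ring
    _ ≤ _ := pow_le_pow_left₀ hL0.le h7 2

/-- the number of shifts whose level is at most `2 Y`. -/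
theorem slice_count (κ : ℕ) (hκ : 2 ≤ κ) (ε : ℝ) (hε : 0 < ε) : ∃ C : ℝ, 1 ≤ C ∧ ∀ (X : ℕ) (_ : 1 ≤ X) (α R Y : ℝ)
    (_ : 1 ≤ R) (_ : R ≤ X) (_ : 1 ≤ Y) (_ : Y ≤ X) (_ : Pool.Agent.helper132_poly.Minor (κ + 1) X α R)
    (S : Finset ℤ) (_ : ∀ h ∈ S, h ∈ Ioo (-(X : ℤ)) X ∧ ¬ Pool.Agent.helper132_poly.Minor κ X (h * α) (2 * Y)),
    (S.card : ℝ) ≤ C * (X : ℝ) ^ ε * (X * Y / R) := by
  classical
  obtain ⟨Kd, hKd1, hKd⟩ := card_div_le (ε / 2) (by positivity)
  refine ⟨64 + 1 + 2 * (Kd * 2 ^ (ε / 2)) * 14464, ?_, ?_⟩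
  · have : 0 ≤ 2 * (Kd * 2 ^ (ε / 2)) * 14464 := by positivity
    linarith
  intro X hX α R Y hR1 hRX hY1 hYX hmin S hS
  have hXR : (1 : ℝ) ≤ X := by exact_mod_cast hX
  have hX0 : (0 : ℝ) < X := by linarith
  have hR0 : 0 < R := by linarith
  have hY0 : 0 < Y := by linarith
  have hXε : 1 ≤ (X : ℝ) ^ ε := Real.one_le_rpow hXR hε.le
  obtain ⟨U, hU⟩ : ∃ U : ℝ, U = X * Y / R := ⟨_, rfl⟩
  have hYU : Y ≤ U := by
    rw [hU, le_div_iff₀ hR0]
    calc Y * R ≤ Y * X := mul_le_mul_of_nonneg_left hRX hY0.le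
      _ = X * Y := by ring
  have hU1 : 1 ≤ U := by linarith
  have hUε : U ≤ (X : ℝ) ^ ε * U := le_mul_of_one_le_left (by linarith) hXε
  rw [← hU]
  have hKK : 0 ≤ 2 * (Kd * 2 ^ (ε / 2)) * 14464 := by positivity
  rcases lt_or_ge X 32 with hXs | hXs
  · have h1 : (S.card : ℝ) ≤ 64 := by
      have h2 : S ⊆ Ioo (-(X : ℤ)) X := fun h hh => (hS h hh).1
      have h3 := Finset.card_le_card h2
      rw [Int.card_Ioo] at h3
      have : S.card ≤ 64 := by omega
      exact_mod_cast this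
    calc (S.card : ℝ) ≤ 64 * 1 := by linarith
      _ ≤ 64 * ((X : ℝ) ^ ε * U) := by
          refine mul_le_mul_of_nonneg_left (by linarith) (by norm_num)
      _ ≤ (64 + 1 + 2 * (Kd * 2 ^ (ε / 2)) * 14464) * ((X : ℝ) ^ ε * U) := by
          refine mul_le_mul_of_nonneg_right (by linarith) (by positivity)
      _ = _ := by ring
  · have hX32 : (32 : ℝ) ≤ X := by exact_mod_cast hXs
    have hXκ : (X : ℝ) ^ 2 ≤ (X : ℝ) ^ κ := pow_le_pow_right₀ hXR hκ
    have hXκ0 : (0 : ℝ) < (X : ℝ) ^ κ := by positivity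
    obtain ⟨L, hL⟩ : ∃ L : ℕ, L = ⌊(X : ℝ) ^ κ / (32 * Y)⌋₊ := ⟨_, rfl⟩
    have hrat : 1 ≤ (X : ℝ) ^ κ / (32 * Y) := by
      rw [le_div_iff₀ (by positivity)]
      calc 1 * (32 * Y) ≤ X * X := by nlinarith
        _ = (X : ℝ) ^ 2 := by ring
        _ ≤ _ := hXκ
    have hL1 : 1 ≤ L := by rw [hL]; exact (Nat.one_le_floor_iff _).2 hrat
    have hLR : (1 : ℝ) ≤ L := by exact_mod_cast hL1
    have hL0 : (0 : ℝ) < L := by linarith
    have hLle : (L : ℝ) ≤ (X : ℝ) ^ κ / (32 * Y) := by rw [hL]; exact Nat.floor_le (by positivity)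
    have hLge : (X : ℝ) ^ κ / (64 * Y) ≤ L := by
      have h1 : (X : ℝ) ^ κ / (32 * Y) < (L : ℝ) + 1 := by rw [hL]; exact Nat.lt_floor_add_one _
      have h2 : (X : ℝ) ^ κ / (32 * Y) = 2 * ((X : ℝ) ^ κ / (64 * Y)) := by field_simp; norm_num
      rw [h2] at h1
      linarith
    obtain ⟨M, hM⟩ : ∃ M : ℕ, M = ⌊2 * Y * X⌋₊ := ⟨_, rfl⟩
    have hMle : (M : ℝ) ≤ 2 * Y * X := by rw [hM]; exact Nat.floor_le (by positivity)
    obtain ⟨Z, hZ⟩ : ∃ Z : Finset ℕ, Z = (range (M + 1)).filter (fun (z : ℕ) => 1 ≤ z ∧ ∃ c : ℤ, |(z : ℝ) * α - c| * (X : ℝ) ^ κ ≤ 2 * Y) :=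
      ⟨_, rfl⟩
    -- the shifts divide elements of `Z`
    have hsub : S.erase 0 ⊆ Z.biUnion (fun z => z.divisors.image (fun (e : ℕ) => (e : ℤ)) ∪ z.divisors.image (fun (e : ℕ) => -(e : ℤ))) := by
      intro h hh
      rw [Finset.mem_erase] at hh
      obtain ⟨hh0, hh1⟩ := hh
      obtain ⟨hI, hnm⟩ := hS h hh1
      unfold Pool.Agent.helper132_poly.Minor at hnm
      push Not at hnm
      obtain ⟨q, c, hq1, hqY, hqc⟩ := hnm
      rw [Finset.mem_Ioo] at hI
      have hna : 1 ≤ h.natAbs := Int.natAbs_pos.2 hh0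
      have hnX : h.natAbs ≤ X := by omega
      have hnXR : ((h.natAbs : ℕ) : ℝ) ≤ X := by exact_mod_cast hnX
      have hz1 : 1 ≤ q * h.natAbs := Nat.mul_pos hq1 hna
      rw [Finset.mem_biUnion]
      refine ⟨q * h.natAbs, ?_, ?_⟩
      · rw [hZ, Finset.mem_filter, Finset.mem_range]
        refine ⟨?_, hz1, ?_⟩
        · rw [Nat.lt_succ_iff, hM]
          refine Nat.le_floor ?_
          push_cast
          exact mul_le_mul hqY hnXR (Nat.cast_nonneg _) (by positivity)
        · rcases Int.natAbs_eq h with h1 | h1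
          · refine ⟨c, ?_⟩
            have h2 : ((q * h.natAbs : ℕ) : ℝ) * α - c = q * (h * α) - c := by
              have h3 : ((h.natAbs : ℕ) : ℝ) = (h : ℝ) := by
                have : ((h.natAbs : ℕ) : ℤ) = h := h1.symm
                rw [← Int.cast_natCast (R := ℝ), this]
              push_cast
              rw [h3]; ring
            rw [h2]; exact hqc
          · refine ⟨-c, ?_⟩
            have h2 : |((q * h.natAbs : ℕ) : ℝ) * α - ((-c : ℤ) : ℝ)| = |q * (h * α) - c| := by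
              have h3 : ((h.natAbs : ℕ) : ℝ) = -(h : ℝ) := by
                have : ((h.natAbs : ℕ) : ℤ) = -h := by omega
                rw [← Int.cast_natCast (R := ℝ), this, Int.cast_neg]
              rw [← abs_neg]
              congr 1
              push_cast
              rw [h3]; ring
            rw [h2]; exact hqc
      · rw [Finset.mem_union, Finset.mem_image, Finset.mem_image]
        have hd : h.natAbs ∈ (q * h.natAbs).divisors := Nat.mem_divisors.2 ⟨Dvd.intro_left _ rfl, by omega⟩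
        rcases Int.natAbs_eq h with h1 | h1
        · exact Or.inl ⟨h.natAbs, hd, h1.symm⟩
        · exact Or.inr ⟨h.natAbs, hd, h1.symm⟩
    have hcard1 : ((S.erase 0).card : ℝ) ≤ Z.card * (2 * (Kd * 2 ^ (ε / 2) * (X : ℝ) ^ ε)) := by
      have h1 : (S.erase 0).card ≤ ∑ z ∈ Z, 2 * z.divisors.card := by
        refine (Finset.card_le_card hsub).trans (Finset.card_biUnion_le.trans (Finset.sum_le_sum fun z _ => ?_))
        refine (Finset.card_union_le _ _).trans ?_
        have h2 := Finset.card_image_le (s := z.divisors) (f := fun (e : ℕ) => (e : ℤ))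
        have h3 := Finset.card_image_le (s := z.divisors) (f := fun (e : ℕ) => -(e : ℤ))
        omega
      have h2 : ((S.erase 0).card : ℝ) ≤ ∑ z ∈ Z, 2 * (z.divisors.card : ℝ) := by exact_mod_cast h1
      refine h2.trans ?_
      rw [← nsmul_eq_mul, ← Finset.sum_const]
      refine Finset.sum_le_sum fun z hz => ?_
      rw [hZ, Finset.mem_filter, Finset.mem_range] at hz
      refine mul_le_mul_of_nonneg_left ?_ (by norm_num)
      refine (hKd z hz.2.1).trans ?_
      rw [mul_assoc]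
      refine mul_le_mul_of_nonneg_left ?_ (by linarith)
      have hzR : (z : ℝ) ≤ 2 * X ^ 2 := by
        have h3 : (z : ℝ) ≤ M := by exact_mod_cast Nat.lt_succ_iff.1 hz.1
        calc (z : ℝ) ≤ 2 * Y * X := h3.trans hMle
          _ ≤ 2 * X * X := by gcongr
          _ = _ := by ring
      calc (z : ℝ) ^ (ε / 2) ≤ (2 * (X : ℝ) ^ 2) ^ (ε / 2) := Real.rpow_le_rpow (Nat.cast_nonneg _) hzR (by positivity)
        _ = 2 ^ (ε / 2) * (X : ℝ) ^ ε := by
            rw [Real.mul_rpow (by norm_num) (by positivity)]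
            congr 1
            rw [← Real.rpow_natCast (X : ℝ) 2, ← Real.rpow_mul hX0.le]
            congr 1
            push_cast; ring
    -- the number of elements of `Z`
    have hlow : ∀ z ∈ Z, (L : ℝ) ≤ KX L (((1 : ℕ) : ℝ) * α * (z : ℤ)) := by
      intro z hz
      rw [hZ, Finset.mem_filter] at hz
      obtain ⟨_, _, c, hc⟩ := hz
      have e : ((1 : ℕ) : ℝ) * α * ((z : ℤ) : ℝ) = ((z : ℝ) * α - c) + c := by push_cast; ring
      rw [e, KX_add_int]
      refine KX_lower L hL1 _ ?_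
      have h1 : |(z : ℝ) * α - c| ≤ 2 * Y / (X : ℝ) ^ κ := by rw [le_div_iff₀ hXκ0]; exact hc
      calc |(z : ℝ) * α - c| * (2 * L) ≤ (2 * Y / (X : ℝ) ^ κ) * (2 * ((X : ℝ) ^ κ / (32 * Y))) := by gcongr
        _ = 1 / 8 := by field_simp; norm_num
    have hdio := KX_dioph 1 M L le_rfl hL1 α R ((X : ℝ) ^ (κ + 1)) hR1 (by positivity) hmin
    have hsumZ : (Z.card : ℝ) * L ≤ ∑ z ∈ Icc (-(M : ℤ)) M, KX L (((1 : ℕ) : ℝ) * α * z) := by
      rw [← nsmul_eq_mul, ← Finset.sum_const]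
      refine (Finset.sum_le_sum hlow).trans ?_
      have h1 : ∑ z ∈ Z, KX L (((1 : ℕ) : ℝ) * α * ((z : ℤ) : ℝ)) = ∑ z ∈ Z.image (fun (z : ℕ) => (z : ℤ)), KX L (((1 : ℕ) : ℝ) * α * z) := by
        rw [Finset.sum_image (fun a _ b _ h => by exact_mod_cast h)]
      rw [h1]
      refine Finset.sum_le_sum_of_subset_of_nonneg ?_ (fun z _ _ => KX_nonneg _ _)
      intro z hz
      rw [Finset.mem_image] at hz
      obtain ⟨z', hz', rfl⟩ := hz
      rw [hZ, Finset.mem_filter, Finset.mem_range] at hz'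
      rw [Finset.mem_Icc]
      constructor <;> omega
    have hZcard : (Z.card : ℝ) ≤ 14464 * U := by
      have h1 := hsumZ.trans hdio
      have h2 : (32 : ℝ) * (M + (2 * M + (X : ℝ) ^ (κ + 1) / R + 1) + ((1 : ℕ) : ℝ) * M * L / R + L) ≤ (14464 * U) * L := by
        have hUe : U = X * Y / R := hU
        have hYXκ : (X : ℝ) ^ κ ≤ 64 * Y * L := by
          rw [div_le_iff₀ (by positivity)] at hLge
          linarith
        have hXL : (X : ℝ) ≤ 64 * L := by
          have h3 : (X : ℝ) * X ≤ 64 * X * L := by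
            calc (X : ℝ) * X = (X : ℝ) ^ 2 := by ring
              _ ≤ (X : ℝ) ^ κ := hXκ
              _ ≤ 64 * Y * L := hYXκ
              _ ≤ 64 * X * L := by gcongr
          have h4 : (X : ℝ) * X ≤ X * (64 * L) := by linarith
          exact le_of_mul_le_mul_left h4 hX0
        have a1 : (M : ℝ) ≤ 128 * U * L := by
          calc (M : ℝ) ≤ 2 * Y * X := hMle
            _ ≤ 2 * U * (64 * L) := by gcongr
            _ = _ := by ring
        have a2 : (X : ℝ) ^ (κ + 1) / R ≤ 64 * U * L := by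
          rw [hUe, pow_succ]
          have e1 : 64 * (X * Y / R) * L = (64 * Y * L) * X / R := by ring
          rw [e1]
          gcongr
        have a3 : (1 : ℝ) ≤ U * L := one_le_mul_of_one_le_of_one_le hU1 hLR
        have a4 : ((1 : ℕ) : ℝ) * M * L / R ≤ 2 * U * L := by
          rw [hUe]
          have e1 : 2 * (X * Y / R) * (L : ℝ) = (1 * (2 * Y * X)) * L / R := by ring
          rw [e1]
          push_cast
          gcongr
        have a5 : (L : ℝ) ≤ U * L := le_mul_of_one_le_left hL0.le hU1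
        linarith
      exact le_of_mul_le_mul_right (h1.trans h2) hL0
    have hfin : (S.card : ℝ) ≤ (S.erase 0).card + 1 := by
      have h1 := Finset.pred_card_le_card_erase (s := S) (a := (0 : ℤ))
      have h2 : S.card ≤ (S.erase 0).card + 1 := by omega
      exact_mod_cast h2
    calc (S.card : ℝ) ≤ (14464 * U) * (2 * (Kd * 2 ^ (ε / 2) * (X : ℝ) ^ ε)) + 1 := by
          refine hfin.trans ?_
          have h1 : (Z.card : ℝ) * (2 * (Kd * 2 ^ (ε / 2) * (X : ℝ) ^ ε)) ≤ (14464 * U) * (2 * (Kd * 2 ^ (ε / 2) * (X : ℝ) ^ ε)) :=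
            mul_le_mul_of_nonneg_right hZcard (by positivity)
          linarith
      _ ≤ (14464 * U) * (2 * (Kd * 2 ^ (ε / 2) * (X : ℝ) ^ ε)) + 65 * ((X : ℝ) ^ ε * U) := by linarith
      _ = _ := by ring

end Pool.Agent.helper132_p
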