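import Pool.Agent.helper132_p.P5
import Pool.Agent.helper132_h.H19

/-! Slices of the good shifts. -/

namespace Pool.Agent.helper132_p

open Finset Pool.Agent.helper132_sph Pool.Agent.helper132_poly Pool.Agent.helper132_quad Pool.Agent.helper132_h

/-- averages with a real exponent. -/
noncomputable def Dr (k X : ℕ) (α t : ℝ) : ℝ := (∑ h ∈ Ioo (-(X : ℤ)) X, dl k X α h ^ t) / X

open Classical in
/-- the shifts of level about `Y`. -/
noncomputable def Sl (κ X : ℕ) (α Y : ℝ) : Finset ℤ := (Ioo (-(X : ℤ)) X).filter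
  (fun (h : ℤ) => Pool.Agent.helper132_poly.Minor κ X (h * α) Y ∧ (2 * Y ≤ X → ¬ Pool.Agent.helper132_poly.Minor κ X (h * α) (2 * Y)))

/-- the contribution of a slice. -/
noncomputable def Gs (κ X : ℕ) (α Y t : ℝ) : ℝ := (∑ h ∈ Sl κ X α Y, dl (κ + 1) X α h ^ t) / X

lemma Dr_nonneg (k X : ℕ) (α t : ℝ) : 0 ≤ Dr k X α t :=
  div_nonneg (Finset.sum_nonneg fun _ _ => Real.rpow_nonneg (dl_nonneg _ _ _ _) _) (Nat.cast_nonneg _)

lemma Gs_nonneg (κ X : ℕ) (α Y t : ℝ) : 0 ≤ Gs κ X α Y t :=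
  div_nonneg (Finset.sum_nonneg fun _ _ => Real.rpow_nonneg (dl_nonneg _ _ _ _) _) (Nat.cast_nonneg _)

lemma card_Sl_le (κ X : ℕ) (α Y : ℝ) : ((Sl κ X α Y).card : ℝ) ≤ 2 * X := by
  classical
  have h1 : (Sl κ X α Y).card ≤ (Ioo (-(X : ℤ)) X).card := Finset.card_filter_le _ _
  rw [Int.card_Ioo] at h1
  have : (Sl κ X α Y).card ≤ 2 * X := by omega
  exact_mod_cast this

lemma Dr_le_two (k X : ℕ) (α t : ℝ) (hX : 1 ≤ X) (ht : 0 ≤ t) : Dr k X α t ≤ 2 := by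
  have hX0 : (0 : ℝ) < X := by exact_mod_cast hX
  unfold Dr
  rw [div_le_iff₀ hX0]
  calc ∑ h ∈ Ioo (-(X : ℤ)) X, dl k X α h ^ t ≤ ∑ _h ∈ Ioo (-(X : ℤ)) X, (1 : ℝ) :=
        Finset.sum_le_sum fun h _ => Real.rpow_le_one (dl_nonneg _ _ _ _) (dl_le_one _ _ _ _ hX) ht
    _ = ((Ioo (-(X : ℤ)) X).card : ℝ) := by rw [Finset.sum_const, nsmul_eq_mul, mul_one]
    _ ≤ 2 * X := by
        rw [Int.card_Ioo]
        have : ((X : ℤ) - -(X : ℤ) - 1).toNat ≤ 2 * X := by omega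
        exact_mod_cast this

/-- the number of shifts in a slice. -/
theorem Sl_count (κ : ℕ) (hκ : 2 ≤ κ) (ε : ℝ) (hε : 0 < ε) : ∃ C : ℝ, 1 ≤ C ∧ ∀ (X : ℕ) (_ : 1 ≤ X) (α R Y : ℝ)
    (_ : 1 ≤ R) (_ : R ≤ X) (_ : 1 ≤ Y) (_ : Y ≤ X) (_ : Pool.Agent.helper132_poly.Minor (κ + 1) X α R),
    ((Sl κ X α Y).card : ℝ) / X ≤ C * (X : ℝ) ^ ε * (Y / R) := by
  classical
  obtain ⟨C, hC1, hC⟩ := slice_count κ hκ ε hε
  refine ⟨4 * C, by linarith, ?_⟩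
  intro X hX α R Y hR1 hRX hY1 hYX hmin
  have hXR : (1 : ℝ) ≤ X := by exact_mod_cast hX
  have hX0 : (0 : ℝ) < X := by linarith
  have hR0 : 0 < R := by linarith
  have hY0 : 0 < Y := by linarith
  have hXε : 1 ≤ (X : ℝ) ^ ε := Real.one_le_rpow hXR hε.le
  rw [div_le_iff₀ hX0]
  rcases le_or_gt (2 * Y) X with h | h
  · have h1 := hC X hX α R Y hR1 hRX hY1 hYX hmin (Sl κ X α Y) (by
      intro z hz
      unfold Sl at hz
      rw [Finset.mem_filter] at hz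
      exact ⟨hz.1, hz.2.2 h⟩)
    refine h1.trans ?_
    have e1 : 4 * C * (X : ℝ) ^ ε * (Y / R) * X = 4 * (C * (X : ℝ) ^ ε * (X * Y / R)) := by ring
    rw [e1]
    have : 0 ≤ C * (X : ℝ) ^ ε * (X * Y / R) := by positivity
    linarith
  · refine (card_Sl_le κ X α Y).trans ?_
    have h1 : (1 : ℝ) ≤ X / R := by rw [one_le_div hR0]; exact hRX
    have h2 : (1 : ℝ) ≤ C * (X : ℝ) ^ ε := one_le_mul_of_one_le_of_one_le hC1 hXε
    calc (2 : ℝ) * X ≤ 4 * Y := by linarith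
      _ = 4 * (1 * (Y * 1)) := by ring
      _ ≤ 4 * ((C * (X : ℝ) ^ ε) * (Y * (X / R))) := by gcongr
      _ = _ := by ring

/-- comparison with the good part. -/
lemma Gs_le_Vg (κ s X : ℕ) (α Y : ℝ) : Gs κ X α Y ((2 * s : ℕ) : ℝ) ≤ Vg κ (2 * s) X α Y := by
  classical
  unfold Gs Vg Sl
  refine div_le_div_of_nonneg_right ?_ (Nat.cast_nonneg _)
  rw [Finset.sum_filter]
  refine Finset.sum_le_sum fun h _ => ?_
  rw [Real.rpow_natCast]
  have h0 := pow_nonneg (dl_nonneg (κ + 1) X α h) (2 * s)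
  split_ifs with h1 h2 h2
  · exact le_rfl
  · exact absurd h1.1 h2
  · exact h0
  · exact le_rfl

/-- Hoelder's inequality on a slice. -/
lemma Gs_holder (κ s X : ℕ) (hX : 1 ≤ X) (α Y t : ℝ) (ht0 : 0 < t) (hts : t < ((2 * s : ℕ) : ℝ)) :
    Gs κ X α Y t ≤ Vg κ (2 * s) X α Y ^ (t / ((2 * s : ℕ) : ℝ)) *
      (((Sl κ X α Y).card : ℝ) / X) ^ (1 - t / ((2 * s : ℕ) : ℝ)) := by
  classical
  have hX0 : (0 : ℝ) < X := by exact_mod_cast hX
  obtain ⟨S, hS⟩ : ∃ S : ℝ, S = ((2 * s : ℕ) : ℝ) := ⟨_, rfl⟩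
  rw [← hS] at hts ⊢
  have hS0 : 0 < S := by linarith
  obtain ⟨r, hr⟩ : ∃ r : ℝ, r = t / S := ⟨_, rfl⟩
  have hr0 : 0 < r := by rw [hr]; positivity
  have hr1 : r < 1 := by rw [hr, div_lt_one hS0]; exact hts
  rw [← hr]
  have hconj : (1 / r).HolderConjugate (1 / (1 - r)) := by
    rw [Real.holderConjugate_iff]
    constructor
    · rw [lt_div_iff₀ hr0]; linarith
    · rw [one_div, one_div, inv_inv, inv_inv]; ring
  have h2 := Real.inner_le_Lp_mul_Lq_of_nonneg (Sl κ X α Y) hconj (f := fun h => dl (κ + 1) X α h ^ t) (g := fun _ => (1 : ℝ))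
    (fun i _ => Real.rpow_nonneg (dl_nonneg _ _ _ _) _) (fun _ _ => zero_le_one)
  simp only [mul_one, Real.one_rpow, Finset.sum_const, nsmul_eq_mul, one_div_one_div] at h2
  have e1 : ∀ h, (dl (κ + 1) X α h ^ t) ^ (1 / r) = dl (κ + 1) X α h ^ S := by
    intro h
    rw [← Real.rpow_mul (dl_nonneg _ _ _ _), hr]
    congr 1
    field_simp
  rw [Finset.sum_congr rfl (fun h _ => e1 h)] at h2
  obtain ⟨A, hA⟩ : ∃ A, A = ∑ h ∈ Sl κ X α Y, dl (κ + 1) X α h ^ S := ⟨_, rfl⟩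
  have hA0 : 0 ≤ A := by rw [hA]; exact Finset.sum_nonneg fun _ _ => Real.rpow_nonneg (dl_nonneg _ _ _ _) _
  have hcard0 : (0 : ℝ) ≤ ((Sl κ X α Y).card : ℝ) := Nat.cast_nonneg _
  have hAV : A / X ≤ Vg κ (2 * s) X α Y := by
    have := Gs_le_Vg κ s X α Y
    unfold Gs at this
    rw [← hS, ← hA] at this
    exact this
  rw [← hA] at h2
  unfold Gs
  calc (∑ h ∈ Sl κ X α Y, dl (κ + 1) X α h ^ t) / X ≤ (A ^ r * ((Sl κ X α Y).card : ℝ) ^ (1 - r)) / X :=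
        div_le_div_of_nonneg_right h2 hX0.le
    _ = (A / X) ^ r * (((Sl κ X α Y).card : ℝ) / X) ^ (1 - r) := by
        rw [Real.div_rpow hA0 hX0.le, Real.div_rpow hcard0 hX0.le]
        have e2 : (X : ℝ) = (X : ℝ) ^ r * (X : ℝ) ^ (1 - r) := by
          rw [← Real.rpow_add hX0]; simp
        conv_lhs => rw [e2]
        rw [mul_div_mul_comm]
    _ ≤ _ := by
        refine mul_le_mul_of_nonneg_right ?_ (by positivity)
        exact Real.rpow_le_rpow (by positivity) hAV hr0.le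

end Pool.Agent.helper132_p
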