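import Pool.Agent.helper132_p.P6

/-! The sum over the minor frequencies of one slice. -/

namespace Pool.Agent.helper132_p

open Finset Pool.Agent.helper132_sph Pool.Agent.helper132_poly Pool.Agent.helper132_quad Pool.Agent.helper132_h

lemma rpow_le_mul_self (f b : ℝ) (hf0 : 0 ≤ f) (hf2 : f ≤ 2) (hb : 1 ≤ b) : f ^ b ≤ 2 ^ (b - 1) * f := by
  rcases hf0.eq_or_lt with h | h
  · rw [← h, Real.zero_rpow (by linarith), mul_zero]
  · have h1 : f ^ b = f ^ (b - 1) * f := by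
      have := Real.rpow_add h (b - 1) 1
      rw [Real.rpow_one, sub_add_cancel] at this
      exact this
    rw [h1]
    refine mul_le_mul_of_nonneg_right ?_ hf0
    exact Real.rpow_le_rpow hf0 hf2 (by linarith)

/-- the sum over one slice. -/
theorem slice_sum (κ s : ℕ) (hκ : 2 ≤ κ) (hs : 1 ≤ s) (w : ℝ) (hw0 : 0 < w) (hw1 : w ≤ 1) (CJ : ℝ) (hCJ : 1 ≤ CJ)
    (hJ : MVT κ s (w / 32) CJ) (b : ℝ) (hb : 1 ≤ b) : ∃ C : ℝ, 1 ≤ C ∧ ∀ X : ℕ, 4 ≤ X → ∀ M : Finset ℕ, Mset (κ + 1) X M →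
      ∀ Y : ℝ, 1 ≤ Y → Y ≤ X → (X : ℝ) ^ c2 (κ + 1) / 2 ≤ Y →
      ∑ a ∈ M, Vg κ (2 * s) X ((a : ℝ) / (X : ℝ) ^ (κ + 1)) Y ^ (1 + w) *
        (((Sl κ X ((a : ℝ) / (X : ℝ) ^ (κ + 1)) Y).card : ℝ) / X) ^ b ≤ C * (X : ℝ) ^ (-(w / 2)) := by
  classical
  obtain ⟨η, hη⟩ : ∃ η : ℝ, η = w / 32 := ⟨_, rfl⟩
  have hη0 : 0 < η := by rw [hη]; positivity
  have hη1 : η ≤ 1 := by rw [hη]; linarith
  rw [← hη] at hJ
  obtain ⟨C1, hC1, hpt⟩ := Vg_pt κ s hκ hs η CJ hη0 hη1 hCJ hJ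
  obtain ⟨C2, hC2, hsum⟩ := Vg_sum κ s hκ hs η CJ hη0 hη1 hCJ hJ
  obtain ⟨C3, hC3, hcnt⟩ := Sl_count κ hκ (w / 8) (by positivity)
  obtain ⟨C4, hC4, hlev⟩ := num_lev (κ + 1) (w / 8) (by positivity)
  have hC1w : 1 ≤ C1 ^ (1 + w) := Real.one_le_rpow hC1 (by linarith)
  have hC1w' : 1 ≤ C1 ^ w := Real.one_le_rpow hC1 (by linarith)
  have h2b : 1 ≤ (2 : ℝ) ^ (b - 1) := Real.one_le_rpow (by norm_num) (by linarith)
  obtain ⟨D, hD⟩ : ∃ D : ℝ, D = 2 ^ (b - 1) * C3 * 8 := ⟨_, rfl⟩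
  have hD1 : 1 ≤ D := by
    rw [hD]
    exact one_le_mul_of_one_le_of_one_le (one_le_mul_of_one_le_of_one_le h2b hC3) (by norm_num)
  refine ⟨C4 * (48 * C1 ^ (1 + w) * D) + C1 ^ w * C2 * D, ?_, ?_⟩
  · have h1 : (1 : ℝ) ≤ C1 ^ w * C2 * D := one_le_mul_of_one_le_of_one_le (one_le_mul_of_one_le_of_one_le hC1w' hC2) hD1
    have h2 : (0 : ℝ) ≤ C4 * (48 * C1 ^ (1 + w) * D) := by positivity
    linarith
  intro X hX4 M hM Y hY1 hYX hYQ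
  have hX : 1 ≤ X := by omega
  have hXR : (1 : ℝ) ≤ X := by exact_mod_cast hX
  have hX0 : (0 : ℝ) < X := by linarith
  have hY0 : 0 < Y := by linarith
  obtain ⟨V, hV⟩ : ∃ V : ℕ → ℝ, V = fun a : ℕ => Vg κ (2 * s) X ((a : ℝ) / (X : ℝ) ^ (κ + 1)) Y := ⟨_, rfl⟩
  obtain ⟨f, hf⟩ : ∃ f : ℕ → ℝ, f = fun a : ℕ => ((Sl κ X ((a : ℝ) / (X : ℝ) ^ (κ + 1)) Y).card : ℝ) / X := ⟨_, rfl⟩
  have hV0 : ∀ a, 0 ≤ V a := by intro a; rw [hV]; exact Vg_nonneg _ _ _ _ _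
  have hf0 : ∀ a, 0 ≤ f a := by intro a; rw [hf]; positivity
  have hf2 : ∀ a, f a ≤ 2 := by
    intro a
    rw [hf]
    beta_reduce
    rw [div_le_iff₀ hX0]
    exact card_Sl_le _ _ _ _
  have hgoal : ∑ a ∈ M, Vg κ (2 * s) X ((a : ℝ) / (X : ℝ) ^ (κ + 1)) Y ^ (1 + w) *
        (((Sl κ X ((a : ℝ) / (X : ℝ) ^ (κ + 1)) Y).card : ℝ) / X) ^ b = ∑ a ∈ M, V a ^ (1 + w) * f a ^ b := by rw [hV, hf]
  rw [hgoal]
  obtain ⟨P, hP⟩ : ∃ P : ℝ, P = (X : ℝ) ^ (2 * η) := ⟨_, rfl⟩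
  have hP0 : 0 < P := by rw [hP]; positivity
  -- pointwise
  have hpt' : ∀ a ∈ M, ∀ R : ℝ, 1 ≤ R → R ≤ X → Pool.Agent.helper132_poly.Minor (κ + 1) X ((a : ℝ) / (X : ℝ) ^ (κ + 1)) R →
      V a ≤ C1 * (P / (Y * R)) ∧ f a ^ b ≤ 2 ^ (b - 1) * C3 * ((X : ℝ) ^ (w / 8) * (Y / R)) := by
    intro a _ R hR1 hRX hmin
    have hR0 : 0 < R := by linarith
    constructor
    · have h := hpt X hX ((a : ℝ) / (X : ℝ) ^ (κ + 1)) Y R hY1 hYX hR1 hRX hmin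
      rw [← mul_div_assoc, le_div_iff₀ (by positivity), hV, hP]
      exact h
    · have h := hcnt X hX ((a : ℝ) / (X : ℝ) ^ (κ + 1)) R Y hR1 hRX hY1 hYX hmin
      have h1 : f a ≤ C3 * (X : ℝ) ^ (w / 8) * (Y / R) := by rw [hf]; exact h
      calc f a ^ b ≤ 2 ^ (b - 1) * f a := rpow_le_mul_self _ _ (hf0 a) (hf2 a) hb
        _ ≤ 2 ^ (b - 1) * (C3 * (X : ℝ) ^ (w / 8) * (Y / R)) := mul_le_mul_of_nonneg_left h1 (by positivity)
        _ = _ := by ring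
  -- the gain
  have hgain : ∀ R : ℝ, (X : ℝ) ^ ((1 : ℝ) / 2) / 4 ≤ R → (Y * R) ^ (-w) ≤ 8 * (X : ℝ) ^ (-(17 / 18 * w)) := by
    intro R hR
    have hRp : 0 < (X : ℝ) ^ ((1 : ℝ) / 2) / 4 := by positivity
    have h1 : (X : ℝ) ^ ((17 : ℝ) / 18) / 8 ≤ Y * R := by
      calc (X : ℝ) ^ ((17 : ℝ) / 18) / 8 ≤ (X : ℝ) ^ (c2 (κ + 1) + 1 / 2) / 8 := by
            refine div_le_div_of_nonneg_right ?_ (by norm_num)
            refine Real.rpow_le_rpow_of_exponent_le hXR ?_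
            have := (c2_pos (κ + 1)).1
            linarith
        _ = ((X : ℝ) ^ c2 (κ + 1) / 2) * ((X : ℝ) ^ ((1 : ℝ) / 2) / 4) := by
            rw [Real.rpow_add hX0]; ring
        _ ≤ Y * R := mul_le_mul hYQ hR hRp.le hY0.le
    calc (Y * R) ^ (-w) ≤ ((X : ℝ) ^ ((17 : ℝ) / 18) / 8) ^ (-w) :=
          Real.rpow_le_rpow_of_nonpos (by positivity) h1 (by linarith)
      _ = 8 ^ w * (X : ℝ) ^ (-(17 / 18 * w)) := by
          rw [Real.div_rpow (by positivity) (by norm_num), ← Real.rpow_mul hX0.le, Real.rpow_neg (by norm_num : (0 : ℝ) ≤ 8), div_inv_eq_mul,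
            mul_comm]
          congr 2
          ring
      _ ≤ 8 * (X : ℝ) ^ (-(17 / 18 * w)) := by
          refine mul_le_mul_of_nonneg_right ?_ (by positivity)
          calc (8 : ℝ) ^ w ≤ 8 ^ (1 : ℝ) := Real.rpow_le_rpow_of_exponent_le (by norm_num) hw1
            _ = 8 := Real.rpow_one _
  have hexp : P ^ (1 + w) * (X : ℝ) ^ (w / 8) * (X : ℝ) ^ (-(17 / 18 * w)) ≤ (X : ℝ) ^ (-(w / 2) - w / 8) := by
    rw [hP, ← Real.rpow_mul hX0.le, ← Real.rpow_add hX0, ← Real.rpow_add hX0]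
    refine Real.rpow_le_rpow_of_exponent_le hXR ?_
    rw [hη]
    nlinarith
  have hexp' : (X : ℝ) ^ (-(w / 2) - w / 8) ≤ (X : ℝ) ^ (-(w / 2)) :=
    Real.rpow_le_rpow_of_exponent_le hXR (by linarith)
  have hRX2 : (X : ℝ) ^ ((1 : ℝ) / 2) / 4 ≤ X := by
    have : (X : ℝ) ^ ((1 : ℝ) / 2) ≤ (X : ℝ) ^ (1 : ℝ) := Real.rpow_le_rpow_of_exponent_le hXR (by norm_num)
    rw [Real.rpow_one] at this
    linarith
  rw [← Finset.sum_filter_add_sum_filter_not M (fun a : ℕ => (2 : ℝ) ^ (lev (κ + 1) X ((a : ℝ) / (X : ℝ) ^ (κ + 1)) - 1) ≤ X)]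
  obtain ⟨M1, hM1⟩ : ∃ M1, M1 = M.filter (fun a : ℕ => (2 : ℝ) ^ (lev (κ + 1) X ((a : ℝ) / (X : ℝ) ^ (κ + 1)) - 1) ≤ X) := ⟨_, rfl⟩
  obtain ⟨M2, hM2⟩ : ∃ M2, M2 = M.filter (fun a : ℕ => ¬ (2 : ℝ) ^ (lev (κ + 1) X ((a : ℝ) / (X : ℝ) ^ (κ + 1)) - 1) ≤ X) := ⟨_, rfl⟩
  rw [← hM1, ← hM2]
  have hpartA : ∑ a ∈ M1, V a ^ (1 + w) * f a ^ b ≤ C4 * (48 * C1 ^ (1 + w) * D) * (X : ℝ) ^ (-(w / 2)) := by
    have h1 := level_sum (κ + 1) X M1 (fun a => V a ^ (1 + w) * f a ^ b) (48 * C1 ^ (1 + w) * D * (X : ℝ) ^ (-(w / 2) - w / 8)) (by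
      intro ν
      obtain ⟨S, hS⟩ : ∃ S, S = M1.filter (fun a : ℕ => lev (κ + 1) X ((a : ℝ) / (X : ℝ) ^ (κ + 1)) = ν) := ⟨_, rfl⟩
      rw [← hS]
      rcases S.eq_empty_or_nonempty with h0 | ⟨a0, ha0⟩
      · rw [h0, Finset.sum_empty]; positivity
      have hSM : ∀ a ∈ S, a ∈ M ∧ lev (κ + 1) X ((a : ℝ) / (X : ℝ) ^ (κ + 1)) = ν ∧ (2 : ℝ) ^ (ν - 1) ≤ X := by
        intro a ha
        rw [hS, Finset.mem_filter, hM1, Finset.mem_filter] at ha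
        refine ⟨ha.1.1, ha.2, ?_⟩
        have := ha.1.2
        rwa [ha.2] at this
      obtain ⟨hν1, hνQ⟩ : 1 ≤ ν ∧ (X : ℝ) ^ ((1 : ℝ) / 2) / 4 ≤ 2 ^ (ν - 1) := by
        obtain ⟨h1, h2, _⟩ := hSM a0 ha0
        have := lev_facts (κ + 1) X hX4 M hM a0 h1
        rwa [h2] at this
      have hνX := (hSM a0 ha0).2.2
      obtain ⟨R, hR⟩ : ∃ R : ℝ, R = 2 ^ (ν - 1) := ⟨_, rfl⟩
      have hR1 : 1 ≤ R := by rw [hR]; exact one_le_pow₀ (by norm_num)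
      have hR0 : 0 < R := by linarith
      rw [← hR] at hνX hνQ
      have h2ν : (2 : ℝ) ^ ν = 2 * R := by
        rw [hR, ← pow_succ']; congr 1; omega
      have hcard := card_arc (κ + 1) X hX ν S (by
        intro a ha
        obtain ⟨h1, h2, _⟩ := hSM a ha
        refine ⟨(hM a h1).1, ?_⟩
        have := lev_in (κ + 1) X ((a : ℝ) / (X : ℝ) ^ (κ + 1))
        rwa [h2] at this)
      rw [h2ν] at hcard
      have hterm : ∀ a ∈ S, V a ^ (1 + w) * f a ^ b ≤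
          (C1 ^ (1 + w) * (P / (Y * R)) ^ (1 + w)) * (2 ^ (b - 1) * C3 * ((X : ℝ) ^ (w / 8) * (Y / R))) := by
        intro a ha
        obtain ⟨h1, h2, _⟩ := hSM a ha
        obtain ⟨h3, h4⟩ := hpt' a h1 R hR1 hνX (by
          have := lev_minor (κ + 1) X ((a : ℝ) / (X : ℝ) ^ (κ + 1)) (by rw [h2]; exact hν1)
          rw [h2, ← hR] at this
          exact this)
        rw [← Real.mul_rpow (by linarith) (by positivity)]
        refine mul_le_mul ?_ h4 (Real.rpow_nonneg (hf0 a) _) (by positivity)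
        exact Real.rpow_le_rpow (hV0 a) h3 (by linarith)
      refine (Finset.sum_le_sum hterm).trans ?_
      rw [Finset.sum_const, nsmul_eq_mul]
      have h4 : (P / (Y * R)) ^ (1 + w) = P ^ (1 + w) * ((Y * R) ^ (-w) / (Y * R)) := by
        rw [Real.div_rpow hP0.le (by positivity), Real.rpow_add (by positivity : 0 < Y * R), Real.rpow_one, Real.rpow_neg (by positivity : 0 ≤ Y * R)]
        field_simp
      have h5 := hgain R hνQ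
      calc (S.card : ℝ) * ((C1 ^ (1 + w) * (P / (Y * R)) ^ (1 + w)) * (2 ^ (b - 1) * C3 * ((X : ℝ) ^ (w / 8) * (Y / R))))
          ≤ (12 * (2 * R) ^ 2) * ((C1 ^ (1 + w) * (P / (Y * R)) ^ (1 + w)) * (2 ^ (b - 1) * C3 * ((X : ℝ) ^ (w / 8) * (Y / R)))) :=
            mul_le_mul_of_nonneg_right hcard (by positivity)
        _ = 48 * C1 ^ (1 + w) * (2 ^ (b - 1) * C3) * (P ^ (1 + w) * (X : ℝ) ^ (w / 8) * (Y * R) ^ (-w)) := by
            rw [h4]; field_simp; ring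
        _ ≤ 48 * C1 ^ (1 + w) * (2 ^ (b - 1) * C3) * (P ^ (1 + w) * (X : ℝ) ^ (w / 8) * (8 * (X : ℝ) ^ (-(17 / 18 * w)))) := by
            gcongr
        _ = 48 * C1 ^ (1 + w) * D * (P ^ (1 + w) * (X : ℝ) ^ (w / 8) * (X : ℝ) ^ (-(17 / 18 * w))) := by rw [hD]; ring
        _ ≤ 48 * C1 ^ (1 + w) * D * (X : ℝ) ^ (-(w / 2) - w / 8) := mul_le_mul_of_nonneg_left hexp (by positivity))
    refine h1.trans ?_
    have h2 := hlev X hX
    calc ((Nat.log 2 (X ^ (κ + 1)) + 2 : ℕ) : ℝ) * (48 * C1 ^ (1 + w) * D * (X : ℝ) ^ (-(w / 2) - w / 8))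
        ≤ (C4 * (X : ℝ) ^ (w / 8)) * (48 * C1 ^ (1 + w) * D * (X : ℝ) ^ (-(w / 2) - w / 8)) :=
          mul_le_mul_of_nonneg_right h2 (by positivity)
      _ = C4 * (48 * C1 ^ (1 + w) * D) * ((X : ℝ) ^ (w / 8) * (X : ℝ) ^ (-(w / 2) - w / 8)) := by ring
      _ = C4 * (48 * C1 ^ (1 + w) * D) * (X : ℝ) ^ (-(w / 2)) := by
          rw [← Real.rpow_add hX0]; congr 2; ring
  have hpartB : ∑ a ∈ M2, V a ^ (1 + w) * f a ^ b ≤ C1 ^ w * C2 * D * (X : ℝ) ^ (-(w / 2)) := by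
    have hterm : ∀ a ∈ M2, V a ^ (1 + w) * f a ^ b ≤
        (C1 ^ w * (P / (Y * X)) ^ w) * (2 ^ (b - 1) * C3 * ((X : ℝ) ^ (w / 8) * (Y / X))) * V a := by
      intro a ha
      rw [hM2, Finset.mem_filter, not_le] at ha
      have h1 := (lev_facts (κ + 1) X hX4 M hM a ha.1).1
      have h2 := lev_minor (κ + 1) X ((a : ℝ) / (X : ℝ) ^ (κ + 1)) h1
      obtain ⟨h3, h4⟩ := hpt' a ha.1 X hXR le_rfl (h2.mono ha.2.le)
      rcases (hV0 a).eq_or_lt with h5 | h5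
      · rw [← h5, Real.zero_rpow (by linarith), mul_zero, zero_mul]
      · have h6 : V a ^ (1 + w) = V a ^ w * V a := by
          have := Real.rpow_add h5 w 1
          rw [Real.rpow_one, add_comm w 1] at this
          exact this
        rw [h6, ← Real.mul_rpow (by linarith) (by positivity)]
        have h7 : V a ^ w ≤ (C1 * (P / (Y * X))) ^ w := Real.rpow_le_rpow h5.le h3 hw0.le
        calc V a ^ w * V a * f a ^ b = V a ^ w * f a ^ b * V a := by ring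
          _ ≤ (C1 * (P / (Y * X))) ^ w * (2 ^ (b - 1) * C3 * ((X : ℝ) ^ (w / 8) * (Y / X))) * V a := by
              refine mul_le_mul_of_nonneg_right ?_ h5.le
              exact mul_le_mul h7 h4 (Real.rpow_nonneg (hf0 a) _) (by positivity)
    refine (Finset.sum_le_sum hterm).trans ?_
    rw [← Finset.mul_sum]
    have h1 : ∑ a ∈ M2, V a ≤ ∑ a ∈ range (X ^ (κ + 1)), V a := by
      refine Finset.sum_le_sum_of_subset_of_nonneg ?_ fun a _ _ => hV0 a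
      intro a ha
      rw [hM2, Finset.mem_filter] at ha
      exact Finset.mem_range.2 (hM a ha.1).1
    have h2 := hsum X hX Y hY1 hYX
    have h3 : ∑ a ∈ range (X ^ (κ + 1)), V a ≤ C2 * (X * P / Y) := by
      rw [← mul_div_assoc, le_div_iff₀ hY0, hV]
      have e1 : C2 * (X * P) = C2 * (X : ℝ) ^ (1 + 2 * η) := by
        rw [hP, Real.rpow_add hX0, Real.rpow_one]
      rw [e1]
      exact h2
    have h4 : (P / (Y * X)) ^ w * P = P ^ (1 + w) * (Y * X) ^ (-w) := by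
      rw [Real.div_rpow hP0.le (by positivity), Real.rpow_add hP0, Real.rpow_one, Real.rpow_neg (by positivity : (0 : ℝ) ≤ Y * X)]
      field_simp
    have h5 := hgain X hRX2
    calc (C1 ^ w * (P / (Y * X)) ^ w) * (2 ^ (b - 1) * C3 * ((X : ℝ) ^ (w / 8) * (Y / X))) * ∑ a ∈ M2, V a
        ≤ (C1 ^ w * (P / (Y * X)) ^ w) * (2 ^ (b - 1) * C3 * ((X : ℝ) ^ (w / 8) * (Y / X))) * (C2 * (X * P / Y)) :=
          mul_le_mul_of_nonneg_left (h1.trans h3) (by positivity)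
      _ = C1 ^ w * C2 * (2 ^ (b - 1) * C3) * (((P / (Y * X)) ^ w * P) * (X : ℝ) ^ (w / 8)) := by field_simp
      _ = C1 ^ w * C2 * (2 ^ (b - 1) * C3) * (P ^ (1 + w) * (X : ℝ) ^ (w / 8) * (Y * X) ^ (-w)) := by rw [h4]; ring
      _ ≤ C1 ^ w * C2 * (2 ^ (b - 1) * C3) * (P ^ (1 + w) * (X : ℝ) ^ (w / 8) * (8 * (X : ℝ) ^ (-(17 / 18 * w)))) := by gcongr
      _ = C1 ^ w * C2 * D * (P ^ (1 + w) * (X : ℝ) ^ (w / 8) * (X : ℝ) ^ (-(17 / 18 * w))) := by rw [hD]; ring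
      _ ≤ C1 ^ w * C2 * D * (X : ℝ) ^ (-(w / 2)) := mul_le_mul_of_nonneg_left (hexp.trans hexp') (by positivity)
  rw [add_mul]
  exact add_le_add hpartA hpartB

end Pool.Agent.helper132_p
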