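import Pool.Agent.helper132_p.P7

/-! The sum over the minor frequencies. -/

namespace Pool.Agent.helper132_p

open Finset Pool.Agent.helper132_sph Pool.Agent.helper132_poly Pool.Agent.helper132_quad Pool.Agent.helper132_h

/-- sum of the bad parts. -/
theorem Vb_minor_nu (κ m : ℕ) (hκ : 2 ≤ κ) (hm : κ ≤ m) (e : ℝ) (he0 : 0 < e) (he18 : e ≤ 1 / 18) :
    ∃ C : ℝ, 1 ≤ C ∧ ∀ X : ℕ, 4 ≤ X → ∀ M : Finset ℕ, Mset (κ + 1) X M →
      ∑ a ∈ M, Vb κ m X ((a : ℝ) / (X : ℝ) ^ (κ + 1)) ((X : ℝ) ^ c2 (κ + 1)) ^ (((κ + 1 : ℕ) : ℝ) + e) ≤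
        C * (X : ℝ) ^ (-e) := by
  classical
  obtain ⟨k, hk⟩ : ∃ k : ℝ, k = ((κ + 1 : ℕ) : ℝ) := ⟨_, rfl⟩
  have hκR : (2 : ℝ) ≤ κ := by exact_mod_cast hκ
  have hk3 : 3 ≤ k := by rw [hk]; push_cast; linarith
  rw [← hk]
  obtain ⟨C2, hC2, hb⟩ := Vb_bound_nu κ m hκ hm
  obtain ⟨C3, hC3, hlev⟩ := num_lev (κ + 1) (1 / 24) (by norm_num)
  have hC2p : 1 ≤ C2 ^ (k + e) := Real.one_le_rpow hC2 (by linarith)
  have h2p : 1 ≤ (2 : ℝ) ^ (k + e) := Real.one_le_rpow (by norm_num) (by linarith)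
  refine ⟨(2 ^ (k + e) * C2 ^ (k + e)) * (C3 * 96 + 1), ?_, ?_⟩
  · have h1 : (1 : ℝ) ≤ 2 ^ (k + e) * C2 ^ (k + e) := one_le_mul_of_one_le_of_one_le h2p hC2p
    have h2 : (1 : ℝ) ≤ C3 * 96 + 1 := by linarith
    exact one_le_mul_of_one_le_of_one_le h1 h2
  intro X hX4 M hM
  have hX : 1 ≤ X := by omega
  have hXR : (1 : ℝ) ≤ X := by exact_mod_cast hX
  have hX0 : (0 : ℝ) < X := by linarith
  obtain ⟨r, hr⟩ : ∃ r : ℕ → ℝ, r = fun a : ℕ => (2 : ℝ) ^ (lev (κ + 1) X ((a : ℝ) / (X : ℝ) ^ (κ + 1)) - 1) := ⟨_, rfl⟩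
  have hr1 : ∀ a, 1 ≤ r a := by intro a; rw [hr]; exact one_le_pow₀ (by norm_num)
  have hterm : ∀ a ∈ M, Vb κ m X ((a : ℝ) / (X : ℝ) ^ (κ + 1)) ((X : ℝ) ^ c2 (κ + 1)) ^ (k + e) ≤
      (2 ^ (k + e) * C2 ^ (k + e)) * (r a ^ (-(5 / 2) : ℝ) + (X : ℝ) ^ (-(k + e))) := by
    intro a ha
    have h1 := (lev_facts (κ + 1) X hX4 M hM a ha).1
    have h2 := lev_minor (κ + 1) X ((a : ℝ) / (X : ℝ) ^ (κ + 1)) h1
    have h3 := hb X hX ((a : ℝ) / (X : ℝ) ^ (κ + 1)) (r a) (hr1 a) (by rw [hr]; exact h2)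
    have hra0 : 0 < r a := by linarith [hr1 a]
    have h4 := Vb_nonneg κ m X ((a : ℝ) / (X : ℝ) ^ (κ + 1)) ((X : ℝ) ^ c2 (κ + 1))
    refine (Real.rpow_le_rpow h4 h3 (by linarith)).trans ?_
    rw [← hk, Real.mul_rpow (by linarith) (by positivity)]
    have h5 := add_rpow_le (r a ^ (-(5 / (2 * k)))) (1 / X) (k + e) (by positivity) (by positivity) (by linarith)
    have h6 : (r a ^ (-(5 / (2 * k)))) ^ (k + e) ≤ r a ^ (-(5 / 2) : ℝ) := by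
      rw [← Real.rpow_mul hra0.le]
      refine Real.rpow_le_rpow_of_exponent_le (hr1 a) ?_
      have e1 : -(5 / (2 * k)) * (k + e) = -(5 / 2) - 5 / (2 * k) * e := by field_simp; ring
      rw [e1]
      have : 0 ≤ 5 / (2 * k) * e := by positivity
      linarith
    have h7 : (1 / (X : ℝ)) ^ (k + e) = (X : ℝ) ^ (-(k + e)) := by
      rw [one_div, Real.inv_rpow hX0.le, Real.rpow_neg hX0.le]
    rw [h7] at h5
    calc C2 ^ (k + e) * (r a ^ (-(5 / (2 * k))) + 1 / X) ^ (k + e)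
        ≤ C2 ^ (k + e) * (2 ^ (k + e) * ((r a ^ (-(5 / (2 * k)))) ^ (k + e) + (X : ℝ) ^ (-(k + e)))) :=
          mul_le_mul_of_nonneg_left h5 (by positivity)
      _ ≤ C2 ^ (k + e) * (2 ^ (k + e) * (r a ^ (-(5 / 2) : ℝ) + (X : ℝ) ^ (-(k + e)))) := by gcongr
      _ = _ := by ring
  refine (Finset.sum_le_sum hterm).trans ?_
  rw [← Finset.mul_sum, Finset.sum_add_distrib]
  have e0 : 2 ^ (k + e) * C2 ^ (k + e) * (C3 * 96 + 1) * (X : ℝ) ^ (-e) =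
      (2 ^ (k + e) * C2 ^ (k + e)) * ((C3 * 96 + 1) * (X : ℝ) ^ (-e)) := by ring
  rw [e0]
  refine mul_le_mul_of_nonneg_left ?_ (by positivity)
  have hpos : (0 : ℝ) ≤ 96 * (X : ℝ) ^ (-(1 / 4) : ℝ) := by positivity
  have hA : ∑ a ∈ M, r a ^ (-(5 / 2) : ℝ) ≤ C3 * 96 * (X : ℝ) ^ (-e) := by
    have h1 := level_sum (κ + 1) X M (fun a => r a ^ (-(5 / 2) : ℝ)) (96 * (X : ℝ) ^ (-(1 / 4) : ℝ)) (by
      intro ν
      obtain ⟨S, hS⟩ : ∃ S, S = M.filter (fun a : ℕ => lev (κ + 1) X ((a : ℝ) / (X : ℝ) ^ (κ + 1)) = ν) := ⟨_, rfl⟩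
      rw [← hS]
      rcases S.eq_empty_or_nonempty with h0 | ⟨a0, ha0⟩
      · rw [h0, Finset.sum_empty]; exact hpos
      have hSM : ∀ a ∈ S, a ∈ M ∧ lev (κ + 1) X ((a : ℝ) / (X : ℝ) ^ (κ + 1)) = ν := by
        intro a ha
        rw [hS, Finset.mem_filter] at ha
        exact ha
      obtain ⟨hν1, hνX⟩ : 1 ≤ ν ∧ (X : ℝ) ^ ((1 : ℝ) / 2) / 4 ≤ 2 ^ (ν - 1) := by
        obtain ⟨h1, h2⟩ := hSM a0 ha0
        have := lev_facts (κ + 1) X hX4 M hM a0 h1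
        rwa [h2] at this
      obtain ⟨R, hR⟩ : ∃ R : ℝ, R = 2 ^ (ν - 1) := ⟨_, rfl⟩
      have hR1 : 1 ≤ R := by rw [hR]; exact one_le_pow₀ (by norm_num)
      have hR0 : 0 < R := by linarith
      rw [← hR] at hνX
      have h2ν : (2 : ℝ) ^ ν = 2 * R := by
        rw [hR, ← pow_succ']; congr 1; omega
      have hcard := card_arc (κ + 1) X hX ν S (by
        intro a ha
        obtain ⟨h1, h2⟩ := hSM a ha
        refine ⟨(hM a h1).1, ?_⟩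
        have := lev_in (κ + 1) X ((a : ℝ) / (X : ℝ) ^ (κ + 1))
        rwa [h2] at this)
      rw [h2ν] at hcard
      have hterm2 : ∀ a ∈ S, r a ^ (-(5 / 2) : ℝ) ≤ R ^ (-(5 / 2) : ℝ) := by
        intro a ha
        have h2 := (hSM a ha).2
        have h3 : r a = R := by rw [hr]; beta_reduce; rw [h2, hR]
        rw [h3]
      refine (Finset.sum_le_sum hterm2).trans ?_
      rw [Finset.sum_const, nsmul_eq_mul]
      have h5 : R ^ (2 : ℝ) * R ^ (-(5 / 2) : ℝ) ≤ 2 * (X : ℝ) ^ (-(1 / 4) : ℝ) := by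
        rw [← Real.rpow_add hR0]
        have e1 : (2 : ℝ) + -(5 / 2) = -(1 / 2) := by norm_num
        rw [e1]
        have h6 : R ^ (-(1 / 2) : ℝ) ≤ ((X : ℝ) ^ ((1 : ℝ) / 2) / 4) ^ (-(1 / 2) : ℝ) :=
          Real.rpow_le_rpow_of_nonpos (by positivity) hνX (by norm_num)
        refine h6.trans (le_of_eq ?_)
        rw [Real.div_rpow (by positivity) (by norm_num), ← Real.rpow_mul hX0.le]
        have e2 : (1 : ℝ) / 2 * -(1 / 2) = -(1 / 4) := by norm_num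
        have e3 : (4 : ℝ) ^ (-(1 / 2) : ℝ) = 1 / 2 := by
          have : (4 : ℝ) = 2 ^ (2 : ℝ) := by norm_num
          rw [this, ← Real.rpow_mul (by norm_num)]
          have e4 : (2 : ℝ) * -(1 / 2) = -1 := by norm_num
          rw [e4, Real.rpow_neg_one]; norm_num
        rw [e2, e3]
        ring
      have h6 : R ^ (2 : ℝ) = R ^ 2 := by exact_mod_cast Real.rpow_natCast R 2
      rw [h6] at h5
      calc (S.card : ℝ) * R ^ (-(5 / 2) : ℝ) ≤ (12 * (2 * R) ^ 2) * R ^ (-(5 / 2) : ℝ) :=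
            mul_le_mul_of_nonneg_right hcard (by positivity)
        _ = 48 * (R ^ 2 * R ^ (-(5 / 2) : ℝ)) := by ring
        _ ≤ 48 * (2 * (X : ℝ) ^ (-(1 / 4) : ℝ)) := mul_le_mul_of_nonneg_left h5 (by norm_num)
        _ = _ := by ring)
    refine h1.trans ?_
    have h2 := hlev X hX
    have h3 : (X : ℝ) ^ ((1 : ℝ) / 24) * (X : ℝ) ^ (-(1 / 4) : ℝ) ≤ (X : ℝ) ^ (-e) := by
      rw [← Real.rpow_add hX0]
      exact Real.rpow_le_rpow_of_exponent_le hXR (by linarith)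
    calc ((Nat.log 2 (X ^ (κ + 1)) + 2 : ℕ) : ℝ) * (96 * (X : ℝ) ^ (-(1 / 4) : ℝ))
        ≤ (C3 * (X : ℝ) ^ ((1 : ℝ) / 24)) * (96 * (X : ℝ) ^ (-(1 / 4) : ℝ)) :=
          mul_le_mul_of_nonneg_right h2 (by positivity)
      _ = C3 * 96 * ((X : ℝ) ^ ((1 : ℝ) / 24) * (X : ℝ) ^ (-(1 / 4) : ℝ)) := by ring
      _ ≤ _ := mul_le_mul_of_nonneg_left h3 (by positivity)
  have hB : ∑ _a ∈ M, (X : ℝ) ^ (-(k + e)) ≤ 1 * (X : ℝ) ^ (-e) := by
    rw [Finset.sum_const, nsmul_eq_mul, one_mul]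
    have h1 : (M.card : ℝ) ≤ (X : ℝ) ^ (κ + 1) := by
      have h2 : M ⊆ range (X ^ (κ + 1)) := by
        intro a ha
        exact Finset.mem_range.2 (hM a ha).1
      have h3 := Finset.card_le_card h2
      rw [Finset.card_range] at h3
      exact_mod_cast h3
    calc (M.card : ℝ) * (X : ℝ) ^ (-(k + e)) ≤ (X : ℝ) ^ (κ + 1) * (X : ℝ) ^ (-(k + e)) :=
          mul_le_mul_of_nonneg_right h1 (by positivity)
      _ = (X : ℝ) ^ (-e) := by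
          rw [← Real.rpow_natCast (X : ℝ) (κ + 1), ← hk, ← Real.rpow_add hX0]
          congr 1
          ring
  calc _ ≤ C3 * 96 * (X : ℝ) ^ (-e) + 1 * (X : ℝ) ^ (-e) := add_le_add hA hB
    _ = _ := by ring


lemma sum_rpow_le_card (I : Finset ℕ) (x : ℕ → ℝ) (hx : ∀ i, 0 ≤ x i) (p : ℝ) (hp : 0 < p) :
    (∑ i ∈ I, x i) ^ p ≤ (I.card : ℝ) ^ p * ∑ i ∈ I, x i ^ p := by
  rcases I.eq_empty_or_nonempty with h | h
  · rw [h]; simp [Real.zero_rpow hp.ne']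
  · obtain ⟨i0, hi0, hmax⟩ := Finset.exists_max_image I x h
    have h1 : ∑ i ∈ I, x i ≤ I.card * x i0 := by
      rw [← nsmul_eq_mul, ← Finset.sum_const]
      exact Finset.sum_le_sum hmax
    have h2 : x i0 ^ p ≤ ∑ i ∈ I, x i ^ p :=
      Finset.single_le_sum (f := fun i => x i ^ p) (fun i _ => Real.rpow_nonneg (hx i) _) hi0
    calc (∑ i ∈ I, x i) ^ p ≤ (I.card * x i0) ^ p := Real.rpow_le_rpow (Finset.sum_nonneg fun i _ => hx i) h1 hp.le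
      _ = (I.card : ℝ) ^ p * x i0 ^ p := Real.mul_rpow (Nat.cast_nonneg _) (hx _)
      _ ≤ _ := mul_le_mul_of_nonneg_left h2 (by positivity)

/-- splitting into slices. -/
lemma Dr_split (κ X : ℕ) (hκ1 : 1 ≤ κ) (hX : 1 ≤ X) (α Q t : ℝ) (hQ1 : 1 ≤ Q) (hQX : Q ≤ X) (ht : (κ : ℝ) ≤ t) :
    Dr (κ + 1) X α t ≤ Vb κ κ X α Q +
      ∑ i ∈ (range (Nat.log 2 X + 2)).filter (fun (i : ℕ) => Q / 2 ≤ (X : ℝ) / 2 ^ i), Gs κ X α ((X : ℝ) / 2 ^ i) t := by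
  classical
  have hXR : (1 : ℝ) ≤ X := by exact_mod_cast hX
  have hX0 : (0 : ℝ) < X := by linarith
  unfold Dr Vb Gs
  rw [← Finset.sum_div, ← add_div]
  refine div_le_div_of_nonneg_right ?_ hX0.le
  obtain ⟨I, hI⟩ : ∃ I, I = (range (Nat.log 2 X + 2)).filter (fun (i : ℕ) => Q / 2 ≤ (X : ℝ) / 2 ^ i) := ⟨_, rfl⟩
  rw [← hI]
  have h1 : ∀ i ∈ I, ∑ h ∈ Sl κ X α ((X : ℝ) / 2 ^ i), dl (κ + 1) X α h ^ t =
      ∑ h ∈ Ioo (-(X : ℤ)) X, if h ∈ Sl κ X α ((X : ℝ) / 2 ^ i) then dl (κ + 1) X α h ^ t else 0 := by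
    intro i _
    rw [← Finset.sum_filter]
    refine Finset.sum_congr ?_ fun _ _ => rfl
    ext h
    rw [Finset.mem_filter]
    constructor
    · intro hh
      refine ⟨?_, hh⟩
      unfold Sl at hh
      exact (Finset.mem_filter.1 hh).1
    · exact fun hh => hh.2
  rw [Finset.sum_congr rfl h1, Finset.sum_comm, ← Finset.sum_add_distrib]
  refine Finset.sum_le_sum fun h hh => ?_
  have hd0 := dl_nonneg (κ + 1) X α h
  have hd1 := dl_le_one (κ + 1) X α h hX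
  have hdt : 0 ≤ dl (κ + 1) X α h ^ t := Real.rpow_nonneg hd0 _
  have hnn : ∀ i ∈ I, 0 ≤ (if h ∈ Sl κ X α ((X : ℝ) / 2 ^ i) then dl (κ + 1) X α h ^ t else 0) := by
    intro i _
    split_ifs
    · exact hdt
    · exact le_rfl
  have hsn := Finset.sum_nonneg hnn
  split_ifs with hm
  · -- good shift
    rw [zero_add]
    have hex : ∃ i : ℕ, Pool.Agent.helper132_poly.Minor κ X (h * α) ((X : ℝ) / 2 ^ i) ∧ i < Nat.log 2 X + 2 := by
      refine ⟨Nat.log 2 X + 1, ?_, by omega⟩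
      refine hm.mono ?_
      have h2 : X < 2 ^ (Nat.log 2 X + 1) := Nat.lt_pow_succ_log_self (by norm_num) _
      have h3 : (X : ℝ) ≤ 2 ^ (Nat.log 2 X + 1) := by exact_mod_cast h2.le
      calc (X : ℝ) / 2 ^ (Nat.log 2 X + 1) ≤ 1 := (div_le_one (by positivity)).2 h3
        _ ≤ Q := hQ1
    obtain ⟨i, hi⟩ : ∃ i, i = Nat.find hex := ⟨_, rfl⟩
    have hi1 := Nat.find_spec hex
    rw [← hi] at hi1
    have hmin : ∀ j, j < i → ¬ Pool.Agent.helper132_poly.Minor κ X (h * α) ((X : ℝ) / 2 ^ j) := by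
      intro j hj hmj
      rw [hi] at hj
      exact Nat.find_min hex hj ⟨hmj, by omega⟩
    have h2i : ∀ j, i = j + 1 → 2 * ((X : ℝ) / 2 ^ i) = (X : ℝ) / 2 ^ j := by
      intro j hj
      rw [hj, pow_succ]; field_simp
    have hiI : i ∈ I := by
      rw [hI, Finset.mem_filter, Finset.mem_range]
      refine ⟨hi1.2, ?_⟩
      rcases Nat.eq_zero_or_pos i with h0 | h0
      · rw [h0, pow_zero, div_one]; linarith
      · obtain ⟨j, hj⟩ : ∃ j, i = j + 1 := ⟨i - 1, by omega⟩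
        have h2 := h2i j hj
        have h3 : Q < (X : ℝ) / 2 ^ j := by
          by_contra hcon
          exact hmin j (by omega) (hm.mono (not_lt.1 hcon))
        linarith
    have hSl : h ∈ Sl κ X α ((X : ℝ) / 2 ^ i) := by
      unfold Sl
      rw [Finset.mem_filter]
      refine ⟨hh, hi1.1, ?_⟩
      intro h2
      rcases Nat.eq_zero_or_pos i with h0 | h0
      · rw [h0, pow_zero, div_one] at h2; linarith
      · obtain ⟨j, hj⟩ : ∃ j, i = j + 1 := ⟨i - 1, by omega⟩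
        rw [h2i j hj]
        exact hmin j (by omega)
    have h5 := Finset.single_le_sum hnn hiI
    rw [if_pos hSl] at h5
    exact h5
  · have h2 : dl (κ + 1) X α h ^ t ≤ dl (κ + 1) X α h ^ κ := by
      rcases hd0.eq_or_lt with h3 | h3
      · have : 0 < t := lt_of_lt_of_le (by exact_mod_cast hκ1) ht
        rw [← h3, Real.zero_rpow this.ne']
        positivity
      · rw [← Real.rpow_natCast]
        exact Real.rpow_le_rpow_of_exponent_ge h3 hd1 ht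
    linarith

/-- the sum over the minor frequencies. -/
theorem minor_t (κ s : ℕ) (hκ : 2 ≤ κ) (hs : 1 ≤ s) (hs2 : 2 * s = κ * (κ + 1)) (w : ℝ)
    (hw : w = 1 / (2 * ((κ : ℝ) * ((κ + 1 : ℕ) : ℝ)))) (CJ : ℝ) (hCJ : 1 ≤ CJ)
    (hJ : MVT κ s (w / 32) CJ) (t : ℝ) (ht : t = (2 * ((κ : ℝ) * ((κ + 1 : ℕ) : ℝ)) + 1) / (2 * (((κ + 1 : ℕ) : ℝ) + w / 4))) :
    ∃ C : ℝ, 1 ≤ C ∧ ∀ (X : ℕ) (M : Finset ℕ), 1 ≤ X → Mset (κ + 1) X M →
      ∑ a ∈ M, Dr (κ + 1) X ((a : ℝ) / (X : ℝ) ^ (κ + 1)) t ^ (((κ + 1 : ℕ) : ℝ) + w / 4) ≤ C * (X : ℝ) ^ (-(w / 4)) := by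
  classical
  obtain ⟨k, hk⟩ : ∃ k : ℝ, k = ((κ + 1 : ℕ) : ℝ) := ⟨_, rfl⟩
  have hκR : (2 : ℝ) ≤ κ := by exact_mod_cast hκ
  have hκ0 : (0 : ℝ) < κ := by linarith
  have hkκ : k = κ + 1 := by rw [hk]; push_cast; ring
  have hk3 : 3 ≤ k := by rw [hkκ]; linarith
  rw [← hk] at hw ht ⊢
  have hκk0 : 0 < (κ : ℝ) * k := by positivity
  have hκk6 : 6 ≤ (κ : ℝ) * k := by nlinarith
  have hw0 : 0 < w := by rw [hw]; positivity
  have hwe : w * (κ * k) = 1 / 2 := by rw [hw]; field_simp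
  have hw12 : w ≤ 1 / 12 := by
    rw [hw, div_le_div_iff₀ (by positivity) (by norm_num)]; linarith
  obtain ⟨e, he⟩ : ∃ e : ℝ, e = w / 4 := ⟨_, rfl⟩
  rw [← he] at ht ⊢
  have he0 : 0 < e := by rw [he]; positivity
  have he18 : e ≤ 1 / 18 := by rw [he]; linarith
  have hS : ((2 * s : ℕ) : ℝ) = κ * k := by rw [hs2, hkκ]; push_cast; ring
  have htk : t * (k + e) = κ * k + 1 / 2 := by
    rw [ht]
    have : k + e ≠ 0 := by positivity
    field_simp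
  have ht0 : 0 < t := by rw [ht]; positivity
  have htκ : (κ : ℝ) ≤ t := by
    rw [ht, le_div_iff₀ (by positivity)]
    have h1 : 2 * (κ : ℝ) * e ≤ 1 := by
      have h2 : (κ : ℝ) * e * k = 1 / 8 := by rw [he]; linarith
      have h3 : (κ : ℝ) * e * 3 ≤ κ * e * k := mul_le_mul_of_nonneg_left hk3 (by positivity)
      linarith
    linarith
  have hts : t < ((2 * s : ℕ) : ℝ) := by
    rw [hS]
    have h1 : t * 3 ≤ t * (k + e) := mul_le_mul_of_nonneg_left (by linarith) ht0.le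
    rw [htk] at h1
    linarith
  obtain ⟨b, hb⟩ : ∃ b : ℝ, b = (k + e) - (1 + w) := ⟨_, rfl⟩
  have hb1 : 1 ≤ b := by rw [hb]; linarith
  have hp : t / ((2 * s : ℕ) : ℝ) * (k + e) = 1 + w := by
    rw [hS, div_mul_eq_mul_div, htk, add_div, div_self hκk0.ne', hw]
    congr 1
    field_simp
  have hp' : (1 - t / ((2 * s : ℕ) : ℝ)) * (k + e) = b := by rw [sub_mul, hp, hb]; ring
  obtain ⟨C1, hC1, hsl⟩ := slice_sum κ s hκ hs w hw0 (by linarith) CJ hCJ hJ b hb1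
  obtain ⟨C2, hC2, hbad⟩ := Vb_minor_nu κ κ hκ le_rfl e he0 he18
  obtain ⟨C3, hC3, hlev⟩ := num_lev (κ + 1) (w / (4 * (k + 2))) (by positivity)
  rw [← hk] at hbad
  have h2p : 1 ≤ (2 : ℝ) ^ (k + e) := Real.one_le_rpow (by norm_num) (by linarith)
  have h3p : 1 ≤ C3 ^ (k + 2) := Real.one_le_rpow hC3 (by linarith)
  have h4p : (1 : ℝ) ≤ 16 ^ (κ + 1) := one_le_pow₀ (by norm_num)
  refine ⟨2 ^ (k + e) * (C2 + C3 ^ (k + 2) * C1) + 16 ^ (κ + 1) * 2 ^ (k + e) * 16, ?_, ?_⟩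
  · have h1 : (1 : ℝ) ≤ 16 ^ (κ + 1) * 2 ^ (k + e) := one_le_mul_of_one_le_of_one_le h4p h2p
    have h2 : (0 : ℝ) ≤ 2 ^ (k + e) * (C2 + C3 ^ (k + 2) * C1) := by positivity
    linarith
  intro X M hX hM
  have hXR : (1 : ℝ) ≤ X := by exact_mod_cast hX
  have hX0 : (0 : ℝ) < X := by linarith
  have hXe : 0 < (X : ℝ) ^ (-e) := by positivity
  rcases lt_or_ge X 16 with hX4 | hX4
  · have h1 : ∀ a ∈ M, Dr (κ + 1) X ((a : ℝ) / (X : ℝ) ^ (κ + 1)) t ^ (k + e) ≤ 2 ^ (k + e) := fun a _ =>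
      Real.rpow_le_rpow (Dr_nonneg _ _ _ _) (Dr_le_two _ _ _ _ hX ht0.le) (by linarith)
    refine (Finset.sum_le_sum h1).trans ?_
    rw [Finset.sum_const, nsmul_eq_mul]
    have h2 : (M.card : ℝ) ≤ 16 ^ (κ + 1) := by
      have h3 : M ⊆ range (16 ^ (κ + 1)) := by
        intro a ha
        refine Finset.mem_range.2 (lt_of_lt_of_le (hM a ha).1 ?_)
        exact Nat.pow_le_pow_left (by omega) _
      have h4 := Finset.card_le_card h3
      rw [Finset.card_range] at h4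
      exact_mod_cast h4
    have h5 : 1 ≤ 16 * (X : ℝ) ^ (-e) := by
      have h6 : (16 : ℝ) ^ (-e) ≤ (X : ℝ) ^ (-e) :=
        Real.rpow_le_rpow_of_nonpos hX0 (by exact_mod_cast hX4.le) (by linarith)
      have h7 : (16 : ℝ) ^ (-1 : ℝ) ≤ 16 ^ (-e) := Real.rpow_le_rpow_of_exponent_le (by norm_num) (by linarith)
      rw [Real.rpow_neg_one] at h7
      have : (16 : ℝ)⁻¹ = 1 / 16 := by norm_num
      linarith
    have h8 : 0 ≤ 2 ^ (k + e) * (C2 + C3 ^ (k + 2) * C1) * (X : ℝ) ^ (-e) := by positivity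
    calc (M.card : ℝ) * 2 ^ (k + e) ≤ 16 ^ (κ + 1) * 2 ^ (k + e) := mul_le_mul_of_nonneg_right h2 (by positivity)
      _ = 16 ^ (κ + 1) * 2 ^ (k + e) * 1 := by ring
      _ ≤ 16 ^ (κ + 1) * 2 ^ (k + e) * (16 * (X : ℝ) ^ (-e)) := mul_le_mul_of_nonneg_left h5 (by positivity)
      _ ≤ (2 ^ (k + e) * (C2 + C3 ^ (k + 2) * C1) + 16 ^ (κ + 1) * 2 ^ (k + e) * 16) * (X : ℝ) ^ (-e) := by linarith
  · have hX16 : (16 : ℝ) ≤ X := by exact_mod_cast hX4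
    obtain ⟨Q, hQ⟩ : ∃ Q : ℝ, Q = (X : ℝ) ^ c2 (κ + 1) := ⟨_, rfl⟩
    have hcp := c2_pos (κ + 1)
    have hQ2 : 2 ≤ Q := by
      rw [hQ]
      calc (2 : ℝ) ≤ (16 : ℝ) ^ ((4 : ℝ) / 9) := by
            have : (16 : ℝ) = 2 ^ (4 : ℝ) := by norm_num
            rw [this, ← Real.rpow_mul (by norm_num)]
            calc (2 : ℝ) = 2 ^ (1 : ℝ) := (Real.rpow_one _).symm
              _ ≤ 2 ^ ((4 : ℝ) * (4 / 9)) := Real.rpow_le_rpow_of_exponent_le (by norm_num) (by norm_num)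
        _ ≤ (X : ℝ) ^ ((4 : ℝ) / 9) := Real.rpow_le_rpow (by norm_num) hX16 (by norm_num)
        _ ≤ _ := Real.rpow_le_rpow_of_exponent_le hXR hcp.1
    have hQX : Q ≤ X := by
      rw [hQ]
      calc (X : ℝ) ^ c2 (κ + 1) ≤ (X : ℝ) ^ (1 : ℝ) := Real.rpow_le_rpow_of_exponent_le hXR hcp.2
        _ = X := Real.rpow_one _
    obtain ⟨I, hI⟩ : ∃ I, I = (range (Nat.log 2 X + 2)).filter (fun (i : ℕ) => Q / 2 ≤ (X : ℝ) / 2 ^ i) := ⟨_, rfl⟩
    have hterm : ∀ a ∈ M, Dr (κ + 1) X ((a : ℝ) / (X : ℝ) ^ (κ + 1)) t ^ (k + e) ≤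
        2 ^ (k + e) * (Vb κ κ X ((a : ℝ) / (X : ℝ) ^ (κ + 1)) Q ^ (k + e) +
          (I.card : ℝ) ^ (k + e) * ∑ i ∈ I, (Vg κ (2 * s) X ((a : ℝ) / (X : ℝ) ^ (κ + 1)) ((X : ℝ) / 2 ^ i) ^ (1 + w) *
        (((Sl κ X ((a : ℝ) / (X : ℝ) ^ (κ + 1)) ((X : ℝ) / 2 ^ i)).card : ℝ) / X) ^ b)) := by
      intro a _
      obtain ⟨α, hα⟩ : ∃ α : ℝ, α = (a : ℝ) / (X : ℝ) ^ (κ + 1) := ⟨_, rfl⟩
      rw [← hα]
      have h1 := Dr_split κ X (by omega) hX α Q t (by linarith) hQX htκ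
      rw [← hI] at h1
      refine (Real.rpow_le_rpow (Dr_nonneg _ _ _ _) h1 (by linarith)).trans ?_
      refine (add_rpow_le _ _ (k + e) (Vb_nonneg _ _ _ _ _) (Finset.sum_nonneg fun i _ => Gs_nonneg _ _ _ _ _) (by linarith)).trans ?_
      refine mul_le_mul_of_nonneg_left ?_ (by positivity)
      refine add_le_add le_rfl ?_
      refine (sum_rpow_le_card I (fun i => Gs κ X α ((X : ℝ) / 2 ^ i) t) (fun i => Gs_nonneg _ _ _ _ _) (k + e) (by linarith)).trans ?_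
      refine mul_le_mul_of_nonneg_left ?_ (by positivity)
      refine Finset.sum_le_sum fun i _ => ?_
      have h2 := Gs_holder κ s X hX α ((X : ℝ) / 2 ^ i) t ht0 hts
      have hV0 := Vg_nonneg κ (2 * s) X α ((X : ℝ) / 2 ^ i)
      have hf0 : 0 ≤ ((Sl κ X α ((X : ℝ) / 2 ^ i)).card : ℝ) / X := by positivity
      refine (Real.rpow_le_rpow (Gs_nonneg _ _ _ _ _) h2 (by linarith)).trans (le_of_eq ?_)
      rw [Real.mul_rpow (by positivity) (by positivity), ← Real.rpow_mul hV0, ← Real.rpow_mul hf0, hp, hp']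
    refine (Finset.sum_le_sum hterm).trans ?_
    rw [← Finset.mul_sum, Finset.sum_add_distrib, ← Finset.mul_sum, Finset.sum_comm]
    have hB := hbad X (by omega) M hM
    rw [← hQ] at hB
    have hG : ∀ i ∈ I, ∑ a ∈ M, (Vg κ (2 * s) X ((a : ℝ) / (X : ℝ) ^ (κ + 1)) ((X : ℝ) / 2 ^ i) ^ (1 + w) *
        (((Sl κ X ((a : ℝ) / (X : ℝ) ^ (κ + 1)) ((X : ℝ) / 2 ^ i)).card : ℝ) / X) ^ b) ≤ C1 * (X : ℝ) ^ (-(w / 2)) := by
      intro i hi
      rw [hI, Finset.mem_filter] at hi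
      refine hsl X (by omega) M hM ((X : ℝ) / 2 ^ i) (by linarith [hi.2]) ?_ (by rw [← hQ]; exact hi.2)
      exact div_le_self hX0.le (one_le_pow₀ (by norm_num))
    have hIc : (I.card : ℝ) ≤ C3 * (X : ℝ) ^ (w / (4 * (k + 2))) := by
      refine le_trans ?_ (hlev X hX)
      have h1 : I.card ≤ Nat.log 2 X + 2 := by
        rw [hI]
        refine (Finset.card_filter_le _ _).trans ?_
        rw [Finset.card_range]
      have h2 : Nat.log 2 X ≤ Nat.log 2 (X ^ (κ + 1)) := Nat.log_mono_right (Nat.le_self_pow (by omega) _)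
      exact_mod_cast (by omega : I.card ≤ Nat.log 2 (X ^ (κ + 1)) + 2)
    have hIp : (I.card : ℝ) ^ (k + e) * I.card ≤ C3 ^ (k + 2) * (X : ℝ) ^ (w / 4) := by
      obtain ⟨Z, hZ⟩ : ∃ Z : ℝ, Z = C3 * (X : ℝ) ^ (w / (4 * (k + 2))) := ⟨_, rfl⟩
      have hZ1 : 1 ≤ Z := by
        rw [hZ]
        exact one_le_mul_of_one_le_of_one_le hC3 (Real.one_le_rpow hXR (by positivity))
      rw [← hZ] at hIc
      calc (I.card : ℝ) ^ (k + e) * I.card ≤ Z ^ (k + e) * Z :=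
            mul_le_mul (Real.rpow_le_rpow (Nat.cast_nonneg _) hIc (by linarith)) hIc (Nat.cast_nonneg _) (by positivity)
        _ = Z ^ (k + e + 1) := by rw [Real.rpow_add (by linarith : (0 : ℝ) < Z) (k + e) 1, Real.rpow_one]
        _ ≤ Z ^ (k + 2) := Real.rpow_le_rpow_of_exponent_le hZ1 (by linarith)
        _ = C3 ^ (k + 2) * (X : ℝ) ^ (w / 4) := by
            rw [hZ, Real.mul_rpow (by linarith) (by positivity), ← Real.rpow_mul hX0.le]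
            congr 2
            field_simp
    have hmain : (I.card : ℝ) ^ (k + e) * ∑ i ∈ I, ∑ a ∈ M, (Vg κ (2 * s) X ((a : ℝ) / (X : ℝ) ^ (κ + 1)) ((X : ℝ) / 2 ^ i) ^ (1 + w) *
        (((Sl κ X ((a : ℝ) / (X : ℝ) ^ (κ + 1)) ((X : ℝ) / 2 ^ i)).card : ℝ) / X) ^ b) ≤ C3 ^ (k + 2) * C1 * (X : ℝ) ^ (-e) := by
      have h1 := Finset.sum_le_sum hG
      rw [Finset.sum_const, nsmul_eq_mul] at h1
      calc _ ≤ (I.card : ℝ) ^ (k + e) * (I.card * (C1 * (X : ℝ) ^ (-(w / 2)))) := mul_le_mul_of_nonneg_left h1 (by positivity)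
        _ = ((I.card : ℝ) ^ (k + e) * I.card) * (C1 * (X : ℝ) ^ (-(w / 2))) := by ring
        _ ≤ (C3 ^ (k + 2) * (X : ℝ) ^ (w / 4)) * (C1 * (X : ℝ) ^ (-(w / 2))) := mul_le_mul_of_nonneg_right hIp (by positivity)
        _ = C3 ^ (k + 2) * C1 * ((X : ℝ) ^ (w / 4) * (X : ℝ) ^ (-(w / 2))) := by ring
        _ = C3 ^ (k + 2) * C1 * (X : ℝ) ^ (-e) := by
            rw [← Real.rpow_add hX0, he]; congr 2; ring
    have h3 : 0 ≤ 16 ^ (κ + 1) * 2 ^ (k + e) * 16 * (X : ℝ) ^ (-e) := by positivity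
    calc _ ≤ 2 ^ (k + e) * (C2 * (X : ℝ) ^ (-e) + C3 ^ (k + 2) * C1 * (X : ℝ) ^ (-e)) :=
          mul_le_mul_of_nonneg_left (add_le_add hB hmain) (by positivity)
      _ ≤ (2 ^ (k + e) * (C2 + C3 ^ (k + 2) * C1) + 16 ^ (κ + 1) * 2 ^ (k + e) * 16) * (X : ℝ) ^ (-e) := by linarith

end Pool.Agent.helper132_p
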