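import Pool.Agent.helper132_p.P8

/-! The Weyl bound for cubes. -/

namespace Pool.Agent.helper132_p

open Finset Pool.Agent.helper132_sph Pool.Agent.helper132_poly Pool.Agent.helper132_quad Pool.Agent.helper132_h

lemma min_inv_le (X : ℕ) (hX : 1 ≤ X) (β A : ℝ) (hAX : A ≤ X) (hA : ∃ c : ℤ, |β - c| * A ≤ 1) :
    A ≤ 64 * (1 + ∑ i ∈ range (Nat.log 2 X + 1), KX (2 ^ i) β) := by
  have hsn : ∀ i ∈ range (Nat.log 2 X + 1), 0 ≤ KX (2 ^ i) β := fun i _ => KX_nonneg _ _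
  have hs0 := Finset.sum_nonneg hsn
  rcases le_or_gt A 64 with h | h
  · linarith
  · obtain ⟨c, hc⟩ := hA
    have hA0 : 0 < A := by linarith
    obtain ⟨n, hn⟩ : ∃ n : ℕ, n = ⌊A / 32⌋₊ := ⟨_, rfl⟩
    have hn1 : 1 ≤ n := by
      rw [hn]; refine (Nat.one_le_floor_iff _).2 ?_
      rw [le_div_iff₀ (by norm_num)]; linarith
    have hnle : (n : ℝ) ≤ A / 32 := by rw [hn]; exact Nat.floor_le (by positivity)
    have hnge : A / 32 < (n : ℝ) + 1 := by rw [hn]; exact Nat.lt_floor_add_one _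
    obtain ⟨i, hi⟩ : ∃ i, i = Nat.log 2 n := ⟨_, rfl⟩
    have h2i : 2 ^ i ≤ n := by rw [hi]; exact Nat.pow_log_le_self 2 (by omega)
    have h2i' : n < 2 ^ (i + 1) := by rw [hi]; exact Nat.lt_pow_succ_log_self (by norm_num) _
    have h2iR : ((2 ^ i : ℕ) : ℝ) ≤ A / 32 := by
      have : ((2 ^ i : ℕ) : ℝ) ≤ n := by exact_mod_cast h2i
      linarith
    have h2iR' : A / 64 ≤ ((2 ^ i : ℕ) : ℝ) := by
      have h3 : (n : ℝ) + 1 ≤ ((2 ^ (i + 1) : ℕ) : ℝ) := by exact_mod_cast h2i'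
      have h4 : ((2 ^ (i + 1) : ℕ) : ℝ) = 2 * ((2 ^ i : ℕ) : ℝ) := by push_cast; ring
      linarith
    have hi2 : i ∈ range (Nat.log 2 X + 1) := by
      rw [Finset.mem_range, Nat.lt_succ_iff]
      refine Nat.le_log_of_pow_le (by norm_num) ?_
      have : ((2 ^ i : ℕ) : ℝ) ≤ X := by linarith
      exact_mod_cast this
    have h5 := KX_lower (2 ^ i) Nat.one_le_two_pow (β - c) (by
      have h6 : |β - c| * (2 * ((2 ^ i : ℕ) : ℝ)) ≤ |β - c| * (2 * (A / 32)) :=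
        mul_le_mul_of_nonneg_left (by linarith) (abs_nonneg _)
      have h7 : |β - c| * (2 * (A / 32)) = (|β - c| * A) / 16 := by ring
      rw [h7] at h6
      linarith)
    have h6 : KX (2 ^ i) (β - c) = KX (2 ^ i) β := by
      have := KX_add_int (2 ^ i) (β - c) c
      rw [← this]; congr 1; ring
    rw [h6] at h5
    have h7 := Finset.single_le_sum hsn hi2
    linarith

/-- sums over products. -/
lemma sum_prod_le (X : ℕ) (hX : 1 ≤ X) (ε K : ℝ) (hK : 0 ≤ K) (hε : 0 < ε)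
    (hKd : ∀ q : ℕ, 1 ≤ q → (q.divisors.card : ℝ) ≤ K * (q : ℝ) ^ ε)
    (F : ℤ → ℝ) (hF : ∀ z, 0 ≤ F z) :
    ∑ h ∈ Ioo (-(X : ℤ)) X, ∑ j ∈ Ioo (-(X : ℤ)) X, F (h * j) ≤
      4 * X * F 0 + 2 * K * (X : ℝ) ^ (2 * ε) * ∑ z ∈ Icc (-((X ^ 2 : ℕ) : ℤ)) ((X ^ 2 : ℕ) : ℤ), F z := by
  classical
  have hX0 : (0 : ℝ) < X := by exact_mod_cast hX
  obtain ⟨B, hB⟩ : ∃ B, B = Ioo (-(X : ℤ)) X := ⟨_, rfl⟩
  have hcard : B.card ≤ 2 * X := by
    rw [hB, Int.card_Ioo]; omega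
  rw [← hB, ← Finset.sum_product', ← Finset.sum_filter_add_sum_filter_not (B ×ˢ B) (fun p => p.1 * p.2 = 0)]
  refine add_le_add ?_ ?_
  · have h1 : ∀ p ∈ (B ×ˢ B).filter (fun p => p.1 * p.2 = 0), F (p.1 * p.2) = F 0 := by
      intro p hp
      rw [(Finset.mem_filter.1 hp).2]
    rw [Finset.sum_congr rfl h1, Finset.sum_const, nsmul_eq_mul]
    refine mul_le_mul_of_nonneg_right ?_ (hF 0)
    have h2 : (B ×ˢ B).filter (fun p => p.1 * p.2 = 0) ⊆ (B.image (fun j => ((0 : ℤ), j))) ∪ (B.image (fun h => (h, (0 : ℤ)))) := by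
      intro p hp
      rw [Finset.mem_filter, Finset.mem_product] at hp
      rw [Finset.mem_union, Finset.mem_image, Finset.mem_image]
      rcases mul_eq_zero.1 hp.2 with h3 | h3
      · exact Or.inl ⟨p.2, hp.1.2, by rw [← h3]⟩
      · exact Or.inr ⟨p.1, hp.1.1, by rw [← h3]⟩
    have h3 := (Finset.card_le_card h2).trans (Finset.card_union_le _ _)
    have h4 := Finset.card_image_le (s := B) (f := fun j => ((0 : ℤ), j))
    have h5 := Finset.card_image_le (s := B) (f := fun h => (h, (0 : ℤ)))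
    exact_mod_cast (by omega : ((B ×ˢ B).filter (fun p => p.1 * p.2 = 0)).card ≤ 4 * X)
  · obtain ⟨P, hP⟩ : ∃ P, P = (B ×ˢ B).filter (fun p => ¬ p.1 * p.2 = 0) := ⟨_, rfl⟩
    obtain ⟨Z, hZ⟩ : ∃ Z, Z = Icc (-((X ^ 2 : ℕ) : ℤ)) ((X ^ 2 : ℕ) : ℤ) := ⟨_, rfl⟩
    rw [← hP, ← hZ]
    have hPm : ∀ p ∈ P, p.1 ∈ B ∧ p.2 ∈ B ∧ p.1 * p.2 ≠ 0 := by
      intro p hp
      rw [hP, Finset.mem_filter, Finset.mem_product] at hp
      exact ⟨hp.1.1, hp.1.2, hp.2⟩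
    have hmaps : ∀ p ∈ P, p.1 * p.2 ∈ Z := by
      intro p hp
      obtain ⟨h1, h2, _⟩ := hPm p hp
      rw [hB, Finset.mem_Ioo] at h1 h2
      have a1 : |p.1| ≤ X := by rw [abs_le]; constructor <;> linarith [h1.1, h1.2]
      have a2 : |p.2| ≤ X := by rw [abs_le]; constructor <;> linarith [h2.1, h2.2]
      have a3 : |p.1 * p.2| ≤ ((X ^ 2 : ℕ) : ℤ) := by
        rw [abs_mul]
        calc |p.1| * |p.2| ≤ (X : ℤ) * X := mul_le_mul a1 a2 (abs_nonneg _) (Int.natCast_nonneg _)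
          _ = _ := by push_cast; ring
      rw [hZ, Finset.mem_Icc]
      exact abs_le.1 a3
    rw [← Finset.sum_fiberwise_of_maps_to hmaps, Finset.mul_sum]
    refine Finset.sum_le_sum fun z _ => ?_
    have h1 : ∀ p ∈ P.filter (fun p => p.1 * p.2 = z), F (p.1 * p.2) = F z := by
      intro p hp
      rw [(Finset.mem_filter.1 hp).2]
    rw [Finset.sum_congr rfl h1, Finset.sum_const, nsmul_eq_mul]
    refine mul_le_mul_of_nonneg_right ?_ (hF z)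
    rcases (P.filter (fun p => p.1 * p.2 = z)).eq_empty_or_nonempty with he | ⟨p0, hp0⟩
    · rw [he]
      simp only [Finset.card_empty, Nat.cast_zero]
      positivity
    · rw [Finset.mem_filter] at hp0
      have hz0 : z ≠ 0 := by rw [← hp0.2]; exact (hPm p0 hp0.1).2.2
      have hzX : z.natAbs ≤ X ^ 2 := by
        have := hmaps p0 hp0.1
        rw [hp0.2, hZ, Finset.mem_Icc] at this
        omega
      have hz1 : 1 ≤ z.natAbs := Int.natAbs_pos.2 hz0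
      have h2 : (P.filter (fun p => p.1 * p.2 = z)).card ≤ 2 * z.natAbs.divisors.card := by
        have h3 : (P.filter (fun p => p.1 * p.2 = z)).card ≤
            (z.natAbs.divisors.image (fun (e : ℕ) => (e : ℤ)) ∪ z.natAbs.divisors.image (fun (e : ℕ) => -(e : ℤ))).card := by
          refine Finset.card_le_card_of_injOn (fun p => p.1) ?_ ?_
          · intro p hp
            rw [Finset.mem_coe, Finset.mem_filter] at hp
            have hd : p.1.natAbs ∈ z.natAbs.divisors := by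
              rw [Nat.mem_divisors]
              refine ⟨?_, by omega⟩
              exact Int.natAbs_dvd_natAbs.2 ⟨p.2, hp.2.symm⟩
            rw [Finset.mem_coe, Finset.mem_union, Finset.mem_image, Finset.mem_image]
            rcases Int.natAbs_eq p.1 with h1 | h1
            · exact Or.inl ⟨p.1.natAbs, hd, h1.symm⟩
            · exact Or.inr ⟨p.1.natAbs, hd, h1.symm⟩
          · intro p hp p' hp' hpp
            rw [Finset.mem_coe, Finset.mem_filter] at hp hp'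
            simp only at hpp
            have hp1 : p.1 ≠ 0 := left_ne_zero_of_mul (hPm p hp.1).2.2
            have h4 : p.1 * p.2 = p.1 * p'.2 := by rw [hp.2, hpp, hp'.2]
            exact Prod.ext hpp (mul_left_cancel₀ hp1 h4)
        refine h3.trans ((Finset.card_union_le _ _).trans ?_)
        have h4 := Finset.card_image_le (s := z.natAbs.divisors) (f := fun (e : ℕ) => (e : ℤ))
        have h5 := Finset.card_image_le (s := z.natAbs.divisors) (f := fun (e : ℕ) => -(e : ℤ))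
        omega
      have h3 : ((P.filter (fun p => p.1 * p.2 = z)).card : ℝ) ≤ 2 * (z.natAbs.divisors.card : ℝ) := by exact_mod_cast h2
      have h4 := hKd z.natAbs hz1
      have h5 : ((z.natAbs : ℕ) : ℝ) ^ ε ≤ (X : ℝ) ^ (2 * ε) := by
        calc ((z.natAbs : ℕ) : ℝ) ^ ε ≤ ((X : ℝ) ^ 2) ^ ε := Real.rpow_le_rpow (Nat.cast_nonneg _) (by exact_mod_cast hzX) hε.le
          _ = (X : ℝ) ^ (2 * ε) := by
              rw [← Real.rpow_natCast (X : ℝ) 2, ← Real.rpow_mul hX0.le]; norm_num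
      calc ((P.filter (fun p => p.1 * p.2 = z)).card : ℝ) ≤ 2 * (K * ((z.natAbs : ℕ) : ℝ) ^ ε) := by linarith
        _ ≤ 2 * (K * (X : ℝ) ^ (2 * ε)) := by gcongr
        _ = _ := by ring

/-- the Weyl bound for the correlations of cubes. -/
theorem weyl_three (ε : ℝ) (hε : 0 < ε) : ∃ C : ℝ, 1 ≤ C ∧ ∀ (X : ℕ) (_ : 1 ≤ X) (α R : ℝ) (_ : 1 ≤ R) (_ : R ≤ X)
    (_ : Pool.Agent.helper132_poly.Minor 3 X α R), Dl 3 2 X α ≤ C * ((X : ℝ) ^ (3 * ε) / R) := by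
  classical
  obtain ⟨K, hK1, hK⟩ := card_div_le ε hε
  obtain ⟨C3, hC3, hlev⟩ := num_lev 1 ε hε
  refine ⟨64 * (4 + C3 * (16 + 2 * K * (32 * 12))), ?_, ?_⟩
  · have : 0 ≤ C3 * (16 + 2 * K * (32 * 12)) := by positivity
    linarith
  intro X hX α R hR1 hRX hmin
  have hXR : (1 : ℝ) ≤ X := by exact_mod_cast hX
  have hX0 : (0 : ℝ) < X := by linarith
  have hR0 : 0 < R := by linarith
  obtain ⟨B, hB⟩ : ∃ B, B = Ioo (-(X : ℤ)) X := ⟨_, rfl⟩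
  have hcard : (B.card : ℝ) ≤ 2 * X := by
    have : B.card ≤ 2 * X := by rw [hB, Int.card_Ioo]; omega
    exact_mod_cast this
  obtain ⟨N, hN⟩ : ∃ N, N = Nat.log 2 X + 1 := ⟨_, rfl⟩
  -- one shift
  have hone : ∀ h ∈ B, ‖Dk 3 X α h‖ ^ 2 ≤ ∑ j ∈ B, 64 * (1 + ∑ i ∈ range N, KX (2 ^ i) (6 * α * (((h * j : ℤ)) : ℝ))) := by
    intro h _
    obtain ⟨φ, hφ⟩ : ∃ φ : ℤ → ℝ, φ = fun (n : ℤ) => α * (((n + h : ℤ)) : ℝ) ^ 3 - α * (n : ℝ) ^ 3 := ⟨_, rfl⟩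
    obtain ⟨a, ha⟩ : ∃ a : ℤ, a = max (0 : ℤ) (0 - h) := ⟨_, rfl⟩
    obtain ⟨b, hb⟩ : ∃ b : ℤ, b = min (X : ℤ) (X - h) := ⟨_, rfl⟩
    have hab : b - a ≤ X := by
      have := min_le_left (X : ℤ) (X - h)
      have := le_max_left (0 : ℤ) (0 - h)
      omega
    have h1 : Dk 3 X α h = ∑ n ∈ Ico a b, ec (φ n) := by unfold Dk; rw [hφ, ha, hb]
    rw [h1]
    refine (weyl_diff X φ a b hab).trans ?_
    rw [← hB]
    refine Finset.sum_le_sum fun j _ => ?_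
    obtain ⟨a', ha'⟩ : ∃ a' : ℤ, a' = max a (a - j) := ⟨_, rfl⟩
    obtain ⟨b', hb'⟩ : ∃ b' : ℤ, b' = min b (b - j) := ⟨_, rfl⟩
    have hab' : b' - a' ≤ X := by
      have := min_le_left b (b - j)
      have := le_max_left a (a - j)
      omega
    rw [← ha', ← hb', hN]
    refine min_inv_le X hX _ _ (norm_sum_ec_le a' b' (fun n => φ (n + j) - φ n) X hab') ?_
    have hPh : Ph 1 (6 * α * (((h * j : ℤ)) : ℝ)) (fun n => φ (n + j) - φ n) := by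
      intro g n
      rw [hφ]
      push_cast
      ring
    obtain ⟨c, hc⟩ := weyl_one X hX (6 * α * (((h * j : ℤ)) : ℝ)) (fun n => φ (n + j) - φ n) hPh a' b' hab'
    refine ⟨c, ?_⟩
    have e : ∀ A : ℝ, |6 * α * (((h * j : ℤ)) : ℝ) - c| * (A / X) * X = |6 * α * (((h * j : ℤ)) : ℝ) - c| * A := by
      intro A; field_simp
    rw [e] at hc
    exact hc
  -- the sum
  have hKX : ∀ i ∈ range N, ∑ h ∈ B, ∑ j ∈ B, KX (2 ^ i) (6 * α * (((h * j : ℤ)) : ℝ)) ≤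
      (16 + 2 * K * (32 * 12)) * ((X : ℝ) ^ (2 * ε) * ((X : ℝ) ^ 3 / R)) := by
    intro i hi
    rw [Finset.mem_range, hN, Nat.lt_succ_iff] at hi
    obtain ⟨L, hL⟩ : ∃ L : ℕ, L = 2 ^ i := ⟨_, rfl⟩
    have hL1 : 1 ≤ L := by rw [hL]; exact Nat.one_le_two_pow
    have hLX : L ≤ X := by
      rw [hL]
      exact (Nat.pow_le_pow_right (by norm_num) hi).trans (Nat.pow_log_le_self 2 (by omega))
    have hLXR : (L : ℝ) ≤ X := by exact_mod_cast hLX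
    rw [← hL, hB]
    have h1 := sum_prod_le X hX ε K (by linarith) hε hK (fun z => KX L (6 * α * (z : ℝ))) (fun z => KX_nonneg _ _)
    refine h1.trans ?_
    have h2 : KX L (6 * α * ((0 : ℤ) : ℝ)) ≤ 4 * X := (KX_le1 L hL1 _).trans (by linarith)
    have h3 := KX_dioph 6 (X ^ 2) L (by norm_num) hL1 α R ((X : ℝ) ^ 3) hR1 (by positivity) hmin
    have e6 : ∀ z : ℤ, KX L (6 * α * (z : ℝ)) = KX L (((6 : ℕ) : ℝ) * α * z) := by
      intro z; push_cast; rfl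
    have h4 : ∑ z ∈ Icc (-((X ^ 2 : ℕ) : ℤ)) ((X ^ 2 : ℕ) : ℤ), KX L (6 * α * (z : ℝ)) ≤ 32 * (12 * ((X : ℝ) ^ 3 / R)) := by
      rw [Finset.sum_congr rfl (fun z _ => e6 z)]
      refine h3.trans ?_
      refine mul_le_mul_of_nonneg_left ?_ (by norm_num)
      obtain ⟨U, hU⟩ : ∃ U : ℝ, U = (X : ℝ) ^ 3 / R := ⟨_, rfl⟩
      have hU2 : (X : ℝ) ^ 2 ≤ U := by
        rw [hU, le_div_iff₀ hR0]
        calc (X : ℝ) ^ 2 * R ≤ (X : ℝ) ^ 2 * X := by gcongr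
          _ = _ := by ring
      have hX2 : (X : ℝ) ≤ (X : ℝ) ^ 2 := le_self_pow₀ hXR (by norm_num)
      have a4 : ((6 : ℕ) : ℝ) * ((X ^ 2 : ℕ) : ℝ) * L / R ≤ 6 * U := by
        rw [hU, ← mul_div_assoc]
        refine div_le_div_of_nonneg_right ?_ hR0.le
        push_cast
        calc 6 * (X : ℝ) ^ 2 * L ≤ 6 * (X : ℝ) ^ 2 * X := by gcongr
          _ = _ := by ring
      rw [← hU]
      push_cast at a4 ⊢
      linarith
    have hXε : 1 ≤ (X : ℝ) ^ (2 * ε) := Real.one_le_rpow hXR (by positivity)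
    have h5 : (X : ℝ) ^ 2 ≤ (X : ℝ) ^ (2 * ε) * ((X : ℝ) ^ 3 / R) := by
      have hU2 : (X : ℝ) ^ 2 ≤ (X : ℝ) ^ 3 / R := by
        rw [le_div_iff₀ hR0]
        calc (X : ℝ) ^ 2 * R ≤ (X : ℝ) ^ 2 * X := by gcongr
          _ = _ := by ring
      calc (X : ℝ) ^ 2 = 1 * (X : ℝ) ^ 2 := (one_mul _).symm
        _ ≤ (X : ℝ) ^ (2 * ε) * ((X : ℝ) ^ 3 / R) := mul_le_mul hXε hU2 (by positivity) (by positivity)
    calc 4 * (X : ℝ) * KX L (6 * α * ((0 : ℤ) : ℝ)) + 2 * K * (X : ℝ) ^ (2 * ε) *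
          ∑ z ∈ Icc (-((X ^ 2 : ℕ) : ℤ)) ((X ^ 2 : ℕ) : ℤ), KX L (6 * α * (z : ℝ))
        ≤ 4 * (X : ℝ) * (4 * X) + 2 * K * (X : ℝ) ^ (2 * ε) * (32 * (12 * ((X : ℝ) ^ 3 / R))) := by gcongr
      _ = 16 * (X : ℝ) ^ 2 + 2 * K * (32 * 12) * ((X : ℝ) ^ (2 * ε) * ((X : ℝ) ^ 3 / R)) := by ring
      _ ≤ 16 * ((X : ℝ) ^ (2 * ε) * ((X : ℝ) ^ 3 / R)) + 2 * K * (32 * 12) * ((X : ℝ) ^ (2 * ε) * ((X : ℝ) ^ 3 / R)) := by gcongr
      _ = _ := by ring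
  have hNX : (N : ℝ) ≤ C3 * (X : ℝ) ^ ε := by
    refine le_trans ?_ (hlev X hX)
    rw [pow_one, hN]
    exact_mod_cast (by omega : Nat.log 2 X + 1 ≤ Nat.log 2 X + 2)
  have htot : ∑ h ∈ B, ‖Dk 3 X α h‖ ^ 2 ≤ 64 * (4 * (X : ℝ) ^ 2 + N * ((16 + 2 * K * (32 * 12)) * ((X : ℝ) ^ (2 * ε) * ((X : ℝ) ^ 3 / R)))) := by
    refine (Finset.sum_le_sum hone).trans ?_
    have h1 : ∑ h ∈ B, ∑ j ∈ B, 64 * (1 + ∑ i ∈ range N, KX (2 ^ i) (6 * α * (((h * j : ℤ)) : ℝ))) =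
        64 * ((B.card : ℝ) * B.card + ∑ i ∈ range N, ∑ h ∈ B, ∑ j ∈ B, KX (2 ^ i) (6 * α * (((h * j : ℤ)) : ℝ))) := by
      have h2 : ∀ h ∈ B, ∑ j ∈ B, 64 * (1 + ∑ i ∈ range N, KX (2 ^ i) (6 * α * (((h * j : ℤ)) : ℝ))) =
          64 * ((B.card : ℝ) + ∑ i ∈ range N, ∑ j ∈ B, KX (2 ^ i) (6 * α * (((h * j : ℤ)) : ℝ))) := by
        intro h _
        rw [← Finset.mul_sum, Finset.sum_add_distrib, Finset.sum_const, nsmul_eq_mul, mul_one, Finset.sum_comm (s := B) (t := range N)]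
      rw [Finset.sum_congr rfl h2, ← Finset.mul_sum, Finset.sum_add_distrib, Finset.sum_const, nsmul_eq_mul, Finset.sum_comm (s := B) (t := range N)]
    rw [h1]
    refine mul_le_mul_of_nonneg_left ?_ (by norm_num)
    refine add_le_add ?_ ?_
    · calc (B.card : ℝ) * B.card ≤ (2 * X) * (2 * X) := mul_le_mul hcard hcard (Nat.cast_nonneg _) (by positivity)
        _ = _ := by ring
    · refine (Finset.sum_le_sum hKX).trans ?_
      rw [Finset.sum_const, Finset.card_range, nsmul_eq_mul]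
  have hDl : Dl 3 2 X α = (∑ h ∈ B, ‖Dk 3 X α h‖ ^ 2) / (X : ℝ) ^ 3 := by
    unfold Dl dl
    rw [← hB]
    have : ∀ h ∈ B, (‖Dk 3 X α h‖ / X) ^ 2 = ‖Dk 3 X α h‖ ^ 2 / (X : ℝ) ^ 2 := fun h _ => by rw [div_pow]
    rw [Finset.sum_congr rfl this, ← Finset.sum_div, div_div]
    congr 1
  rw [hDl, div_le_iff₀ (by positivity)]
  refine htot.trans ?_
  have h3ε : (X : ℝ) ^ (3 * ε) = (X : ℝ) ^ ε * (X : ℝ) ^ (2 * ε) := by
    rw [← Real.rpow_add hX0]; congr 1; ring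
  have hX3 : 1 ≤ (X : ℝ) ^ (3 * ε) := Real.one_le_rpow hXR (by positivity)
  have h6 : (X : ℝ) ^ 2 ≤ (X : ℝ) ^ (3 * ε) / R * (X : ℝ) ^ 3 := by
    have hU2 : (X : ℝ) ^ 2 ≤ (X : ℝ) ^ 3 / R := by
      rw [le_div_iff₀ hR0]
      calc (X : ℝ) ^ 2 * R ≤ (X : ℝ) ^ 2 * X := by gcongr
        _ = _ := by ring
    calc (X : ℝ) ^ 2 = 1 * (X : ℝ) ^ 2 := (one_mul _).symm
      _ ≤ (X : ℝ) ^ (3 * ε) * ((X : ℝ) ^ 3 / R) := mul_le_mul hX3 hU2 (by positivity) (by positivity)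
      _ = _ := by ring
  calc 64 * (4 * (X : ℝ) ^ 2 + N * ((16 + 2 * K * (32 * 12)) * ((X : ℝ) ^ (2 * ε) * ((X : ℝ) ^ 3 / R))))
      ≤ 64 * (4 * ((X : ℝ) ^ (3 * ε) / R * (X : ℝ) ^ 3) + (C3 * (X : ℝ) ^ ε) * ((16 + 2 * K * (32 * 12)) * ((X : ℝ) ^ (2 * ε) * ((X : ℝ) ^ 3 / R)))) := by
        gcongr
    _ = _ := by rw [h3ε]; ring

end Pool.Agent.helper132_p
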